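import Pool.Agent.Helper97.TF6.GB

/-!
BLOCK TF6-LAG (about 200 lines). Lagrange interpolation in the space of the rows `gB β i`, `i < N`. ONLY MATHLIB (and GB.lean: only `gB_poly` is needed).

`x : Fin N → ℕ` is injective, `X = univ.image x`.

Proofs.
* `rt_range`: in the product for `rt β X (x j) (x k)` the factor `z = x k` is `0` if `k ≠ j`; `rt β X (x j) (x j) = 1`.
* `lag`: `gB β i v = β^v/v! * p.eval v` with `natDegree p = i < N` (`gB_poly`); Lagrange interpolation `p.eval v = ∑_j p.eval (x j) ∏_{z ≠ x j} (v - z)/(x j - z)` (`Lagrange.sum_basis`/`Lagrange.eq_interpolate_of_degree_lt`, or `Polynomial` of degree `< N` vanishing at `N` points);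
  `β^v/v! = β^(v - x j) (x j)!/v! * β^(x j)/(x j)!`.
* `Bm_det`: `Bm β x = (rows p_i.eval (x j)) * diag(β^(x j)/(x j)!)`; the `p_i` have the degrees `i` and leading coefficients `β^(-i) ≠ 0`: `Matrix.det_eval_matrixOfPolynomials_eq_det_vandermonde` after division by the leading coefficients (or: if a row vector `c ≠ 0` has `c * Bm = 0` then the nonzero polynomial `∑ c_i p_i` of degree `< N` has the
  `N` zeros `x j`).
* `rt_summable`: for fixed `z` `|rt β X z y| ≤ C β^y/y! * (y + M)^K` with constants `C`, `M`, `K = #(X.erase z)`; `exp(c |y - z|)` is geometric; compare with `∑ q^y (y+M)^(2K)/(y!)²`. `rt_summable'`: in the same way.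
* `det_move`: `Matrix.cramer`/`Matrix.det_updateCol_sum` with `lag` for all rows (the new column is the combination `∑_k rt β X (x k) v * (column k)`); the summands `k ≠ j` have two equal columns.
-/

set_option autoImplicit false

open Finset

namespace Pool.Agent.Helper97.TF6

private theorem rt_bound68 {β : ℝ} (hβ : 0 < β) (X : Finset ℕ) (z : ℕ) :
    ∃ D a : ℝ, 0 ≤ D ∧ 0 < a ∧ ∀ y : ℕ, |rt β X z y| ≤ D * (a ^ y / (y.factorial : ℝ)) := by
  refine ⟨β⁻¹ ^ z * (z.factorial : ℝ) * ∏ w ∈ X.erase z, ((1 + (w : ℝ)) / |(z : ℝ) - (w : ℝ)|),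
    β * 2 ^ (X.erase z).card, by positivity, by positivity, fun y => ?_⟩
  have h1 : |∏ w ∈ X.erase z, (((y : ℝ) - (w : ℝ)) / ((z : ℝ) - (w : ℝ)))| ≤
      (∏ w ∈ X.erase z, ((1 + (w : ℝ)) / |(z : ℝ) - (w : ℝ)|)) * (2 ^ (X.erase z).card) ^ y := by
    rw [Finset.abs_prod, ← pow_mul, mul_comm (X.erase z).card y, pow_mul, ← Finset.prod_const, ← Finset.prod_mul_distrib]
    refine Finset.prod_le_prod (fun _ _ => abs_nonneg _) fun w _ => ?_
    rw [abs_div, div_mul_eq_mul_div]
    refine div_le_div_of_nonneg_right ?_ (abs_nonneg _)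
    have h2 : (y : ℝ) ≤ 2 ^ y := by
      have := (Nat.lt_two_pow_self (n := y)).le
      exact_mod_cast this
    have h3 : (1 : ℝ) ≤ 2 ^ y := one_le_pow₀ (by norm_num)
    have h4 : (0 : ℝ) ≤ w := Nat.cast_nonneg _
    have h5 : (0 : ℝ) ≤ y := Nat.cast_nonneg _
    rw [abs_le]
    constructor <;> nlinarith
  have h6 : |rt β X z y| = β ^ ((y : ℤ) - (z : ℤ)) * ((z.factorial : ℝ) / (y.factorial : ℝ)) *
      |∏ w ∈ X.erase z, (((y : ℝ) - (w : ℝ)) / ((z : ℝ) - (w : ℝ)))| := by
    unfold rt
    rw [abs_mul, abs_of_nonneg (by positivity)]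
  have h7 : β ^ ((y : ℤ) - (z : ℤ)) = β ^ y * β⁻¹ ^ z := by
    rw [zpow_sub₀ hβ.ne', zpow_natCast, zpow_natCast, inv_pow, div_eq_mul_inv]
  rw [h6, h7]
  refine (mul_le_mul_of_nonneg_left h1 (by positivity)).trans (le_of_eq ?_)
  rw [mul_pow]
  ring

theorem rt_summable {β : ℝ} (hβ : 0 < β) (X : Finset ℕ) (z : ℕ) (c : ℝ) :
    Summable fun y : ℕ => rt β X z y ^ 2 * Real.exp (c * |(y : ℝ) - (z : ℝ)|) := by
  obtain ⟨D, a, hD, ha, h⟩ := rt_bound68 hβ X z
  have hs : Summable fun y : ℕ => D ^ 2 * Real.exp (|c| * z) * ((a ^ 2 * Real.exp |c|) ^ y / (y.factorial : ℝ)) :=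
    (Real.summable_pow_div_factorial _).mul_left _
  refine Summable.of_nonneg_of_le (fun y => by positivity) (fun y => ?_) hs
  have h1 : rt β X z y ^ 2 ≤ D ^ 2 * ((a ^ 2) ^ y / (y.factorial : ℝ)) := by
    have h2 : rt β X z y ^ 2 ≤ (D * (a ^ y / (y.factorial : ℝ))) ^ 2 := by
      rw [← sq_abs]
      exact pow_le_pow_left₀ (abs_nonneg _) (h y) 2
    refine h2.trans ?_
    rw [mul_pow, div_pow, ← pow_mul, mul_comm y 2, pow_mul]
    refine mul_le_mul_of_nonneg_left ?_ (by positivity)
    refine div_le_div_of_nonneg_left (by positivity) (by positivity) ?_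
    have : (1 : ℝ) ≤ y.factorial := by exact_mod_cast Nat.factorial_pos y
    nlinarith
  have h3 : Real.exp (c * |(y : ℝ) - (z : ℝ)|) ≤ Real.exp (|c| * z) * Real.exp |c| ^ y := by
    rw [← Real.exp_nat_mul, ← Real.exp_add]
    refine Real.exp_le_exp.2 ?_
    have h4 : |(y : ℝ) - (z : ℝ)| ≤ y + z := by
      have h5 : (0 : ℝ) ≤ z := Nat.cast_nonneg _
      have h6 : (0 : ℝ) ≤ y := Nat.cast_nonneg _
      rw [abs_le]
      constructor <;> linarith
    calc c * |(y : ℝ) - (z : ℝ)| ≤ |c| * |(y : ℝ) - (z : ℝ)| :=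
          mul_le_mul_of_nonneg_right (le_abs_self c) (abs_nonneg _)
      _ ≤ |c| * (y + z) := mul_le_mul_of_nonneg_left h4 (abs_nonneg _)
      _ = |c| * z + y * |c| := by ring
  calc rt β X z y ^ 2 * Real.exp (c * |(y : ℝ) - (z : ℝ)|)
      ≤ (D ^ 2 * ((a ^ 2) ^ y / (y.factorial : ℝ))) * (Real.exp (|c| * z) * Real.exp |c| ^ y) :=
        mul_le_mul h1 h3 (Real.exp_nonneg _) (by positivity)
    _ = D ^ 2 * Real.exp (|c| * z) * ((a ^ 2 * Real.exp |c|) ^ y / (y.factorial : ℝ)) := by
        rw [mul_pow]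
        ring

theorem rt_summable' {β : ℝ} (hβ : 0 < β) (X : Finset ℕ) (z : ℕ) : Summable fun y : ℕ => |rt β X z y| := by
  obtain ⟨D, a, hD, ha, h⟩ := rt_bound68 hβ X z
  exact Summable.of_nonneg_of_le (fun _ => abs_nonneg _) h ((Real.summable_pow_div_factorial a).mul_left D)

variable {N : ℕ}

theorem rt_range {β : ℝ} (hβ : 0 < β) {x : Fin N → ℕ} (hx : Function.Injective x) (j k : Fin N) :
    rt β (univ.image x) (x j) (x k) = if k = j then 1 else 0 := by
  unfold rt
  split_ifs with h
  · subst h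
    rw [sub_self, zpow_zero, one_mul, div_self (by positivity), one_mul]
    refine Finset.prod_eq_one fun z hz => ?_
    refine div_self ?_
    rw [sub_ne_zero]
    exact_mod_cast (Finset.ne_of_mem_erase hz).symm
  · have h1 : x k ∈ (univ.image x).erase (x j) :=
      Finset.mem_erase.2 ⟨fun h2 => h (hx h2), Finset.mem_image_of_mem _ (Finset.mem_univ _)⟩
    rw [Finset.prod_eq_zero h1 (by rw [sub_self, zero_div]), mul_zero]

theorem lag {β : ℝ} (hβ : 0 < β) {x : Fin N → ℕ} (hx : Function.Injective x) (i : ℕ) (hi : i < N) (v : ℕ) :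
    gB β i v = ∑ j, rt β (univ.image x) (x j) v * gB β i (x j) := by
  obtain ⟨p, hp, -, hpe⟩ := gB_poly hβ.ne' i
  have hinj : Set.InjOn (fun j => (x j : ℝ)) ((univ : Finset (Fin N)) : Set (Fin N)) := by
    intro a _ b _ hab
    exact hx (Nat.cast_injective hab)
  have hdeg : p.degree < ((univ : Finset (Fin N)).card : WithBot ℕ) := by
    refine (Polynomial.degree_le_natDegree).trans_lt ?_
    rw [hp, Finset.card_univ, Fintype.card_fin]
    exact_mod_cast hi
  have h1 : p.eval (v : ℝ) = ∑ j, p.eval (x j : ℝ) *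
      ∏ z ∈ (univ.image x).erase (x j), (((v : ℝ) - (z : ℝ)) / ((x j : ℝ) - (z : ℝ))) := by
    conv_lhs => rw [Lagrange.eq_interpolate hinj hdeg]
    rw [Lagrange.interpolate_apply, Polynomial.eval_finsetSum]
    refine Finset.sum_congr rfl fun j _ => ?_
    rw [Polynomial.eval_mul, Polynomial.eval_C]
    congr 1
    unfold Lagrange.basis
    rw [Polynomial.eval_prod, ← Finset.image_erase hx, Finset.prod_image (fun a _ b _ h => hx h)]
    refine Finset.prod_congr rfl fun k _ => ?_
    unfold Lagrange.basisDivisor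
    rw [Polynomial.eval_mul, Polynomial.eval_C, Polynomial.eval_sub, Polynomial.eval_X, Polynomial.eval_C,
      inv_mul_eq_div]
  rw [hpe v, h1, Finset.mul_sum]
  refine Finset.sum_congr rfl fun j _ => ?_
  rw [hpe (x j)]
  unfold rt
  have h2 : β ^ ((v : ℤ) - (x j : ℤ)) = β ^ v / β ^ (x j) := by
    rw [zpow_sub₀ hβ.ne', zpow_natCast, zpow_natCast]
  rw [h2]
  have h3 : β ^ (x j) ≠ 0 := (pow_pos hβ _).ne'
  have h4 : ((x j).factorial : ℝ) ≠ 0 := by positivity
  field_simp

theorem Bm_det {β : ℝ} (hβ : 0 < β) {x : Fin N → ℕ} (hx : Function.Injective x) : (Bm β x).det ≠ 0 := by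
  intro hdet
  obtain ⟨c, hc, hcm⟩ := Matrix.exists_vecMul_eq_zero_iff.2 hdet
  choose p hp hpc hpe using fun i : ℕ => gB_poly hβ.ne' i
  have hinj : Set.InjOn (fun j => (x j : ℝ)) ((univ : Finset (Fin N)) : Set (Fin N)) := by
    intro a _ b _ hab
    exact hx (Nat.cast_injective hab)
  have hq : ∑ i : Fin N, Polynomial.C (c i) * p i = 0 := by
    refine Polynomial.eq_zero_of_degree_lt_of_eval_index_eq_zero (univ : Finset (Fin N)) hinj ?_ ?_
    · rw [Finset.card_univ, Fintype.card_fin]
      rcases Nat.eq_zero_or_pos N with h0 | h0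
      · exfalso
        subst h0
        exact hc (Subsingleton.elim _ _)
      refine (Polynomial.degree_sum_le _ _).trans_lt ?_
      rw [Finset.sup_lt_iff (by exact_mod_cast WithBot.bot_lt_coe N)]
      intro i _
      refine (Polynomial.degree_le_natDegree).trans_lt ?_
      have h := Polynomial.natDegree_C_mul_le (c i) (p i)
      rw [hp] at h
      exact_mod_cast h.trans_lt i.2
    · intro j _
      have h1 := congrFun hcm j
      rw [Matrix.vecMul, dotProduct, Pi.zero_apply] at h1
      have h2 : ∑ i : Fin N, c i * gB β i (x j) =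
          β ^ (x j) / ((x j).factorial : ℝ) * ∑ i : Fin N, c i * (p i).eval (x j : ℝ) := by
        rw [Finset.mul_sum]
        refine Finset.sum_congr rfl fun i _ => ?_
        rw [hpe i (x j)]
        ring
      have h3 : ∑ i : Fin N, c i * gB β i (x j) = 0 := h1
      rw [h2] at h3
      have h4 : β ^ (x j) / ((x j).factorial : ℝ) ≠ 0 := by positivity
      rw [Polynomial.eval_finsetSum]
      simp only [Polynomial.eval_mul, Polynomial.eval_C]
      exact (mul_eq_zero.1 h3).resolve_left h4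
  apply hc
  by_contra hc'
  have hne : (univ.filter fun i => c i ≠ 0).Nonempty := by
    by_contra h
    rw [Finset.not_nonempty_iff_eq_empty, Finset.filter_eq_empty_iff] at h
    apply hc'
    funext i
    have := h (Finset.mem_univ i)
    simpa using this
  have hmem := Finset.max'_mem _ hne
  set i0 := (univ.filter fun i => c i ≠ 0).max' hne with hi0
  rw [Finset.mem_filter] at hmem
  have h5 := congrArg (fun q => Polynomial.coeff q (i0 : ℕ)) hq
  simp only [Polynomial.finsetSum_coeff, Polynomial.coeff_C_mul, Polynomial.coeff_zero] at h5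
  rw [Finset.sum_eq_single i0] at h5
  · rw [hpc] at h5
    have h6 : β⁻¹ ^ (i0 : ℕ) ≠ 0 := by positivity
    exact hmem.2 ((mul_eq_zero.1 h5).resolve_right h6)
  · intro i _ hi
    rcases lt_or_gt_of_ne hi with h | h
    · rw [Polynomial.coeff_eq_zero_of_natDegree_lt, mul_zero]
      rw [hp]
      exact h
    · have h7 : c i = 0 := by
        by_contra h8
        have h9 : i ≤ i0 := by
          rw [hi0]
          exact Finset.le_max' _ i (Finset.mem_filter.2 ⟨Finset.mem_univ _, h8⟩)
        exact absurd h9 (not_le.2 h)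
      rw [h7, zero_mul]
  · intro h
    exact absurd (Finset.mem_univ _) h

theorem det_move {β : ℝ} (hβ : 0 < β) {x : Fin N → ℕ} (hx : Function.Injective x) (j : Fin N) (v : ℕ) :
    ((Bm β x).updateCol j (fun i => gB β i v)).det = rt β (univ.image x) (x j) v * (Bm β x).det := by
  have h := Matrix.det_updateCol_sum (Bm β x) j (fun k => rt β (univ.image x) (x k) v)
  rw [smul_eq_mul] at h
  rw [← h]
  congr 2
  funext i
  rw [lag hβ hx i i.2 v]
  rfl

end Pool.Agent.Helper97.TF6
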