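import Mathlib

/-!
Project TF6 (MP_22c541_al, Theorem F, section 6). Definitions. Paper proof: /team-store/h97_22c541_sec6.md.

`β > 0` is a real number, later `β = √n`. Beads: a finite set `X` of `N` natural numbers (for the row lengths `κ : Fin N → ℕ`, antitone, the beads are `κ i + (N - 1 - i)`).

* `JN β k` is the Bessel function `J_k(2β)`, `k ≥ 0`; `JB β k` for `k : ℤ` (`J_{-k} = (-1)^k J_k`).
* `gB β y x = ∑_z (-β)^(y-z) β^(x-z) / ((y-z)! (x-z)!)`, `z ≤ min x y`: the matrix of `exp(-β T*) exp(β T)` on `ℓ²(ℕ)`, `T e_x = e_{x-1}`. Its inverse is the matrix `JB β (x - i)`.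
* `rt β X x y`: the signed ratio for moving the bead `x ∈ X` to `y`.
* `RR β X`: the sum of the squares of all `rt β X x y`, `x ∈ X`, `y ∉ X`; `RRw`: with the weight `exp(|x-y|/β)`.
* `pk β X k`: the scaled character value of a `k`-cycle, in terms of the beads.
* For an enumeration `x : Fin N → ℕ` of the beads: `Bm β x` is the matrix `gB β i (x j)`, `i < N`, and `Rm β x y i` the coefficients of the row `gB β y (x ·)` in the rows `gB β i (x ·)`, `i < N`.
* `KK β x a b = (-1)^b Rm β x (N + a) (N - 1 - b)`.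
-/

set_option autoImplicit false

open Finset

namespace Pool.Agent.Helper97.TF6

/-- The Bessel function `J_k(2β)`, `k ≥ 0`. -/
noncomputable def JN (β : ℝ) (k : ℕ) : ℝ :=
  ∑' j : ℕ, (-1) ^ j * β ^ (2 * j + k) / ((j.factorial : ℝ) * ((j + k).factorial : ℝ))

/-- The Bessel function `J_k(2β)`, `k` an integer. -/
noncomputable def JB (β : ℝ) (k : ℤ) : ℝ :=
  if 0 ≤ k then JN β k.toNat else (-1) ^ (-k).toNat * JN β (-k).toNat

/-- The matrix of `exp(-β T*) exp(β T)`. -/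
noncomputable def gB (β : ℝ) (y x : ℕ) : ℝ :=
  ∑ z ∈ range (min x y + 1), (-β) ^ (y - z) * β ^ (x - z) / (((y - z).factorial : ℝ) * ((x - z).factorial : ℝ))

/-- The signed ratio for moving the bead `x` to `y`. -/
noncomputable def rt (β : ℝ) (X : Finset ℕ) (x y : ℕ) : ℝ :=
  β ^ ((y : ℤ) - (x : ℤ)) * ((x.factorial : ℝ) / (y.factorial : ℝ)) *
    ∏ z ∈ X.erase x, (((y : ℝ) - (z : ℝ)) / ((x : ℝ) - (z : ℝ)))

/-- The sum of the squares of the ratios of all one-bead moves. -/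
noncomputable def RR (β : ℝ) (X : Finset ℕ) : ℝ :=
  ∑ x ∈ X, ∑' y : ℕ, if y ∈ X then 0 else rt β X x y ^ 2

/-- The weighted sum. -/
noncomputable def RRw (β : ℝ) (X : Finset ℕ) : ℝ :=
  ∑ x ∈ X, ∑' y : ℕ, if y ∈ X then 0 else rt β X x y ^ 2 * Real.exp (|(y : ℝ) - (x : ℝ)| / β)

/-- The scaled character value of a `k`-cycle. -/
noncomputable def pk (β : ℝ) (X : Finset ℕ) (k : ℕ) : ℝ :=
  ∑ x ∈ X, (x.descFactorial k : ℝ) / β ^ k * ∏ z ∈ X.erase x, (((x : ℝ) - (k : ℝ) - (z : ℝ)) / ((x : ℝ) - (z : ℝ)))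

variable {N : ℕ}

/-- The beads of the row lengths `κ`, as a function. -/
def bd (κ : Fin N → ℕ) (i : Fin N) : ℕ := κ i + (N - 1 - (i : ℕ))

/-- The beads of the row lengths `κ`, as a set. -/
def bs (κ : Fin N → ℕ) : Finset ℕ := univ.image (bd κ)

/-- The matrix `gB β i (x j)`. -/
noncomputable def Bm (β : ℝ) (x : Fin N → ℕ) : Matrix (Fin N) (Fin N) ℝ := Matrix.of fun i j => gB β i (x j)

/-- The coefficients of the row `y` in the rows `< N`. -/
noncomputable def Rm (β : ℝ) (x : Fin N → ℕ) (y : ℕ) : Fin N → ℝ :=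
  Matrix.vecMul (fun j => gB β y (x j)) (Bm β x)⁻¹

/-- The hook functions. -/
noncomputable def KK (β : ℝ) (x : Fin N → ℕ) (a b : ℕ) : ℝ :=
  if h : b < N then (-1) ^ b * Rm β x (N + a) ⟨N - 1 - b, by omega⟩ else 0

theorem gB_zero_left (β : ℝ) (x : ℕ) : gB β 0 x = β ^ x / (x.factorial : ℝ) := by
  simp [gB]

theorem gB_zero_right (β : ℝ) (y : ℕ) : gB β y 0 = (-β) ^ y / (y.factorial : ℝ) := by
  simp [gB]

theorem JB_natCast (β : ℝ) (k : ℕ) : JB β k = JN β k := by
  simp [JB]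

theorem JB_neg_natCast (β : ℝ) (k : ℕ) : JB β (-(k : ℤ)) = (-1) ^ k * JN β k := by
  unfold JB
  split_ifs with h
  · have : k = 0 := by omega
    subst this
    simp
  · simp

end Pool.Agent.Helper97.TF6
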