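import Pool.Agent.Helper97.TF6.Defs

/-!
BLOCK TF6-GB (about 150 lines). The matrix `gB β y x` of `exp(-β T*) exp(β T)` on `ℓ²(ℕ)`, the finite part. ONLY MATHLIB.

Proofs.
* `gB_rec`: `x - y = (x - z) - (y - z)` in the sum for `gB β y x`: `∑_z (x-z) … = β ∑_z (-β)^(y-z) β^(x-1-z) / ((y-z)! (x-1-z)!)`, this is `β` times `gB β (y+1) x` without the term `z = 0` (put `z = z' - 1`), the term is `(-β)^(y+1) β^x / ((y+1)! x!)`; `- ∑_z (y-z) … = β gB β (y-1) x`.
* `gB_shift`: put `z = z' + k` in `gB β i (x-k) = ∑_{z'}`: these are the terms `z ≥ k` of `gB β (i+k) x`. `gB_exp`: insert the definition of `gB β l x`, interchange, binomial theorem.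
* `gB_poly`: `gB β i x = β^x/x! * ∑_{z ≤ i} (-β)^(i-z)/(i-z)! * β^(-z) * x(x-1)…(x-z+1)` (for `z > x` the falling factorial is `0`); `descPochhammer`; the top coefficient is `β^(-i)`.
-/

set_option autoImplicit false

open Finset

namespace Pool.Agent.Helper97.TF6

/-- `c ^ (y - z) / (y - z)!`, zero for `z > y`. -/
private noncomputable def AA53 (c : ℝ) (y z : ℕ) : ℝ :=
  if z ≤ y then c ^ (y - z) / ((y - z).factorial : ℝ) else 0

private theorem AA53_succ (c : ℝ) (y z : ℕ) : AA53 c (y + 1) (z + 1) = AA53 c y z := by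
  unfold AA53
  have e1 : (z + 1 ≤ y + 1) ↔ (z ≤ y) := by omega
  have e2 : y + 1 - (z + 1) = y - z := by omega
  simp only [e1, e2]

private theorem AA53_mul (c : ℝ) (y z : ℕ) :
    ((y : ℝ) - (z : ℝ)) * AA53 c y z = c * AA53 c y (z + 1) := by
  unfold AA53
  by_cases h : z ≤ y
  · obtain ⟨k, rfl⟩ := Nat.exists_eq_add_of_le h
    rw [if_pos h, Nat.add_sub_cancel_left]
    rcases k with _ | k
    · rw [if_neg (by omega)]
      simp
    · rw [if_pos (by omega)]
      have e : z + (k + 1) - (z + 1) = k := by omega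
      rw [e, Nat.factorial_succ, pow_succ]
      have h1 : ((k.factorial : ℕ) : ℝ) ≠ 0 := Nat.cast_ne_zero.2 (Nat.factorial_ne_zero _)
      have h2 : ((k : ℝ) + 1) ≠ 0 := by positivity
      push_cast
      field_simp
      ring
  · rw [if_neg h, if_neg (by omega)]
    simp

private theorem gB_A53 (β : ℝ) (y x : ℕ) {Z : ℕ} (hZ : min x y + 1 ≤ Z) :
    gB β y x = ∑ z ∈ range Z, AA53 (-β) y z * AA53 β x z := by
  have h1 : gB β y x = ∑ z ∈ range (min x y + 1), AA53 (-β) y z * AA53 β x z := by
    unfold gB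
    refine Finset.sum_congr rfl fun z hz => ?_
    rw [Finset.mem_range] at hz
    unfold AA53
    rw [if_pos (by omega), if_pos (by omega), div_mul_div_comm]
  rw [h1]
  refine Finset.sum_subset (Finset.range_subset_range.2 hZ) (fun z _ hz => ?_)
  rw [Finset.mem_range] at hz
  unfold AA53
  by_cases h : z ≤ y
  · rw [if_neg (by omega : ¬ z ≤ x), mul_zero]
  · rw [if_neg h, zero_mul]

private theorem AA53_inv (β : ℝ) (z w : ℕ) :
    ∑ l ∈ range (z + 1), AA53 β z l * AA53 (-β) l w = if w = z then 1 else 0 := by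
  by_cases hw : w ≤ z
  · obtain ⟨m, rfl⟩ := Nat.exists_eq_add_of_le hw
    rw [add_assoc, Finset.sum_range_add, Finset.sum_eq_zero, zero_add]
    · have h1 : ∀ j ∈ range (m + 1), AA53 β (w + m) (w + j) * AA53 (-β) (w + j) w =
          (-β) ^ j * β ^ (m - j) * (m.choose j : ℝ) / (m.factorial : ℝ) := by
        intro j hj
        rw [Finset.mem_range] at hj
        unfold AA53
        have e1 : w + m - (w + j) = m - j := by omega
        rw [if_pos (by omega), if_pos (by omega), e1, Nat.add_sub_cancel_left]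
        have h2 : (m.factorial : ℝ) = (m.choose j : ℝ) * (j.factorial : ℝ) *
            ((m - j).factorial : ℝ) := by
          exact_mod_cast (Nat.choose_mul_factorial_mul_factorial (by omega : j ≤ m)).symm
        have h3 : ((j.factorial : ℕ) : ℝ) ≠ 0 := Nat.cast_ne_zero.2 (Nat.factorial_ne_zero _)
        have h4 : (((m - j).factorial : ℕ) : ℝ) ≠ 0 := Nat.cast_ne_zero.2 (Nat.factorial_ne_zero _)
        have h5 : ((m.choose j : ℕ) : ℝ) ≠ 0 :=
          Nat.cast_ne_zero.2 (Nat.choose_pos (by omega : j ≤ m)).ne'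
        rw [h2]
        field_simp
      rw [Finset.sum_congr rfl h1, ← Finset.sum_div, ← add_pow, neg_add_cancel]
      rcases m with _ | m
      · simp
      · rw [zero_pow (by omega), zero_div, if_neg (by omega)]
    · intro l hl
      rw [Finset.mem_range] at hl
      have : AA53 (-β) l w = 0 := by rw [AA53, if_neg (by omega)]
      rw [this, mul_zero]
  · rw [if_neg (by omega)]
    refine Finset.sum_eq_zero fun l hl => ?_
    rw [Finset.mem_range] at hl
    have : AA53 (-β) l w = 0 := by rw [AA53, if_neg (by omega)]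
    rw [this, mul_zero]

theorem gB_rec (β : ℝ) (y x : ℕ) :
    ((x : ℝ) - (y : ℝ)) * gB β y x = β * (gB β (y + 1) x + if y = 0 then 0 else gB β (y - 1) x) +
      (-β) ^ (y + 2) / ((y + 1).factorial : ℝ) * gB β 0 x := by
  have hZ : min x y + 1 ≤ x + y + 1 := by omega
  have hZ1 : min x (y + 1) + 1 ≤ x + y + 1 + 1 := by omega
  have hs := Finset.sum_range_succ' (fun z => AA53 (-β) (y + 1) z * AA53 β x z) (x + y + 1)
  rw [gB_A53 β y x hZ, gB_A53 β (y + 1) x hZ1, hs]
  have h1 : ∀ z ∈ range (x + y + 1), ((x : ℝ) - (y : ℝ)) * (AA53 (-β) y z * AA53 β x z) =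
      β * (AA53 (-β) (y + 1) (z + 1) * AA53 β x (z + 1)) +
      β * (AA53 (-β) y (z + 1) * AA53 β x z) := by
    intro z _
    have e1 := AA53_mul β x z
    have e2 := AA53_mul (-β) y z
    rw [AA53_succ]
    linear_combination AA53 (-β) y z * e1 - AA53 β x z * e2
  rw [Finset.mul_sum, Finset.sum_congr rfl h1, Finset.sum_add_distrib, ← Finset.mul_sum,
    ← Finset.mul_sum]
  have h2 : (if y = 0 then 0 else gB β (y - 1) x) =
      ∑ z ∈ range (x + y + 1), AA53 (-β) y (z + 1) * AA53 β x z := by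
    rcases y with _ | y
    · rw [if_pos rfl]
      symm
      refine Finset.sum_eq_zero fun z _ => ?_
      rw [AA53, if_neg (by omega), zero_mul]
    · rw [if_neg (by omega), Nat.add_sub_cancel, gB_A53 β y x (Z := x + (y + 1) + 1) (by omega)]
      refine Finset.sum_congr rfl fun z _ => ?_
      rw [AA53_succ]
  rw [h2, gB_zero_left]
  have h3 : AA53 (-β) (y + 1) 0 = (-β) ^ (y + 1) / ((y + 1).factorial : ℝ) := by
    rw [AA53, if_pos (Nat.zero_le _), Nat.sub_zero]
  have h4 : AA53 β x 0 = β ^ x / (x.factorial : ℝ) := by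
    rw [AA53, if_pos (Nat.zero_le _), Nat.sub_zero]
  rw [h3, h4]
  ring

theorem gB_shift (β : ℝ) (i k x : ℕ) :
    (if k ≤ x then gB β i (x - k) else 0) = gB β (i + k) x -
      ∑ z ∈ range k, (-β) ^ (i + k - z) / ((i + k - z).factorial : ℝ) *
        (if z ≤ x then β ^ (x - z) / ((x - z).factorial : ℝ) else 0) := by
  have hZ : min x (i + k) + 1 ≤ k + (x + i + 1) := by omega
  rw [gB_A53 β (i + k) x hZ, Finset.sum_range_add]
  have h1 : ∑ z ∈ range k, (-β) ^ (i + k - z) / ((i + k - z).factorial : ℝ) *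
        (if z ≤ x then β ^ (x - z) / ((x - z).factorial : ℝ) else 0) =
      ∑ z ∈ range k, AA53 (-β) (i + k) z * AA53 β x z := by
    refine Finset.sum_congr rfl fun z hz => ?_
    rw [Finset.mem_range] at hz
    unfold AA53
    rw [if_pos (by omega : z ≤ i + k)]
  rw [h1, add_sub_cancel_left]
  by_cases hk : k ≤ x
  · rw [if_pos hk, gB_A53 β i (x - k) (Z := x + i + 1) (by omega)]
    refine Finset.sum_congr rfl fun z _ => ?_
    unfold AA53
    have e1 : (k + z ≤ i + k) ↔ (z ≤ i) := by omega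
    have e2 : i + k - (k + z) = i - z := by omega
    have e3 : (k + z ≤ x) ↔ (z ≤ x - k) := by omega
    have e4 : x - (k + z) = x - k - z := by omega
    simp only [e1, e2, e3, e4]
  · rw [if_neg hk]
    symm
    refine Finset.sum_eq_zero fun z _ => ?_
    have : AA53 β x (k + z) = 0 := by rw [AA53, if_neg (by omega)]
    rw [this, mul_zero]

theorem gB_exp (β : ℝ) (z x : ℕ) :
    (if z ≤ x then β ^ (x - z) / ((x - z).factorial : ℝ) else 0) =
      ∑ l ∈ range (z + 1), β ^ (z - l) / ((z - l).factorial : ℝ) * gB β l x := by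
  have h1 : ∀ l ∈ range (z + 1), β ^ (z - l) / ((z - l).factorial : ℝ) * gB β l x =
      ∑ w ∈ range (x + z + 1), AA53 β z l * AA53 (-β) l w * AA53 β x w := by
    intro l hl
    rw [Finset.mem_range] at hl
    rw [gB_A53 β l x (Z := x + z + 1) (by omega), Finset.mul_sum]
    refine Finset.sum_congr rfl fun w _ => ?_
    have : AA53 β z l = β ^ (z - l) / ((z - l).factorial : ℝ) := by
      rw [AA53, if_pos (by omega)]
    rw [this, mul_assoc]
  rw [Finset.sum_congr rfl h1, Finset.sum_comm]
  have h2 : ∀ w ∈ range (x + z + 1),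
      ∑ l ∈ range (z + 1), AA53 β z l * AA53 (-β) l w * AA53 β x w =
        if w = z then AA53 β x w else 0 := by
    intro w _
    rw [← Finset.sum_mul, AA53_inv]
    split_ifs
    · rw [one_mul]
    · rw [zero_mul]
  have h3 : z ∈ range (x + z + 1) := by rw [Finset.mem_range]; omega
  rw [Finset.sum_congr rfl h2, Finset.sum_ite_eq', if_pos h3]
  rfl

theorem gB_poly {β : ℝ} (hβ : β ≠ 0) (i : ℕ) :
    ∃ p : Polynomial ℝ, p.natDegree = i ∧ p.coeff i = β⁻¹ ^ i ∧
      ∀ x : ℕ, gB β i x = β ^ x / (x.factorial : ℝ) * p.eval (x : ℝ) := by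
  have hc : (∑ z ∈ range (i + 1), Polynomial.C ((-β) ^ (i - z) / ((i - z).factorial : ℝ) * β⁻¹ ^ z) *
      descPochhammer ℝ z).coeff i = β⁻¹ ^ i := by
    rw [Polynomial.finsetSum_coeff, Finset.sum_range_succ, Finset.sum_eq_zero, zero_add,
      Polynomial.coeff_C_mul]
    · have h1 : (descPochhammer ℝ i).coeff i = 1 := by
        have h2 := (monic_descPochhammer ℝ i).coeff_natDegree
        rwa [descPochhammer_natDegree] at h2
      rw [h1, Nat.sub_self]
      simp
    · intro z hz
      rw [Finset.mem_range] at hz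
      rw [Polynomial.coeff_C_mul, Polynomial.coeff_eq_zero_of_natDegree_lt, mul_zero]
      rw [descPochhammer_natDegree]
      exact hz
  refine ⟨∑ z ∈ range (i + 1), Polynomial.C ((-β) ^ (i - z) / ((i - z).factorial : ℝ) * β⁻¹ ^ z) *
      descPochhammer ℝ z, ?_, hc, fun x => ?_⟩
  · refine Polynomial.natDegree_eq_of_le_of_coeff_ne_zero ?_ ?_
    · refine Polynomial.natDegree_sum_le_of_forall_le _ _ (fun z hz => ?_)
      rw [Finset.mem_range] at hz
      refine (Polynomial.natDegree_C_mul_le _ _).trans ?_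
      rw [descPochhammer_natDegree]
      omega
    · rw [hc]
      exact pow_ne_zero _ (inv_ne_zero hβ)
  · rw [Polynomial.eval_finsetSum, Finset.mul_sum, gB_A53 β i x (Z := i + 1) (by omega)]
    refine Finset.sum_congr rfl fun z hz => ?_
    rw [Finset.mem_range] at hz
    rw [Polynomial.eval_mul, Polynomial.eval_C, descPochhammer_eval_eq_descFactorial]
    have h1 : AA53 (-β) i z = (-β) ^ (i - z) / ((i - z).factorial : ℝ) := by
      rw [AA53, if_pos (by omega)]
    rw [h1]
    by_cases hzx : z ≤ x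
    · have h2 : AA53 β x z = β ^ (x - z) / ((x - z).factorial : ℝ) := by
        rw [AA53, if_pos hzx]
      rw [h2]
      have h3 : (x.factorial : ℝ) = ((x - z).factorial : ℝ) * (x.descFactorial z : ℝ) := by
        have := Nat.factorial_mul_descFactorial hzx
        exact_mod_cast this.symm
      have h4 : β ^ x = β ^ (x - z) * β ^ z := by
        rw [← pow_add, Nat.sub_add_cancel hzx]
      have h5 : (((x - z).factorial : ℕ) : ℝ) ≠ 0 := Nat.cast_ne_zero.2 (Nat.factorial_ne_zero _)
      have h6 : (x.descFactorial z : ℝ) ≠ 0 := by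
        intro h0
        rw [h0, mul_zero] at h3
        exact Nat.cast_ne_zero.2 (Nat.factorial_ne_zero x) h3
      have h7 : β ^ z * β⁻¹ ^ z = 1 := by
        rw [← mul_pow, mul_inv_cancel₀ hβ, one_pow]
      rw [h3, h4]
      have h8 : β ^ (x - z) * β ^ z / (((x - z).factorial : ℝ) * (x.descFactorial z : ℝ)) *
          ((-β) ^ (i - z) / ((i - z).factorial : ℝ) * β⁻¹ ^ z * (x.descFactorial z : ℝ)) =
          (-β) ^ (i - z) / ((i - z).factorial : ℝ) * (β ^ (x - z) / ((x - z).factorial : ℝ)) *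
            (β ^ z * β⁻¹ ^ z) * ((x.descFactorial z : ℝ) / (x.descFactorial z : ℝ)) := by
        field_simp
      rw [h8, h7, div_self h6, mul_one, mul_one]
    · have h2 : AA53 β x z = 0 := by rw [AA53, if_neg hzx]
      rw [h2, Nat.descFactorial_of_lt (by omega)]
      simp

end Pool.Agent.Helper97.TF6
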