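import Pool.Agent.Helper97.TF6.BesO
import Pool.Agent.Helper97.TF6.GB

/-!
BLOCK TF6-GB2 (about 250 lines). The matrix `gB β y x` of `exp(-β T*) exp(β T)` on `ℓ²(ℕ)` and the Bessel functions. ONLY MATHLIB (and Bes.lean, BesO.lean).

Proofs.
* Full series (prove it first): `JB β (x - y) = ∑_{l : ℕ} (-β)^(max(y-x,0)+l) β^(max(x-y,0)+l) / (…! …!)`, that is the sum over all integers `z ≤ min(x,y)` of `(-β)^(y-z) β^(x-z) / ((y-z)! (x-z)!)`; the terms `z ≥ 0` are `gB β y x`.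
* `gB_sub_le`: `JB β (x - y) - gB β y x = ∑_{l ≥ 1} (-β)^(y+l) β^(x+l) / ((y+l)! (x+l)!)` (the terms `z = -l`), `(y+l)! ≥ y! l!`, `(x+l)! ≥ x! `, `∑_l (β²)^l/l! ≤ exp(β²)`.
* `gB_summable_sq`: `|gB β y x| ≤ C_y β^x/x! (1 + x)^y` (from the definition), or: from `gB_sub_le` and `JB_sq` (a restriction of the summable family to `x : ℕ`), `(a+b)² ≤ 2a² + 2b²`.
* `gB_sq_le`: `gB = J + (gB - J)`, Minkowski (`(∑ (a+b)²)^(1/2) ≤ …`, e.g. `(a+b)² ≤ 2a²+2b²` is already enough: `2 * 1 + 2 * 1 = 4`), `JB_sq`, `∑_x (β^x/x!)² ≤ exp(β)²`.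
* `gB_inv`: insert `J_{x-i'} = ∑_{w ≥ max(x,i')} (-β)^(w-x) β^(w-i') / ((w-x)! (w-i')!)` (`x ≥ i'`: `w = x + j`; `x < i'`: `w = i' + j`) and `gB β i x = ∑_{z ≤ min(i,x)} …`; `∑_{x=z}^{w} β^(x-z) (-β)^(w-x) / ((x-z)! (w-x)!) = δ_{z,w}`
  (binomial theorem), and then `∑_{i' ≤ w ≤ i} (-β)^(i-w) β^(w-i') / ((i-w)! (w-i')!) = δ_{i,i'}`. The sums over `z ≤ i` are finite, `∑_x ∑_w` is absolutely convergent.
-/

set_option autoImplicit false

open Finset

namespace Pool.Agent.Helper97.TF6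

private noncomputable def ct24 (β : ℝ) (q : ℤ) : ℝ :=
  if 0 ≤ q then β ^ q.toNat / (q.toNat.factorial : ℝ) else 0

private theorem ct_nat24 (β : ℝ) (k : ℕ) : ct24 β (k : ℤ) = β ^ k / (k.factorial : ℝ) := by
  simp [ct24]

private theorem ct_neg24 (β : ℝ) {q : ℤ} (h : q < 0) : ct24 β q = 0 := by
  simp [ct24, not_le.2 h]

private theorem hse24 (x : ℝ) : HasSum (fun j : ℕ => x ^ j / (j.factorial : ℝ)) (Real.exp x) := by
  rw [Real.exp_eq_exp_ℝ]
  exact NormedSpace.expSeries_div_hasSum_exp x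

private theorem pdf24 {β : ℝ} (hβ : 0 ≤ β) (k : ℕ) : β ^ k / (k.factorial : ℝ) ≤ Real.exp β := by
  have h := (hse24 β)
  exact le_hasSum h k (fun j _ => by positivity)

private theorem ct_abs24 {β : ℝ} (hβ : 0 ≤ β) (q : ℤ) : |ct24 β q| ≤ Real.exp β := by
  rcases lt_or_ge q 0 with h | h
  · rw [ct_neg24 β h, abs_zero]
    exact (Real.exp_pos _).le
  · obtain ⟨k, rfl⟩ := Int.eq_ofNat_of_zero_le h
    rw [ct_nat24, abs_of_nonneg (by positivity)]
    exact pdf24 hβ k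

private theorem JB_hs24 (β : ℝ) (k : ℤ) :
    HasSum (fun p : ℕ => (-β) ^ p / (p.factorial : ℝ) * ct24 β (k + p)) (JB β k) := by
  rcases le_or_gt 0 k with hk | hk
  · obtain ⟨m, rfl⟩ := Int.eq_ofNat_of_zero_le hk
    rw [JB_natCast]
    have h : HasSum _ (JN β m) := (JN_summable β m).hasSum
    have he : (fun p : ℕ => (-β) ^ p / (p.factorial : ℝ) * ct24 β ((m : ℤ) + p)) =
        fun j : ℕ => (-1 : ℝ) ^ j * β ^ (2 * j + m) / ((j.factorial : ℝ) * ((j + m).factorial : ℝ)) := by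
      funext p
      have h1 : ((m : ℤ) + (p : ℤ)) = ((p + m : ℕ) : ℤ) := by push_cast; ring
      rw [h1, ct_nat24, neg_pow, div_mul_div_comm]
      congr 1
      rw [two_mul, add_assoc, pow_add β p (p + m)]
      ring
    rw [he]
    exact h
  · obtain ⟨m, hm⟩ := Int.eq_ofNat_of_zero_le (a := -k) (by omega)
    obtain rfl : k = -(m : ℤ) := by omega
    rw [JB_neg_natCast, ← hasSum_nat_add_iff' m]
    have h0 : ∑ i ∈ range m, (-β) ^ i / (i.factorial : ℝ) * ct24 β (-(m : ℤ) + i) = 0 := by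
      refine sum_eq_zero fun i hi => ?_
      rw [ct_neg24 β (by have := mem_range.1 hi; omega), mul_zero]
    rw [h0, sub_zero]
    have h : HasSum _ (JN β m) := (JN_summable β m).hasSum
    have h2 := h.mul_left ((-1 : ℝ) ^ m)
    have he : (fun j : ℕ => (-β) ^ (j + m) / ((j + m).factorial : ℝ) * ct24 β (-(m : ℤ) + ((j + m : ℕ) : ℤ))) =
        fun j : ℕ => (-1 : ℝ) ^ m *
          ((-1 : ℝ) ^ j * β ^ (2 * j + m) / ((j.factorial : ℝ) * ((j + m).factorial : ℝ))) := by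
      funext p
      have h1 : (-(m : ℤ) + ((p + m : ℕ) : ℤ)) = ((p : ℕ) : ℤ) := by push_cast; ring
      rw [h1, ct_nat24, neg_pow, div_mul_div_comm, ← mul_div_assoc, mul_comm ((p + m).factorial : ℝ)]
      congr 1
      rw [two_mul, add_assoc, pow_add β p (p + m), pow_add (-1 : ℝ) p m]
      ring
    rw [he]
    exact h2

private theorem gB_z24 (β : ℝ) (y x : ℕ) :
    gB β y x = ∑ z ∈ range (y + 1), (-β) ^ (y - z) / ((y - z).factorial : ℝ) * ct24 β ((x : ℤ) - z) := by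
  unfold gB
  rw [← sum_subset (s₁ := range (min x y + 1)) (s₂ := range (y + 1))]
  · refine sum_congr rfl fun z hz => ?_
    have hz' := mem_range.1 hz
    have h1 : ((x : ℤ) - (z : ℤ)) = ((x - z : ℕ) : ℤ) := by omega
    rw [h1, ct_nat24, div_mul_div_comm]
  · intro z hz
    rw [mem_range] at hz ⊢
    omega
  · intro z hz hz2
    rw [mem_range] at hz hz2
    rw [ct_neg24 β (by omega), mul_zero]

private theorem gB_p24 (β : ℝ) (y x : ℕ) :
    gB β y x = ∑ p ∈ range (y + 1), (-β) ^ p / (p.factorial : ℝ) * ct24 β ((x : ℤ) - y + p) := by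
  rw [gB_z24, ← sum_range_reflect]
  refine sum_congr rfl fun z hz => ?_
  have hz' := mem_range.1 hz
  have h1 : y - (y + 1 - 1 - z) = z := by omega
  have h2 : ((x : ℤ) - ((y + 1 - 1 - z : ℕ) : ℤ)) = (x : ℤ) - y + z := by omega
  rw [h1, h2]

private theorem sub_hs24 (β : ℝ) (y x : ℕ) :
    HasSum (fun l : ℕ => (-β) ^ (l + (y + 1)) / ((l + (y + 1)).factorial : ℝ) *
      (β ^ (l + (x + 1)) / ((l + (x + 1)).factorial : ℝ))) (JB β ((x : ℤ) - (y : ℤ)) - gB β y x) := by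
  have h := (hasSum_nat_add_iff' (y + 1)).2 (JB_hs24 β ((x : ℤ) - (y : ℤ)))
  rw [← gB_p24] at h
  have he : (fun l : ℕ => (-β) ^ (l + (y + 1)) / ((l + (y + 1)).factorial : ℝ) *
      ct24 β ((x : ℤ) - (y : ℤ) + ((l + (y + 1) : ℕ) : ℤ))) =
      fun l : ℕ => (-β) ^ (l + (y + 1)) / ((l + (y + 1)).factorial : ℝ) *
      (β ^ (l + (x + 1)) / ((l + (x + 1)).factorial : ℝ)) := by
    funext l
    have h1 : (x : ℤ) - (y : ℤ) + ((l + (y + 1) : ℕ) : ℤ) = ((l + (x + 1) : ℕ) : ℤ) := by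
      push_cast
      ring
    rw [h1, ct_nat24]
  rw [he] at h
  exact h

private theorem sqsum24 {β : ℝ} (hβ : 0 ≤ β) : Summable (fun x : ℕ => (β ^ x / (x.factorial : ℝ)) ^ 2) ∧
    ∑' x : ℕ, (β ^ x / (x.factorial : ℝ)) ^ 2 ≤ Real.exp β ^ 2 := by
  have h1 : HasSum (fun x : ℕ => Real.exp β * (β ^ x / (x.factorial : ℝ))) (Real.exp β * Real.exp β) :=
    (hse24 β).mul_left _
  have h2 : ∀ x : ℕ, (β ^ x / (x.factorial : ℝ)) ^ 2 ≤ Real.exp β * (β ^ x / (x.factorial : ℝ)) := by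
    intro x
    rw [sq]
    exact mul_le_mul_of_nonneg_right (pdf24 hβ x) (by positivity)
  have h3 : Summable (fun x : ℕ => (β ^ x / (x.factorial : ℝ)) ^ 2) :=
    Summable.of_nonneg_of_le (fun x => by positivity) h2 h1.summable
  refine ⟨h3, ?_⟩
  rw [sq (Real.exp β)]
  exact hasSum_le h2 h3.hasSum h1

private theorem Jsq24 {β : ℝ} (hβ : 0 ≤ β) (y : ℕ) :
    Summable (fun x : ℕ => JB β ((x : ℤ) - (y : ℤ)) ^ 2) ∧
      ∑' x : ℕ, JB β ((x : ℤ) - (y : ℤ)) ^ 2 ≤ 1 := by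
  have h := JB_sq hβ (y : ℤ)
  have hinj : Function.Injective (fun x : ℕ => (x : ℤ)) := Nat.cast_injective
  refine ⟨h.summable.comp_injective hinj, ?_⟩
  have h2 : ∑' x : ℕ, JB β ((x : ℤ) - (y : ℤ)) ^ 2 ≤ ∑' x : ℤ, JB β (x - (y : ℤ)) ^ 2 :=
    Summable.tsum_le_tsum_of_inj (fun x : ℕ => (x : ℤ)) hinj (fun c _ => sq_nonneg _)
      (fun x => le_rfl) (h.summable.comp_injective hinj) h.summable
  rw [h.tsum_eq] at h2
  exact h2

/-- the binomial theorem -/
private theorem bin24 (β : ℝ) (s : ℕ) :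
    ∑ kl ∈ antidiagonal s, β ^ kl.1 / (kl.1.factorial : ℝ) * ((-β) ^ kl.2 / (kl.2.factorial : ℝ)) =
      if s = 0 then 1 else 0 := by
  have h1 := (Commute.all β (-β)).add_pow' s
  have h2 : ∀ kl ∈ antidiagonal s, β ^ kl.1 / (kl.1.factorial : ℝ) * ((-β) ^ kl.2 / (kl.2.factorial : ℝ)) =
      (s.choose kl.1 • (β ^ kl.1 * (-β) ^ kl.2)) / (s.factorial : ℝ) := by
    intro kl hkl
    have h3 : kl.1 + kl.2 = s := mem_antidiagonal.1 hkl
    subst h3
    have h4 : ((kl.1 + kl.2).choose kl.1 : ℝ) * (kl.1.factorial : ℝ) * (kl.2.factorial : ℝ) =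
        ((kl.1 + kl.2).factorial : ℝ) := by
      have h8 := Nat.add_choose_mul_factorial_mul_factorial kl.1 kl.2
      rw [← Nat.choose_symm_add] at h8
      exact_mod_cast h8
    have h5 : (kl.1.factorial : ℝ) ≠ 0 := by positivity
    have h6 : (kl.2.factorial : ℝ) ≠ 0 := by positivity
    have h7 : ((kl.1 + kl.2).factorial : ℝ) ≠ 0 := by positivity
    rw [nsmul_eq_mul, div_mul_div_comm, div_eq_div_iff (mul_ne_zero h5 h6) h7, ← h4]
    ring
  rw [sum_congr rfl h2, ← sum_div, ← h1, add_neg_cancel]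
  rcases Nat.eq_zero_or_pos s with hs | hs
  · subst hs
    simp
  · rw [zero_pow hs.ne', zero_div, if_neg hs.ne']

private theorem key24 {β : ℝ} (hβ : 0 ≤ β) (m : ℤ) :
    HasSum (fun t : ℕ => β ^ t / (t.factorial : ℝ) * JB β (m + t)) (ct24 β m) := by
  let F : ℕ × ℕ → ℝ := fun a =>
    β ^ a.1 / (a.1.factorial : ℝ) * ((-β) ^ a.2 / (a.2.factorial : ℝ) * ct24 β (m + a.1 + a.2))
  have hs : Summable (fun a : ℕ × ℕ => β ^ a.1 / (a.1.factorial : ℝ) * (β ^ a.2 / (a.2.factorial : ℝ))) :=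
    (hse24 β).summable.mul_of_nonneg (hse24 β).summable (fun _ => by positivity) (fun _ => by positivity)
  have hF : Summable F := by
    refine Summable.of_norm_bounded (hs.mul_right (Real.exp β)) fun a => ?_
    rw [Real.norm_eq_abs, abs_mul, abs_mul, abs_div, abs_div, abs_pow, abs_pow, abs_neg,
      abs_of_nonneg hβ, Nat.abs_cast, Nat.abs_cast, ← mul_assoc]
    exact mul_le_mul_of_nonneg_left (ct_abs24 hβ _) (by positivity)
  have h1 : ∀ t : ℕ, HasSum (fun p : ℕ => F (t, p)) (β ^ t / (t.factorial : ℝ) * JB β (m + t)) :=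
    fun t => (JB_hs24 β (m + t)).mul_left _
  have h2 := hF.hasSum.prod_fiberwise h1
  have h3 : HasSum (fun s : ℕ => (if s = 0 then 1 else 0) * ct24 β (m + s)) (∑' a, F a) := by
    have h4 := (HasAntidiagonal.sigmaAntidiagonalEquivProd (A := ℕ)).hasSum_iff.2 hF.hasSum
    refine HasSum.sigma h4 fun s => ?_
    have h5 : (if s = 0 then 1 else 0) * ct24 β (m + s) =
        ∑ kl : antidiagonal s, F (HasAntidiagonal.sigmaAntidiagonalEquivProd (A := ℕ) ⟨s, kl⟩) := by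
      rw [← bin24 β s, sum_mul, ← sum_coe_sort]
      refine sum_congr rfl fun kl _ => ?_
      have h6 : (kl : ℕ × ℕ).1 + (kl : ℕ × ℕ).2 = s := mem_antidiagonal.1 kl.2
      have h7 : m + (kl : ℕ × ℕ).1 + (kl : ℕ × ℕ).2 = m + (s : ℤ) := by
        have h8 : (((kl : ℕ × ℕ).1 + (kl : ℕ × ℕ).2 : ℕ) : ℤ) = (s : ℤ) := by rw [h6]
        push_cast at h8
        rw [← h8]
        ring
      simp only [F, HasAntidiagonal.sigmaAntidiagonalEquivProd_apply, h7]
      ring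
    rw [h5]
    exact hasSum_fintype _
  have h4 : HasSum (fun s : ℕ => (if s = 0 then 1 else 0) * ct24 β (m + s)) (ct24 β m) := by
    have h5 := hasSum_single (f := fun s : ℕ => (if s = 0 then 1 else 0) * ct24 β (m + s)) 0
      (fun s hs => by simp [hs])
    simpa using h5
  rw [h3.unique h4] at h2
  exact h2

/-- the same with a shift -/
private theorem keyz24 {β : ℝ} (hβ : 0 ≤ β) (z i' : ℕ) :
    HasSum (fun x : ℕ => ct24 β ((x : ℤ) - z) * JB β ((x : ℤ) - (i' : ℤ))) (ct24 β ((z : ℤ) - i')) := by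
  rw [← hasSum_nat_add_iff' z]
  have h0 : ∑ x ∈ range z, ct24 β ((x : ℤ) - z) * JB β ((x : ℤ) - (i' : ℤ)) = 0 := by
    refine sum_eq_zero fun i hi => ?_
    rw [ct_neg24 β (by have := mem_range.1 hi; omega), zero_mul]
  rw [h0, sub_zero]
  have h := key24 hβ ((z : ℤ) - i')
  have he : (fun x : ℕ => ct24 β (((x + z : ℕ) : ℤ) - z) * JB β (((x + z : ℕ) : ℤ) - (i' : ℤ))) =
      fun t : ℕ => β ^ t / (t.factorial : ℝ) * JB β ((z : ℤ) - i' + t) := by
    funext x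
    have h1 : (((x + z : ℕ) : ℤ) - z) = ((x : ℕ) : ℤ) := by push_cast; ring
    have h2 : (((x + z : ℕ) : ℤ) - (i' : ℤ)) = (z : ℤ) - i' + x := by push_cast; ring
    rw [h1, h2, ct_nat24]
  rw [he]
  exact h

theorem gB_sub_le {β : ℝ} (hβ : 0 ≤ β) (y x : ℕ) :
    |gB β y x - JB β ((x : ℤ) - (y : ℤ))| ≤
      β ^ y / (y.factorial : ℝ) * (β ^ x / (x.factorial : ℝ)) * Real.exp (β ^ 2) := by
  rw [abs_sub_comm, ← (sub_hs24 β y x).tsum_eq, ← Real.norm_eq_abs]
  have hg : HasSum (fun l : ℕ => β ^ y / (y.factorial : ℝ) * (β ^ x / (x.factorial : ℝ)) *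
      ((β ^ 2) ^ (l + 1) / ((l + 1).factorial : ℝ)))
      (β ^ y / (y.factorial : ℝ) * (β ^ x / (x.factorial : ℝ)) * (Real.exp (β ^ 2) - 1)) := by
    refine HasSum.mul_left _ ?_
    have h1 := (hasSum_nat_add_iff' 1).2 (hse24 (β ^ 2))
    simpa using h1
  refine (tsum_of_norm_bounded hg fun l => ?_).trans ?_
  · rw [norm_mul, norm_div, norm_div, norm_pow, norm_pow, norm_neg, Real.norm_of_nonneg hβ,
      RCLike.norm_natCast, RCLike.norm_natCast, div_mul_div_comm, div_mul_div_comm, div_mul_div_comm,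
      ← pow_mul]
    have e1 : β ^ (l + (y + 1)) * β ^ (l + (x + 1)) = β ^ y * β ^ x * β ^ (2 * (l + 1)) := by
      rw [← pow_add, ← pow_add, ← pow_add]
      congr 1
      ring
    rw [e1]
    refine div_le_div_of_nonneg_left (by positivity) (by positivity) ?_
    have e2 : y.factorial * (l + 1).factorial ≤ (l + (y + 1)).factorial := by
      have h1 := Nat.le_of_dvd (Nat.factorial_pos _) (Nat.factorial_mul_factorial_dvd_factorial_add y (l + 1))
      have h2 : y + (l + 1) = l + (y + 1) := by ring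
      rwa [h2] at h1
    have e3 : x.factorial ≤ (l + (x + 1)).factorial := Nat.factorial_le (by omega)
    have e4 : y.factorial * x.factorial * (l + 1).factorial ≤
        (l + (y + 1)).factorial * (l + (x + 1)).factorial := by
      calc y.factorial * x.factorial * (l + 1).factorial = (y.factorial * (l + 1).factorial) * x.factorial := by ring
        _ ≤ _ := Nat.mul_le_mul e2 e3
    exact_mod_cast e4
  · refine mul_le_mul_of_nonneg_left ?_ (by positivity)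
    linarith

private theorem gsq24 {β : ℝ} (hβ : 0 ≤ β) (y x : ℕ) : gB β y x ^ 2 ≤
    2 * JB β ((x : ℤ) - (y : ℤ)) ^ 2 +
      2 * ((β ^ y / (y.factorial : ℝ) * Real.exp (β ^ 2)) ^ 2 * (β ^ x / (x.factorial : ℝ)) ^ 2) := by
  have h := gB_sub_le hβ y x
  set A : ℝ := β ^ y / (y.factorial : ℝ) * Real.exp (β ^ 2) with hA
  set d : ℝ := gB β y x - JB β ((x : ℤ) - (y : ℤ)) with hd
  have h1 : |d| ≤ A * (β ^ x / (x.factorial : ℝ)) := by
    refine h.trans (le_of_eq ?_)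
    rw [hA]
    ring
  have h2 : d ^ 2 ≤ (A * (β ^ x / (x.factorial : ℝ))) ^ 2 := by
    rw [← sq_abs d]
    exact pow_le_pow_left₀ (abs_nonneg _) h1 2
  have h3 : gB β y x = JB β ((x : ℤ) - (y : ℤ)) + d := by rw [hd]; ring
  rw [h3]
  rw [mul_pow] at h2
  nlinarith [sq_nonneg (JB β ((x : ℤ) - (y : ℤ)) - d)]

theorem gB_summable_sq {β : ℝ} (hβ : 0 ≤ β) (y : ℕ) : Summable fun x : ℕ => gB β y x ^ 2 := by
  have h1 := (Jsq24 hβ y).1
  have h2 := (sqsum24 hβ).1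
  set A : ℝ := β ^ y / (y.factorial : ℝ) * Real.exp (β ^ 2) with hA
  have h3 : Summable (fun x : ℕ => 2 * JB β ((x : ℤ) - (y : ℤ)) ^ 2 +
      2 * (A ^ 2 * (β ^ x / (x.factorial : ℝ)) ^ 2)) := (h1.mul_left 2).add ((h2.mul_left (A ^ 2)).mul_left 2)
  exact Summable.of_nonneg_of_le (fun x => sq_nonneg _) (fun x => gsq24 hβ y x) h3

theorem gB_sq_le {β : ℝ} (hβ : 0 ≤ β) (y : ℕ) (hy : β ^ y / (y.factorial : ℝ) * Real.exp (β ^ 2 + β) ≤ 1) :
    ∑' x : ℕ, gB β y x ^ 2 ≤ 4 := by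
  have h1 := Jsq24 hβ y
  have h2 := sqsum24 hβ
  set A : ℝ := β ^ y / (y.factorial : ℝ) * Real.exp (β ^ 2) with hA
  have hA0 : 0 ≤ A := by positivity
  have h3 : HasSum (fun x : ℕ => 2 * JB β ((x : ℤ) - (y : ℤ)) ^ 2 +
      2 * (A ^ 2 * (β ^ x / (x.factorial : ℝ)) ^ 2))
      (2 * (∑' x : ℕ, JB β ((x : ℤ) - (y : ℤ)) ^ 2) +
        2 * (A ^ 2 * ∑' x : ℕ, (β ^ x / (x.factorial : ℝ)) ^ 2)) :=
    (h1.1.hasSum.mul_left 2).add ((h2.1.hasSum.mul_left (A ^ 2)).mul_left 2)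
  have h4 := hasSum_le (fun x => gsq24 hβ y x) (gB_summable_sq hβ y).hasSum h3
  have h5 : A ^ 2 * (∑' x : ℕ, (β ^ x / (x.factorial : ℝ)) ^ 2) ≤ 1 := by
    have h6 : A ^ 2 * (∑' x : ℕ, (β ^ x / (x.factorial : ℝ)) ^ 2) ≤ A ^ 2 * Real.exp β ^ 2 :=
      mul_le_mul_of_nonneg_left h2.2 (sq_nonneg _)
    have h7 : A * Real.exp β ≤ 1 := by
      rw [hA, mul_assoc, ← Real.exp_add]
      exact hy
    have h8 : 0 ≤ A * Real.exp β := by positivity
    rw [← mul_pow] at h6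
    nlinarith
  linarith [h1.2]

theorem gB_inv {β : ℝ} (hβ : 0 ≤ β) (i i' : ℕ) :
    HasSum (fun x : ℕ => gB β i x * JB β ((x : ℤ) - (i' : ℤ))) (if i = i' then 1 else 0) := by
  have h1 : ∀ z ∈ range (i + 1), HasSum (fun x : ℕ => (-β) ^ (i - z) / ((i - z).factorial : ℝ) *
      (ct24 β ((x : ℤ) - z) * JB β ((x : ℤ) - (i' : ℤ))))
      ((-β) ^ (i - z) / ((i - z).factorial : ℝ) * ct24 β ((z : ℤ) - i')) :=
    fun z _ => (keyz24 hβ z i').mul_left _
  have h2 := hasSum_sum h1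
  have h3 : (fun x : ℕ => ∑ z ∈ range (i + 1), (-β) ^ (i - z) / ((i - z).factorial : ℝ) *
      (ct24 β ((x : ℤ) - z) * JB β ((x : ℤ) - (i' : ℤ)))) =
      fun x : ℕ => gB β i x * JB β ((x : ℤ) - (i' : ℤ)) := by
    funext x
    rw [gB_z24, sum_mul]
    refine sum_congr rfl fun z _ => ?_
    ring
  rw [h3] at h2
  have h4 : ∑ z ∈ range (i + 1), (-β) ^ (i - z) / ((i - z).factorial : ℝ) * ct24 β ((z : ℤ) - i') =
      if i = i' then 1 else 0 := by
    rcases lt_or_ge i i' with hlt | hge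
    · rw [if_neg hlt.ne]
      refine sum_eq_zero fun z hz => ?_
      have := mem_range.1 hz
      rw [ct_neg24 β (by omega), mul_zero]
    · obtain ⟨s, rfl⟩ := Nat.exists_eq_add_of_le hge
      have h5 : ∑ z ∈ range (i' + s + 1), (-β) ^ (i' + s - z) / ((i' + s - z).factorial : ℝ) *
          ct24 β ((z : ℤ) - i') = ∑ kl ∈ antidiagonal s,
            β ^ kl.1 / (kl.1.factorial : ℝ) * ((-β) ^ kl.2 / (kl.2.factorial : ℝ)) := by
        rw [add_assoc, sum_range_add]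
        have h6 : ∑ z ∈ range i', (-β) ^ (i' + s - z) / ((i' + s - z).factorial : ℝ) *
            ct24 β ((z : ℤ) - i') = 0 := by
          refine sum_eq_zero fun z hz => ?_
          have := mem_range.1 hz
          rw [ct_neg24 β (by omega), mul_zero]
        rw [h6, zero_add, Nat.sum_antidiagonal_eq_sum_range_succ_mk]
        refine sum_congr rfl fun z hz => ?_
        have h7 : i' + s - (i' + z) = s - z := by omega
        have h8 : (((i' + z : ℕ) : ℤ) - i') = ((z : ℕ) : ℤ) := by push_cast; ring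
        rw [h7, h8, ct_nat24, mul_comm]
      rw [h5, bin24]
      rcases Nat.eq_zero_or_pos s with hs | hs
      · subst hs
        simp
      · rw [if_neg hs.ne', if_neg (by omega)]
  rw [h4] at h2
  exact h2

end Pool.Agent.Helper97.TF6
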