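import Pool.Agent.Helper97.TF6.Lag
import Pool.Agent.Helper97.TF6.GB2

/-!
BLOCK TF6-LAG2 (about 200 lines). The inverse of the matrix `Bm β x` and a bound for it. ONLY MATHLIB (and the files above).

`x : Fin N → ℕ` is injective, `X = univ.image x`.

Proofs.
* `inv_col`: the matrix `C j i = ∑'_y rt β X (x j) y * JB β (y - i)` satisfies `Bm * C = 1`: `∑_j gB β i' (x j) ∑'_y rt … = ∑'_y (∑_j rt β X (x j) y gB β i' (x j)) JB β (y - i) = ∑'_y gB β i' y JB β (y - i) = δ` (`lag`, `gB_inv`; the sums over `y` converge absolutely: `rt_summable'` and `|JB| ≤ 1` by `JB_sq`).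
  So `C = (Bm)⁻¹` (`Matrix.inv_eq_right_inv`).
* `inv_norm`: the terms `y ∈ X` of `C j i` are `JB β (x j - i)` (`rt_range`); so `C j i = JB β (x j - i) + ∑'_{y ∉ X} rt JB`. Minkowski in `j`: `∑_j JB(x j - i)² ≤ 1` (`JB_sq`, the `x j` are different), and `(∑'_{y ∉ X} rt JB)² ≤ (∑'_{y ∉ X} rt²) * 1` (Cauchy-Schwarz for series, `JB_sq`), the sum over `j` of `∑'_{y ∉ X} rt²` is `RR`.
* `Rm_le`: `Rm β x y i = ∑_j gB β y (x j) * (Bm)⁻¹ j i`, Cauchy-Schwarz, `gB_sq_le` (the `x j` are different), `inv_norm`.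
-/

set_option autoImplicit false

open Finset

namespace Pool.Agent.Helper97.TF6

variable {N : ℕ}

/-! private lemmas -/

private theorem JB_le_h54 {β : ℝ} (hβ : 0 < β) (k : ℤ) : |JB β k| ≤ 1 := by
  have h1 := JB_sq hβ.le 0
  have h2 := sum_le_hasSum {k} (fun x _ => sq_nonneg _) h1
  rw [sum_singleton, sub_zero] at h2
  exact abs_le_one_iff_mul_self_le_one.2 (by nlinarith)

private theorem JB_sum_h54 {β : ℝ} (hβ : 0 < β) (i : ℤ) {ι : Type*} (s : Finset ι) {x : ι → ℤ}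
    (hx : Function.Injective x) : ∑ j ∈ s, JB β (x j - i) ^ 2 ≤ 1 := by
  classical
  have h1 := sum_le_hasSum (s.image x) (fun x _ => sq_nonneg _) (JB_sq hβ.le i)
  rwa [sum_image fun a _ b _ h => hx h] at h1

private theorem rtJ_summable_h54 {β : ℝ} (hβ : 0 < β) (X : Finset ℕ) (z : ℕ) (i : ℤ) :
    Summable fun y : ℕ => rt β X z y * JB β ((y : ℤ) - i) := by
  refine Summable.of_norm_bounded (rt_summable' hβ X z) fun y => ?_
  rw [Real.norm_eq_abs, abs_mul]
  exact mul_le_of_le_one_right (abs_nonneg _) (JB_le_h54 hβ _)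

private theorem cs_h54 {f g : ℕ → ℝ} (hf : Summable fun y => f y ^ 2) {G : ℝ} (hG : ∀ s : Finset ℕ, ∑ y ∈ s, g y ^ 2 ≤ G)
    (hfg : Summable fun y => f y * g y) : (∑' y, f y * g y) ^ 2 ≤ (∑' y, f y ^ 2) * G := by
  refine le_of_tendsto' (hfg.hasSum.pow 2) fun s => ?_
  calc (∑ y ∈ s, f y * g y) ^ 2 ≤ (∑ y ∈ s, f y ^ 2) * ∑ y ∈ s, g y ^ 2 := sum_mul_sq_le_sq_mul_sq s f g
    _ ≤ (∑' y, f y ^ 2) * G := by
        refine mul_le_mul (hf.sum_le_tsum s fun y _ => sq_nonneg _) (hG s) (sum_nonneg fun y _ => sq_nonneg _) ?_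
        exact tsum_nonneg fun y => sq_nonneg _

theorem inv_col {β : ℝ} (hβ : 0 < β) {x : Fin N → ℕ} (hx : Function.Injective x) (j i : Fin N) :
    (Bm β x)⁻¹ j i = ∑' y : ℕ, rt β (univ.image x) (x j) y * JB β ((y : ℤ) - ((i : ℕ) : ℤ)) := by
  set C : Matrix (Fin N) (Fin N) ℝ := Matrix.of fun j i =>
    ∑' y : ℕ, rt β (univ.image x) (x j) y * JB β ((y : ℤ) - ((i : ℕ) : ℤ)) with hC
  have h1 : Bm β x * C = 1 := by
    ext i' i
    rw [Matrix.mul_apply]
    have h2 : HasSum (fun y : ℕ => ∑ j, gB β i' (x j) * (rt β (univ.image x) (x j) y * JB β ((y : ℤ) - ((i : ℕ) : ℤ))))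
        (∑ j, gB β i' (x j) * C j i) :=
      hasSum_sum fun j _ => ((rtJ_summable_h54 hβ _ (x j) _).hasSum).mul_left _
    have h3 : (fun y : ℕ => ∑ j, gB β i' (x j) * (rt β (univ.image x) (x j) y * JB β ((y : ℤ) - ((i : ℕ) : ℤ)))) =
        fun y : ℕ => gB β i' y * JB β ((y : ℤ) - ((i : ℕ) : ℤ)) := by
      funext y
      rw [lag hβ hx i' i'.2 y, sum_mul]
      exact sum_congr rfl fun j _ => by ring
    rw [h3] at h2
    have h4 := h2.unique (gB_inv hβ.le (i' : ℕ) (i : ℕ))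
    change ∑ j, gB β i' (x j) * C j i = _
    rw [h4, Matrix.one_apply]
    simp only [Fin.ext_iff]
  rw [Matrix.inv_eq_right_inv h1]
  rfl

private theorem split_h54 {β : ℝ} (hβ : 0 < β) {x : Fin N → ℕ} (hx : Function.Injective x) (j i : Fin N) :
    (Bm β x)⁻¹ j i = JB β ((x j : ℤ) - ((i : ℕ) : ℤ)) +
      ∑' y : ℕ, (if y ∈ univ.image x then 0 else rt β (univ.image x) (x j) y) * JB β ((y : ℤ) - ((i : ℕ) : ℤ)) := by
  rw [inv_col hβ hx]
  set X := univ.image x with hX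
  have hs := rtJ_summable_h54 hβ X (x j) ((i : ℕ) : ℤ)
  set f : ℕ → ℝ := fun y => rt β X (x j) y * JB β ((y : ℤ) - ((i : ℕ) : ℤ)) with hf
  have h1 : HasSum (fun y => if y ∈ X then f y else 0) (JB β ((x j : ℤ) - ((i : ℕ) : ℤ))) := by
    have h2 : HasSum (fun y => if y ∈ X then f y else 0) (∑ y ∈ X, if y ∈ X then f y else 0) :=
      hasSum_sum_of_ne_finset_zero fun y hy => if_neg hy
    have h3 : (∑ y ∈ X, if y ∈ X then f y else 0) = JB β ((x j : ℤ) - ((i : ℕ) : ℤ)) := by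
      rw [sum_congr rfl fun y hy => if_pos hy, hX, sum_image fun a _ b _ h => hx h, sum_eq_single j]
      · simp only [hf, hX]
        rw [rt_range hβ hx, if_pos rfl, one_mul]
      · intro k _ hk
        simp only [hf, hX]
        rw [rt_range hβ hx, if_neg hk, zero_mul]
      · intro h
        exact absurd (mem_univ j) h
    rwa [h3] at h2
  have h4 : (fun y : ℕ => (if y ∈ X then 0 else rt β X (x j) y) * JB β ((y : ℤ) - ((i : ℕ) : ℤ))) =
      fun y => f y - if y ∈ X then f y else 0 := by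
    funext y
    simp only [hf]
    split_ifs with h
    · ring
    · ring
  rw [h4, (hs.hasSum.sub h1).tsum_eq]
  ring

theorem inv_norm {β : ℝ} (hβ : 0 < β) {x : Fin N → ℕ} (hx : Function.Injective x) (i : Fin N) :
    ∑ j, ((Bm β x)⁻¹ j i) ^ 2 ≤ (1 + Real.sqrt (RR β (univ.image x))) ^ 2 := by
  set X := univ.image x with hX
  set a : Fin N → ℝ := fun j => JB β ((x j : ℤ) - ((i : ℕ) : ℤ)) with ha
  set b : Fin N → ℝ := fun j =>
    ∑' y : ℕ, (if y ∈ X then 0 else rt β X (x j) y) * JB β ((y : ℤ) - ((i : ℕ) : ℤ)) with hb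
  have hA : ∑ j, a j ^ 2 ≤ 1 := by
    have := JB_sum_h54 hβ ((i : ℕ) : ℤ) univ (x := fun j => (x j : ℤ)) fun j k h => hx (Int.ofNat_inj.1 h)
    exact this
  have hB : ∑ j, b j ^ 2 ≤ RR β X := by
    unfold RR
    rw [hX, sum_image fun a _ b _ h => hx h, ← hX]
    refine sum_le_sum fun j _ => ?_
    have hsq : (fun y : ℕ => if y ∈ X then 0 else rt β X (x j) y ^ 2) =
        fun y : ℕ => (if y ∈ X then 0 else rt β X (x j) y) ^ 2 := by
      funext y
      split_ifs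
      · ring
      · rfl
    have hs1 : Summable fun y : ℕ => (if y ∈ X then 0 else rt β X (x j) y) ^ 2 := by
      refine Summable.of_nonneg_of_le (fun y => sq_nonneg _) (fun y => ?_) (rt_summable hβ X (x j) 0)
      rw [zero_mul, Real.exp_zero, mul_one]
      split_ifs
      · rw [zero_pow two_ne_zero]
        exact sq_nonneg _
      · exact le_rfl
    have hs2 : Summable fun y : ℕ => (if y ∈ X then 0 else rt β X (x j) y) * JB β ((y : ℤ) - ((i : ℕ) : ℤ)) := by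
      refine Summable.of_norm_bounded (rt_summable' hβ X (x j)) fun y => ?_
      rw [Real.norm_eq_abs, abs_mul]
      refine (mul_le_of_le_one_right (abs_nonneg _) (JB_le_h54 hβ _)).trans ?_
      split_ifs
      · rw [abs_zero]
        exact abs_nonneg _
      · exact le_rfl
    have h1 := cs_h54 hs1 (G := 1) (fun s => JB_sum_h54 hβ ((i : ℕ) : ℤ) s (x := fun y : ℕ => (y : ℤ))
      fun j k h => Int.ofNat_inj.1 h) hs2
    rw [mul_one] at h1
    rw [hsq]
    exact h1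
  have hR : 0 ≤ RR β X := (sum_nonneg fun j _ => sq_nonneg _).trans hB
  have hAB : ∑ j, a j * b j ≤ Real.sqrt (RR β X) := by
    refine Real.le_sqrt_of_sq_le ?_
    calc (∑ j, a j * b j) ^ 2 ≤ (∑ j, a j ^ 2) * ∑ j, b j ^ 2 := sum_mul_sq_le_sq_mul_sq _ _ _
      _ ≤ 1 * RR β X := mul_le_mul hA hB (sum_nonneg fun j _ => sq_nonneg _) zero_le_one
      _ = RR β X := one_mul _
  have h5 : ∑ j, ((Bm β x)⁻¹ j i) ^ 2 = ∑ j, a j ^ 2 + 2 * ∑ j, a j * b j + ∑ j, b j ^ 2 := by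
    rw [mul_sum, ← sum_add_distrib, ← sum_add_distrib]
    refine sum_congr rfl fun j _ => ?_
    rw [split_h54 hβ hx]
    simp only [ha, hb]
    ring
  rw [h5]
  have h6 := Real.sq_sqrt hR
  nlinarith

theorem Rm_le {β : ℝ} (hβ : 0 < β) {x : Fin N → ℕ} (hx : Function.Injective x) (y : ℕ)
    (hy : β ^ y / (y.factorial : ℝ) * Real.exp (β ^ 2 + β) ≤ 1) (i : Fin N) :
    |Rm β x y i| ≤ 2 * (1 + Real.sqrt (RR β (univ.image x))) := by
  refine abs_le_of_sq_le_sq ?_ (by positivity)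
  have h1 : Rm β x y i = ∑ j, gB β y (x j) * (Bm β x)⁻¹ j i := rfl
  have h2 : ∑ j, gB β y (x j) ^ 2 ≤ 4 := by
    have h3 := (gB_summable_sq hβ.le y).sum_le_tsum (univ.image x) fun z _ => sq_nonneg _
    rw [sum_image fun a _ b _ h => hx h] at h3
    exact h3.trans (gB_sq_le hβ.le y hy)
  calc Rm β x y i ^ 2 ≤ (∑ j, gB β y (x j) ^ 2) * ∑ j, ((Bm β x)⁻¹ j i) ^ 2 := by
        rw [h1]
        exact sum_mul_sq_le_sq_mul_sq _ _ _
    _ ≤ 4 * (1 + Real.sqrt (RR β (univ.image x))) ^ 2 :=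
        mul_le_mul h2 (inv_norm hβ hx i) (sum_nonneg fun j _ => sq_nonneg _) (by norm_num)
    _ = (2 * (1 + Real.sqrt (RR β (univ.image x)))) ^ 2 := by ring

theorem KK_le {β : ℝ} (hβ : 0 < β) {x : Fin N → ℕ} (hx : Function.Injective x) (a b : ℕ)
    (hy : β ^ (N + a) / ((N + a).factorial : ℝ) * Real.exp (β ^ 2 + β) ≤ 1) :
    |KK β x a b| ≤ 2 * (1 + Real.sqrt (RR β (univ.image x))) := by
  unfold KK
  split_ifs with h
  · rw [abs_mul, abs_pow, abs_neg, abs_one, one_pow, one_mul]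
    exact Rm_le hβ hx _ hy _
  · rw [abs_zero]
    positivity

end Pool.Agent.Helper97.TF6
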