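import Pool.Agent.Helper97.TF6.Wave

/-!
BLOCK TF6-WAVE2 (about 200 lines). The trace identities. ONLY MATHLIB (and GB.lean, Lag.lean, Wave.lean).

`x : Fin N → ℕ` is injective, `r_y = (gB β y (x j))_j ∈ ℝ^N`, `R(y, i) = Rm β x y i`, `D = diag(x j)`.

Proofs.
* `KK_zero`: the trace of `Bm D Bm⁻¹` is `∑ x j`; its row `i` consists of the coefficients of `r_i D` in the rows `r_l`, `l < N`; by `gB_rec` `r_i D = i r_i + β (r_{i+1} + r_{i-1}) + e_i r_0`, `e_i = (-β)^(i+2)/(i+1)!`; the diagonal entries are `i`, plus `β R(N,N-1)` for `i = N-1`, plus `e_0 = β²` for `i = 0`.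
* `trace_pk`: let `C i j = gB β i (x j - k)` if `k ≤ x j`, `0` otherwise. `tr (C Bm⁻¹) = ∑_j det(Bm with column j replaced by column j of C)/det Bm = ∑_{j, k ≤ x j} rt β X (x j) (x j - k) = pk β X k` (`det_move`; `rt β X (x j) (x j - k) = β^(-k) (x j)!/(x j - k)! ∏ …`, `Nat.descFactorial`, it is `0` for `x j < k`).
  On the other hand by `gB_shift`, `gB_exp` the row `i` of `C` is `r_{i+k} - ∑_{z<k} (-β)^(i+k-z)/(i+k-z)! ∑_{l ≤ z} β^(z-l)/(z-l)! r_l` (`l ≤ z < k ≤ N`), so `tr (C Bm⁻¹) = ∑_i R(i+k,i) - ∑_{i<k} ∑_{z=i}^{k-1} (-β)^(i+k-z)/(i+k-z)! β^(z-i)/(z-i)!`. The last double sum is, with `t = z - i`,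
  `β^k ∑_{t<k} (k-t) (-1)^(k-t)/((k-t)! t!) = - β^k/(k-1)! ∑_{t<k} (-1)^(k-1-t) C(k-1,t) = 0` for `k ≥ 2`. And `R(i+k,i) = δ = 0` for `i + k < N` (`Rm_lt`), `R(i+k,i) = (-1)^b KK (k-1-b) b` for `i = N-1-b`, `b < k`.
-/

set_option autoImplicit false

open Finset

namespace Pool.Agent.Helper97.TF6

variable {N : ℕ}

private theorem sum_fin_le_W2 (z : ℕ) (hz : z < N) (f : ℕ → ℝ) :
    ∑ l : Fin N, (if (l : ℕ) ≤ z then f l else 0) = ∑ l ∈ range (z + 1), f l := by
  rw [Fin.sum_univ_eq_sum_range (fun l => if l ≤ z then f l else 0) N, ← Finset.sum_filter]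
  congr 1
  ext l
  simp only [mem_filter, mem_range]
  omega

private theorem trace_of_mul_W2 {B A C : Matrix (Fin N) (Fin N) ℝ} (hB : B.det ≠ 0)
    (h : C = A * B) : (C * B⁻¹).trace = A.trace := by
  rw [h, Matrix.mul_assoc, Matrix.mul_nonsing_inv _ (isUnit_iff_ne_zero.2 hB), Matrix.mul_one]

private theorem sum_Rm_W2 {β : ℝ} (hβ : 0 < β) {x : Fin N → ℕ} (hx : Function.Injective x)
    (k : ℕ) (hk : 1 ≤ k) (hkN : k ≤ N) :
    ∑ i : Fin N, Rm β x ((i : ℕ) + k) i = ∑ b ∈ range k, (-1) ^ b * KK β x (k - 1 - b) b := by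
  set G : ℕ → ℝ := fun i => if h : i < N then Rm β x (i + k) ⟨i, h⟩ else 0 with hG
  have h1 : ∑ i : Fin N, Rm β x ((i : ℕ) + k) i = ∑ i ∈ range N, G i := by
    rw [← Fin.sum_univ_eq_sum_range G N]
    refine Finset.sum_congr rfl fun i _ => ?_
    simp only [hG]
    rw [dif_pos i.2]
  rw [h1, ← Finset.sum_range_reflect]
  have h2 : ∑ b ∈ range N, G (N - 1 - b) = ∑ b ∈ range k, G (N - 1 - b) := by
    symm
    refine Finset.sum_subset (Finset.range_subset_range.2 hkN) fun b hb hb2 => ?_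
    rw [mem_range] at hb hb2
    have hb3 : N - 1 - b < N := by omega
    have hb4 : N - 1 - b + k < N := by omega
    simp only [hG]
    rw [dif_pos hb3]
    have h3 := Rm_lt hβ hx ⟨N - 1 - b + k, hb4⟩ ⟨N - 1 - b, hb3⟩
    simp only [Fin.mk.injEq] at h3
    rw [h3, if_neg (by omega)]
  rw [h2]
  refine Finset.sum_congr rfl fun b hb => ?_
  rw [mem_range] at hb
  have hb1 : b < N := by omega
  have hb3 : N - 1 - b < N := by omega
  unfold KK
  rw [dif_pos hb1]
  simp only [hG]
  rw [dif_pos hb3, ← mul_assoc, ← mul_pow]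
  have h4 : N - 1 - b + k = N + (k - 1 - b) := by omega
  rw [h4]
  norm_num

private theorem sum_sum_W2 (g : ℕ → ℝ) (K : ℕ) :
    ∑ z ∈ range K, ∑ t ∈ range (z + 1), g t = ∑ t ∈ range K, ((K : ℝ) - t) * g t := by
  induction K with
  | zero => simp
  | succ K ih =>
    rw [Finset.sum_range_succ, ih, Finset.sum_range_succ _ K, Finset.sum_range_succ _ K,
      ← add_assoc, ← Finset.sum_add_distrib]
    congr 1
    · refine Finset.sum_congr rfl fun t _ => ?_
      push_cast
      ring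
    · push_cast
      ring

private theorem alt_W2 (k : ℕ) (hk : 2 ≤ k) (β : ℝ) :
    ∑ t ∈ range k, ((k : ℝ) - t) *
      ((-β) ^ (k - t) / ((k - t).factorial : ℝ) * (β ^ t / (t.factorial : ℝ))) = 0 := by
  have h1 : ∀ t ∈ range k, ((k : ℝ) - t) *
      ((-β) ^ (k - t) / ((k - t).factorial : ℝ) * (β ^ t / (t.factorial : ℝ)))
      = (-β ^ k / ((k - 1).factorial : ℝ)) * (1 ^ t * (-1) ^ (k - 1 - t) * ((k - 1).choose t : ℝ)) := by
    intro t ht
    rw [mem_range] at ht
    obtain ⟨m, rfl⟩ : ∃ m, k = t + (m + 1) := ⟨k - t - 1, by omega⟩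
    have e1 : t + (m + 1) - t = m + 1 := by omega
    have e2 : t + (m + 1) - 1 = t + m := by omega
    have e3 : t + m - t = m := by omega
    rw [e1, e2, e3, Nat.factorial_succ]
    have h2 : ((t + m).choose t : ℝ) = ((t + m).factorial : ℝ) / ((t.factorial : ℝ) * (m.factorial : ℝ)) := by
      rw [Nat.cast_add_choose]
    rw [h2]
    have f1 : ((t + m).factorial : ℝ) ≠ 0 := by positivity
    have f2 : (t.factorial : ℝ) ≠ 0 := by positivity
    have f3 : (m.factorial : ℝ) ≠ 0 := by positivity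
    have f4 : ((m : ℝ) + 1) ≠ 0 := by positivity
    push_cast
    rw [neg_pow β]
    field_simp
    ring
  rw [Finset.sum_congr rfl h1, ← Finset.mul_sum]
  have h3 := add_pow (1 : ℝ) (-1) (k - 1)
  rw [Nat.sub_add_cancel (by omega : 1 ≤ k)] at h3
  rw [← h3]
  rw [add_neg_cancel, zero_pow (by omega), mul_zero]

theorem KK_zero {β : ℝ} (hβ : 0 < β) {x : Fin N → ℕ} (hx : Function.Injective x) (hN : 0 < N) :
    KK β x 0 0 = (((∑ j, x j : ℕ) : ℝ) - ((∑ i ∈ range N, i : ℕ) : ℝ) - β ^ 2) / β := by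
  have hdet := Bm_det hβ hx
  set D : Matrix (Fin N) (Fin N) ℝ := Matrix.diagonal fun j => (x j : ℝ) with hD
  set A : Matrix (Fin N) (Fin N) ℝ := Matrix.of fun i l =>
     (if l = i then ((i : ℕ) : ℝ) else 0) +
       β * (Rm β x ((i : ℕ) + 1) l + (if (i : ℕ) = (l : ℕ) + 1 then 1 else 0)) +
       (-β) ^ ((i : ℕ) + 2) / ((((i : ℕ) + 1).factorial : ℕ) : ℝ) *
         (if (l : ℕ) = 0 then 1 else 0) with hA
  have h1 : Bm β x * D = A * Bm β x := by
    ext i j
    rw [hD, Matrix.mul_diagonal, Matrix.mul_apply]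
    have s1 : ∑ l : Fin N, (if l = i then ((i : ℕ) : ℝ) else 0) * gB β l (x j)
        = (i : ℕ) * gB β i (x j) := by
      simp only [ite_mul, zero_mul]
      rw [Finset.sum_ite_eq' univ i]
      simp
    have s2 : ∑ l : Fin N, (if (i : ℕ) = (l : ℕ) + 1 then (1 : ℝ) else 0) * gB β l (x j)
        = if (i : ℕ) = 0 then 0 else gB β ((i : ℕ) - 1) (x j) := by
      rw [Fin.sum_univ_eq_sum_range
        (fun l => (if (i : ℕ) = l + 1 then (1 : ℝ) else 0) * gB β l (x j)) N]
      split_ifs with hi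
      · refine Finset.sum_eq_zero fun l _ => ?_
        rw [if_neg (by omega), zero_mul]
      · rw [Finset.sum_eq_single ((i : ℕ) - 1)]
        · rw [if_pos (by omega), one_mul]
        · intro l _ hl
          rw [if_neg (by omega), zero_mul]
        · intro h
          exfalso
          apply h
          rw [mem_range]
          omega
    have s3 : ∑ l : Fin N, (if (l : ℕ) = 0 then (1 : ℝ) else 0) * gB β l (x j) = gB β 0 (x j) := by
      rw [Fin.sum_univ_eq_sum_range
        (fun l => (if l = 0 then (1 : ℝ) else 0) * gB β l (x j)) N]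
      rw [Finset.sum_eq_single 0]
      · rw [if_pos rfl, one_mul]
      · intro l _ hl
        rw [if_neg hl, zero_mul]
      · intro h
        exfalso
        apply h
        rw [mem_range]
        exact hN
    have s4 := Rm_row hβ hx ((i : ℕ) + 1) j
    have s5 : ∑ l : Fin N, A i l * Bm β x l j
        = ∑ l : Fin N, (if l = i then ((i : ℕ) : ℝ) else 0) * gB β l (x j) +
          β * (∑ l : Fin N, Rm β x ((i : ℕ) + 1) l * gB β l (x j) +
            ∑ l : Fin N, (if (i : ℕ) = (l : ℕ) + 1 then (1 : ℝ) else 0) * gB β l (x j)) +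
          (-β) ^ ((i : ℕ) + 2) / ((((i : ℕ) + 1).factorial : ℕ) : ℝ) *
            ∑ l : Fin N, (if (l : ℕ) = 0 then (1 : ℝ) else 0) * gB β l (x j) := by
      rw [← Finset.sum_add_distrib, Finset.mul_sum, Finset.mul_sum, ← Finset.sum_add_distrib,
        ← Finset.sum_add_distrib]
      refine Finset.sum_congr rfl fun l _ => ?_
      simp only [hA, Bm, Matrix.of_apply]
      ring
    rw [s5, s1, s2, s3, ← s4]
    have h5 := gB_rec β i (x j)
    simp only [Bm, Matrix.of_apply]
    linarith [h5, mul_comm ((x j : ℝ)) (gB β i (x j))]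
  have h2 := trace_of_mul_W2 hdet h1
  have h3 : (Bm β x * D * (Bm β x)⁻¹).trace = D.trace := by
    rw [Matrix.trace_mul_comm, ← Matrix.mul_assoc,
      Matrix.nonsing_inv_mul _ (isUnit_iff_ne_zero.2 hdet), Matrix.one_mul]
  rw [h3] at h2
  have h4 : D.trace = ∑ j, (x j : ℝ) := by
    rw [hD, Matrix.trace_diagonal]
  have h6 := sum_Rm_W2 hβ hx 1 le_rfl hN
  simp only [range_one, sum_singleton, pow_zero, one_mul, Nat.sub_self] at h6
  have h7 : A.trace = ∑ i : Fin N, ((i : ℕ) : ℝ) + β * ∑ i : Fin N, Rm β x ((i : ℕ) + 1) i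
      + β ^ 2 := by
    have t1 : ∑ i : Fin N, (-β) ^ ((i : ℕ) + 2) / ((((i : ℕ) + 1).factorial : ℕ) : ℝ) *
         (if (i : ℕ) = 0 then (1 : ℝ) else 0) = β ^ 2 := by
      rw [Fin.sum_univ_eq_sum_range
        (fun i => (-β) ^ (i + 2) / (((i + 1).factorial : ℕ) : ℝ) *
          (if i = 0 then (1 : ℝ) else 0)) N]
      rw [Finset.sum_eq_single 0]
      · simp
      · intro l _ hl
        rw [if_neg hl, mul_zero]
      · intro h
        exfalso
        apply h
        rw [mem_range]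
        exact hN
    rw [← t1, Finset.mul_sum, ← Finset.sum_add_distrib, ← Finset.sum_add_distrib]
    unfold Matrix.trace
    refine Finset.sum_congr rfl fun i _ => ?_
    simp only [hA, Matrix.diag_apply, Matrix.of_apply]
    rw [if_pos trivial, if_neg (by omega : ¬ (i : ℕ) = (i : ℕ) + 1), add_zero]
  rw [h4, h7, h6] at h2
  have h8 : ((∑ i ∈ range N, i : ℕ) : ℝ) = ∑ i : Fin N, ((i : ℕ) : ℝ) := by
    rw [Nat.cast_sum, Fin.sum_univ_eq_sum_range (fun i => (i : ℝ)) N]
  rw [h8, Nat.cast_sum, h2]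
  field_simp
  ring

theorem trace_pk {β : ℝ} (hβ : 0 < β) {x : Fin N → ℕ} (hx : Function.Injective x) (k : ℕ) (hk : 2 ≤ k) (hkN : k ≤ N) :
    ∑ b ∈ range k, (-1) ^ b * KK β x (k - 1 - b) b = pk β (univ.image x) k := by
  have hdet := Bm_det hβ hx
  rw [← sum_Rm_W2 hβ hx k (by omega) hkN]
  set C : Matrix (Fin N) (Fin N) ℝ := Matrix.of fun i j =>
    if k ≤ x j then gB β i (x j - k) else 0 with hC
  set A : Matrix (Fin N) (Fin N) ℝ := Matrix.of fun i l =>
    Rm β x ((i : ℕ) + k) l - ∑ z ∈ range k, (-β) ^ ((i : ℕ) + k - z) /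
      ((((i : ℕ) + k - z).factorial : ℕ) : ℝ) *
      (if (l : ℕ) ≤ z then β ^ (z - (l : ℕ)) / (((z - (l : ℕ)).factorial : ℕ) : ℝ) else 0) with hA
  have h1 : C = A * Bm β x := by
    ext i j
    rw [Matrix.mul_apply]
    have s1 : ∑ l : Fin N, A i l * Bm β x l j
        = ∑ l : Fin N, Rm β x ((i : ℕ) + k) l * gB β l (x j) -
          ∑ z ∈ range k, (-β) ^ ((i : ℕ) + k - z) / ((((i : ℕ) + k - z).factorial : ℕ) : ℝ) *
            ∑ l : Fin N, (if (l : ℕ) ≤ z then
              β ^ (z - (l : ℕ)) / (((z - (l : ℕ)).factorial : ℕ) : ℝ) * gB β l (x j) else 0) := by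
      have s2 : ∑ z ∈ range k, (-β) ^ ((i : ℕ) + k - z) /
          ((((i : ℕ) + k - z).factorial : ℕ) : ℝ) *
            ∑ l : Fin N, (if (l : ℕ) ≤ z then
              β ^ (z - (l : ℕ)) / (((z - (l : ℕ)).factorial : ℕ) : ℝ) * gB β l (x j) else 0)
          = ∑ l : Fin N, ∑ z ∈ range k, (-β) ^ ((i : ℕ) + k - z) /
            ((((i : ℕ) + k - z).factorial : ℕ) : ℝ) * (if (l : ℕ) ≤ z then
              β ^ (z - (l : ℕ)) / (((z - (l : ℕ)).factorial : ℕ) : ℝ) * gB β l (x j) else 0) := by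
        rw [Finset.sum_comm]
        refine Finset.sum_congr rfl fun z _ => ?_
        rw [Finset.mul_sum]
      rw [s2, ← Finset.sum_sub_distrib]
      refine Finset.sum_congr rfl fun l _ => ?_
      simp only [hA, Bm, Matrix.of_apply]
      rw [sub_mul, Finset.sum_mul]
      congr 1
      refine Finset.sum_congr rfl fun z _ => ?_
      split_ifs <;> ring
    rw [s1, ← Rm_row hβ hx]
    simp only [hC, Matrix.of_apply]
    rw [gB_shift]
    congr 1
    refine Finset.sum_congr rfl fun z hz => ?_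
    rw [mem_range] at hz
    rw [gB_exp, sum_fin_le_W2 z (by omega)
      (fun l => β ^ (z - l) / (((z - l).factorial : ℕ) : ℝ) * gB β l (x j))]
  have h2 := trace_of_mul_W2 hdet h1
  have h3 : A.trace = ∑ i : Fin N, Rm β x ((i : ℕ) + k) i := by
    have t1 : A.trace = ∑ i : Fin N, Rm β x ((i : ℕ) + k) i -
        ∑ i : Fin N, ∑ z ∈ range k, (-β) ^ ((i : ℕ) + k - z) /
          ((((i : ℕ) + k - z).factorial : ℕ) : ℝ) *
          (if (i : ℕ) ≤ z then
            β ^ (z - (i : ℕ)) / (((z - (i : ℕ)).factorial : ℕ) : ℝ) else 0) := by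
      rw [← Finset.sum_sub_distrib]
      unfold Matrix.trace
      refine Finset.sum_congr rfl fun i _ => ?_
      simp only [hA, Matrix.diag_apply, Matrix.of_apply]
    have t2 : ∑ i : Fin N, ∑ z ∈ range k, (-β) ^ ((i : ℕ) + k - z) /
          ((((i : ℕ) + k - z).factorial : ℕ) : ℝ) *
          (if (i : ℕ) ≤ z then
            β ^ (z - (i : ℕ)) / (((z - (i : ℕ)).factorial : ℕ) : ℝ) else 0) = 0 := by
      rw [Finset.sum_comm]
      set g : ℕ → ℝ := fun t => (-β) ^ (k - t) / (((k - t).factorial : ℕ) : ℝ) *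
        (β ^ t / ((t.factorial : ℕ) : ℝ)) with hg
      have t3 : ∀ z ∈ range k, ∑ i : Fin N, (-β) ^ ((i : ℕ) + k - z) /
          ((((i : ℕ) + k - z).factorial : ℕ) : ℝ) *
          (if (i : ℕ) ≤ z then
            β ^ (z - (i : ℕ)) / (((z - (i : ℕ)).factorial : ℕ) : ℝ) else 0)
          = ∑ t ∈ range (z + 1), g t := by
        intro z hz
        rw [mem_range] at hz
        have t4 : ∀ i : Fin N, (-β) ^ ((i : ℕ) + k - z) /
          ((((i : ℕ) + k - z).factorial : ℕ) : ℝ) *
          (if (i : ℕ) ≤ z then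
            β ^ (z - (i : ℕ)) / (((z - (i : ℕ)).factorial : ℕ) : ℝ) else 0)
            = if (i : ℕ) ≤ z then g (z - (i : ℕ)) else 0 := by
          intro i
          split_ifs with hi
          · simp only [hg]
            rw [show k - (z - (i : ℕ)) = (i : ℕ) + k - z by omega]
          · rw [mul_zero]
        rw [Finset.sum_congr rfl fun i _ => t4 i,
          sum_fin_le_W2 z (by omega) (fun i => g (z - i))]
        have t5 := Finset.sum_range_reflect g (z + 1)
        rw [Nat.add_sub_cancel] at t5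
        exact t5
      rw [Finset.sum_congr rfl t3, sum_sum_W2]
      exact alt_W2 k hk β
    rw [t1, t2, sub_zero]
  rw [← h3, ← h2, Matrix.inv_def, Ring.inverse_eq_inv', Matrix.mul_smul, Matrix.trace_smul]
  have h4 : (C * (Bm β x).adjugate).trace
      = ∑ j : Fin N, ((Bm β x).updateCol j (fun i => C i j)).det := by
    rw [Matrix.trace_mul_comm]
    unfold Matrix.trace
    refine Finset.sum_congr rfl fun j _ => ?_
    rw [Matrix.diag_apply, Matrix.mul_apply, ← Matrix.cramer_apply,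
      Matrix.cramer_eq_adjugate_mulVec]
    rfl
  have h5 : ∀ j : Fin N, ((Bm β x).updateCol j (fun i => C i j)).det
      = ((x j).descFactorial k : ℝ) / β ^ k * (∏ z ∈ (univ.image x).erase (x j),
        (((x j : ℝ) - (k : ℝ) - (z : ℝ)) / ((x j : ℝ) - (z : ℝ)))) * (Bm β x).det := by
    intro j
    by_cases hj : k ≤ x j
    · have e1 : (fun i => C i j) = fun i : Fin N => gB β i (x j - k) := by
        funext i
        simp only [hC, Matrix.of_apply]
        rw [if_pos hj]
      rw [e1, det_move hβ hx]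
      congr 1
      unfold rt
      have e2 : β ^ (((x j - k : ℕ) : ℤ) - ((x j : ℕ) : ℤ)) = (β ^ k)⁻¹ := by
        rw [Nat.cast_sub hj]
        rw [show ((x j : ℕ) : ℤ) - (k : ℤ) - ((x j : ℕ) : ℤ) = -(k : ℤ) by ring, zpow_neg,
          zpow_natCast]
      have e3 : ((x j).factorial : ℝ) / ((x j - k).factorial : ℝ)
          = ((x j).descFactorial k : ℝ) := by
        have := Nat.factorial_mul_descFactorial hj
        rw [← this]
        push_cast
        have f1 : ((x j - k).factorial : ℝ) ≠ 0 := by positivity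
        field_simp
      rw [e2, e3]
      have e4 : ∀ z : ℕ, (((x j - k : ℕ) : ℝ) - (z : ℝ)) / ((x j : ℝ) - (z : ℝ))
          = ((x j : ℝ) - (k : ℝ) - (z : ℝ)) / ((x j : ℝ) - (z : ℝ)) := by
        intro z
        rw [Nat.cast_sub hj]
      rw [Finset.prod_congr rfl fun z _ => e4 z]
      ring
    · have e1 : (fun i => C i j) = fun _ : Fin N => (0 : ℝ) := by
        funext i
        simp only [hC, Matrix.of_apply]
        rw [if_neg hj]
      have e2 : (x j).descFactorial k = 0 := Nat.descFactorial_eq_zero_iff_lt.2 (by omega)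
      rw [e1, e2]
      have e3 : ((Bm β x).updateCol j fun _ : Fin N => (0 : ℝ)).det = 0 := by
        refine Matrix.det_eq_zero_of_column_eq_zero j fun i => ?_
        rw [Matrix.updateCol_self]
      rw [e3]
      simp
  rw [h4, Finset.sum_congr rfl fun j _ => h5 j, ← Finset.sum_mul, smul_eq_mul]
  unfold pk
  rw [Finset.sum_image fun a _ b _ hab => hx hab]
  field_simp

end Pool.Agent.Helper97.TF6
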