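import Pool.Agent.Helper97.TF6.Seq3
import Pool.Agent.Helper97.TF6.Wave2
import Pool.Agent.Helper97.TF6.Lag2

/-!
BLOCK TF6-FIN1 (about 300 lines). The weighted sum over the hooks. Analysis only.

Proof. We may assume `C ≥ 1` (`n^C` grows). Put `λ = log (1/w) > 0`, `ℓ = 2C/λ`, `η' = λ/(16C)`, `ρ' = exp (-η')`, `η = η'/2`, `ρ = exp (-η)`, `L0 = ℓ + 1`. Given `A`, take `B`, `δ` from `seq_lemma` (`ρ' < ρ < 1`). `β = √n`, `K = KK β x`, `L = ⌊ℓ log n⌋`.
All of the following for `n ≥ n0`.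
* `L + 1 < n ≤ N`, so `wave` gives `WaveEq β K L` (the forms agree: `b + 1 ≤ L < N`). `pp K 1 = K 0 0 = 0` (`KK_zero`, `∑ x j = n + ∑_{i<N} i`, `β² = n`), `pp K k = pk β X k` for `2 ≤ k ≤ L + 1 ≤ N` (`trace_pk`, the same sum), and `k ≤ L + 1 ≤ L0 log n` (`log n ≥ 1`), so `|pp K k| ρ^k ≤ A`.
* `(L + 2)^4 B ≤ δ ρ'^(L+2) β`: `ρ'^(L+2) ≥ exp(-2η') n^(-η' ℓ) = exp(-2η') n^(-1/8)`, `(ℓ log n + 2)^4 B ≤ δ exp(-2η') n^(3/8)` for large `n`.
* So by `seq_lemma` `|K a b| ≤ B ρ'^(-(a+b))` for `a + b ≤ L`; `w ρ'^(-2) = w^(1 - 1/(8C)) ≤ √w`, and `∑_{a,b, a+b ≤ L} w^(a+b+1) K² ≤ B² ∑_m (m+1) (√w)^m`, a constant.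
* `KK_le` for all `a`, `b`: its hypothesis for `y = N + a ≥ n`: `β^y/y! * exp(β² + β) ≤ (e √n/y)^y exp(2n) ≤ (e/√n)^y e^(2n) ≤ (e³/√n)^n ≤ 1` for `n ≥ e^6` (`y! ≥ (y/e)^y`). So `K² ≤ 8 (1 + RR) ≤ 16 n^C`. `∑_{a + b > L} w^(a+b+1) 16 n^C ≤ 16 n^C ∑_{m > L} (m+1) w^(m+1) ≤ 16 n^C w^((L+1)/2) ∑_m (m+1) w^((m+1)/2)`, and `w^((L+1)/2) ≤ w^(ℓ log n/2) = n^(-ℓλ/2) = n^(-C)`.
-/

set_option autoImplicit false

open Finset

namespace Pool.Agent.Helper97.TF6

private theorem geo75 {q : ℝ} (h0 : 0 ≤ q) (h1 : q < 1) (n : ℕ) :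
    ∑ i ∈ range n, q ^ i ≤ (1 - q)⁻¹ := by
  have h2 : 0 < 1 - q := by linarith
  rw [← one_div, le_div_iff₀ h2, geom_sum_mul_neg]
  have := pow_nonneg h0 n
  linarith

/-- the hypothesis of `KK_le` -/
private theorem fact75 {n : ℕ} (hn : Real.exp 3 + 1 ≤ 2 * Real.sqrt n) {y : ℕ} (hy : n ≤ y) :
    Real.sqrt n ^ y / (y.factorial : ℝ) * Real.exp (Real.sqrt n ^ 2 + Real.sqrt n) ≤ 1 := by
  have hs : 0 ≤ Real.sqrt n := Real.sqrt_nonneg _
  have hsq : Real.sqrt n ^ 2 = n := Real.sq_sqrt (Nat.cast_nonneg n)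
  have hy' : (n : ℝ) ≤ y := by exact_mod_cast hy
  have h1 := Real.pow_div_factorial_le_exp (Real.sqrt n * Real.exp 3) (by positivity) y
  have h2 : (Real.sqrt n * Real.exp 3) ^ y / (y.factorial : ℝ) =
      Real.sqrt n ^ y / (y.factorial : ℝ) * Real.exp (3 * y) := by
    rw [mul_pow, ← Real.exp_nat_mul, mul_comm (y : ℝ) 3]
    ring
  rw [h2] at h1
  have h3 : Real.sqrt n ^ y / (y.factorial : ℝ) ≤ Real.exp (Real.sqrt n * Real.exp 3 - 3 * y) := by
    rw [Real.exp_sub, le_div_iff₀ (Real.exp_pos _)]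
    exact h1
  calc Real.sqrt n ^ y / (y.factorial : ℝ) * Real.exp (Real.sqrt n ^ 2 + Real.sqrt n)
      ≤ Real.exp (Real.sqrt n * Real.exp 3 - 3 * y) * Real.exp (Real.sqrt n ^ 2 + Real.sqrt n) :=
        mul_le_mul_of_nonneg_right h3 (Real.exp_pos _).le
    _ = Real.exp (Real.sqrt n * Real.exp 3 - 3 * y + (Real.sqrt n ^ 2 + Real.sqrt n)) :=
        (Real.exp_add _ _).symm
    _ ≤ 1 := by
        rw [Real.exp_le_one_iff]
        nlinarith [mul_le_mul_of_nonneg_left hn hs]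

/-- the eventual conditions -/
private theorem ev75 (l M : ℝ) : ∃ n0 : ℕ, ∀ n ≥ n0, 1 ≤ n ∧ 1 ≤ Real.log n ∧
    l * Real.log n + 2 ≤ n ∧ M * Real.log n ^ 4 ≤ Real.exp (3 / 8 * Real.log n) ∧
    Real.exp 3 + 1 ≤ 2 * Real.sqrt n := by
  have hlog : Filter.Tendsto (fun n : ℕ => Real.log n) Filter.atTop Filter.atTop :=
    Real.tendsto_log_atTop.comp tendsto_natCast_atTop_atTop
  have e1 : ∀ᶠ n : ℕ in Filter.atTop, 1 ≤ n := Filter.eventually_ge_atTop 1
  have e2 : ∀ᶠ n : ℕ in Filter.atTop, 1 ≤ Real.log n := hlog.eventually_ge_atTop 1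
  have e3 : ∀ᶠ n : ℕ in Filter.atTop, l * Real.log n + 2 ≤ n := by
    have h1 := Real.tendsto_exp_div_pow_atTop 1
    have h2 := (h1.comp hlog).eventually_ge_atTop (|l| + 2)
    filter_upwards [h2, e1, e2] with n h3 h4 h5
    simp only [Function.comp_apply, pow_one] at h3
    have hn : (0 : ℝ) < n := by exact_mod_cast h4
    rw [Real.exp_log hn, le_div_iff₀ (by linarith)] at h3
    have h6 : l * Real.log n ≤ |l| * Real.log n :=
      mul_le_mul_of_nonneg_right (le_abs_self l) (by linarith)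
    nlinarith
  have e4 : ∀ᶠ n : ℕ in Filter.atTop, M * Real.log n ^ 4 ≤ Real.exp (3 / 8 * Real.log n) := by
    have h1 := Real.tendsto_exp_div_pow_atTop 4
    have h2 : Filter.Tendsto (fun n : ℕ => 3 / 8 * Real.log n) Filter.atTop Filter.atTop :=
      hlog.const_mul_atTop (by norm_num)
    have h3 := (h1.comp h2).eventually_ge_atTop (M * (8 / 3) ^ 4)
    filter_upwards [h3, e2] with n h4 h5
    simp only [Function.comp_apply] at h4
    rw [le_div_iff₀ (by positivity)] at h4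
    calc M * Real.log n ^ 4 = M * (8 / 3) ^ 4 * (3 / 8 * Real.log n) ^ 4 := by ring
      _ ≤ _ := h4
  have e5 : ∀ᶠ n : ℕ in Filter.atTop, Real.exp 3 + 1 ≤ 2 * Real.sqrt n := by
    have h1 : Filter.Tendsto (fun n : ℕ => Real.sqrt n) Filter.atTop Filter.atTop :=
      Real.tendsto_sqrt_atTop.comp tendsto_natCast_atTop_atTop
    filter_upwards [h1.eventually_ge_atTop ((Real.exp 3 + 1) / 2)] with n hn
    linarith
  obtain ⟨n0, h0⟩ := Filter.eventually_atTop.1 (e1.and (e2.and (e3.and (e4.and e5))))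
  exact ⟨n0, fun n hn => h0 n hn⟩

theorem hook_sum {w : ℝ} (hw : 0 < w) (hw1 : w < 1) (C : ℝ) :
    ∃ η : ℝ, 0 < η ∧ ∃ L0 : ℝ, 0 < L0 ∧ ∀ A : ℝ, 1 ≤ A → ∃ A' : ℝ, ∃ n0 : ℕ, ∀ n ≥ n0, ∀ N ≥ n, ∀ x : Fin N → ℕ,
      Function.Injective x → ∑ j, x j = n + ∑ i ∈ range N, i →
      (∀ k : ℕ, 2 ≤ k → (k : ℝ) ≤ L0 * Real.log n →
        |pk (Real.sqrt n) (univ.image x) k| ≤ A * Real.exp (η * k)) →
      RR (Real.sqrt n) (univ.image x) ≤ (n : ℝ) ^ C →
      ∀ S : ℕ, ∑ a ∈ range S, ∑ b ∈ range N, w ^ (a + b + 1) * KK (Real.sqrt n) x a b ^ 2 ≤ A' := by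
  -- the parameters
  obtain ⟨C1, hC1, hCC⟩ : ∃ C1 : ℝ, 1 ≤ C1 ∧ C ≤ C1 := ⟨max C 1, le_max_right _ _, le_max_left _ _⟩
  have hC0 : 0 < C1 := by linarith
  obtain ⟨lam, hlam, hwl⟩ : ∃ lam : ℝ, 0 < lam ∧ w = Real.exp (-lam) :=
    ⟨-Real.log w, by linarith [Real.log_neg hw hw1], by rw [neg_neg, Real.exp_log hw]⟩
  set l : ℝ := 2 * C1 / lam with hl
  have hl0 : 0 < l := by positivity
  set η' : ℝ := lam / (16 * C1) with hη'
  have hη'0 : 0 < η' := by positivity
  have hηl : η' * l = 1 / 8 := by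
    rw [hη', hl]
    field_simp
    norm_num
  have hlaml : lam / 2 * l = C1 := by
    rw [hl]
    field_simp
  refine ⟨η' / 2, by positivity, l + 1, by positivity, fun A hA => ?_⟩
  have hρ0 : 0 < Real.exp (-η') := Real.exp_pos _
  have hρ1 : Real.exp (-η') < Real.exp (-(η' / 2)) := Real.exp_lt_exp.2 (by linarith)
  have hρ2 : Real.exp (-(η' / 2)) < 1 := by
    rw [Real.exp_lt_one_iff]
    linarith
  obtain ⟨B, hB, δ, hδ, hseq⟩ := seq_lemma hρ0 hρ1 hρ2 A hA
  set q : ℝ := Real.exp (-(lam / 2)) with hq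
  have hq0 : 0 < q := Real.exp_pos _
  have hq1 : q < 1 := by
    rw [hq, Real.exp_lt_one_iff]
    linarith
  have hwq : w = q * q := by
    rw [hwl, hq, ← Real.exp_add]
    congr 1
    ring
  obtain ⟨n0, hn0⟩ := ev75 l ((l + 2) ^ 4 * B / (δ * Real.exp (-(2 * η'))))
  refine ⟨(B ^ 2 + 16) * ((1 - q)⁻¹ * (1 - q)⁻¹), n0, ?_⟩
  intro n hn N hN x hx hsum hpk hRR S
  obtain ⟨h1, h2, h3, h4, h5⟩ := hn0 n hn
  have hnpos : (0 : ℝ) < n := by exact_mod_cast h1
  have hβ : 0 < Real.sqrt n := Real.sqrt_pos.2 hnpos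
  have hsq : Real.sqrt n ^ 2 = n := Real.sq_sqrt hnpos.le
  set t : ℝ := Real.log n with ht
  have hnt : (n : ℝ) = Real.exp t := (Real.exp_log hnpos).symm
  have hst : Real.sqrt n = Real.exp (t / 2) := by
    rw [Real.exp_half, ← hnt]
  have ht0 : 0 < t := by linarith
  set L : ℕ := ⌊l * t⌋₊ with hL
  have hL1 : (L : ℝ) ≤ l * t := Nat.floor_le (by positivity)
  have hL2 : l * t < (L : ℝ) + 1 := Nat.lt_floor_add_one _
  have hLn : L + 2 ≤ n := by
    have : (L : ℝ) + 2 ≤ n := by linarith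
    exact_mod_cast this
  -- the wave equation
  have hwave : WaveEq (Real.sqrt n) (KK (Real.sqrt n) x) L := by
    intro a b hab
    exact wave hβ hx a b (by omega)
  -- the traces
  have hpp : ∀ k : ℕ, 1 ≤ k → k ≤ L + 1 →
      |pp (KK (Real.sqrt n) x) k| * Real.exp (-(η' / 2)) ^ k ≤ A := by
    intro k hk1 hk2
    rcases Nat.lt_or_ge k 2 with hk | hk
    · have hk' : k = 1 := by omega
      subst hk'
      have h6 : pp (KK (Real.sqrt n) x) 1 = 0 := by
        unfold pp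
        rw [range_one, sum_singleton, pow_zero, one_mul]
        show KK (Real.sqrt n) x 0 0 = 0
        rw [KK_zero hβ hx (by omega), hsum, hsq]
        push_cast
        ring
      rw [h6, abs_zero, zero_mul]
      linarith
    · have h6 : pp (KK (Real.sqrt n) x) k = pk (Real.sqrt n) (univ.image x) k :=
        trace_pk hβ hx k hk (by omega)
      have h7 : (k : ℝ) ≤ (l + 1) * t := by
        have h8 : (k : ℝ) ≤ (L : ℝ) + 1 := by exact_mod_cast hk2
        have h9 : (l + 1) * t = l * t + t := by ring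
        linarith
      rw [h6, ← Real.exp_nat_mul]
      calc |pk (Real.sqrt n) (univ.image x) k| * Real.exp (k * -(η' / 2))
          ≤ A * Real.exp (η' / 2 * k) * Real.exp (k * -(η' / 2)) :=
            mul_le_mul_of_nonneg_right (hpk k hk h7) (Real.exp_pos _).le
        _ = A := by
            rw [mul_assoc, ← Real.exp_add]
            have : η' / 2 * (k : ℝ) + k * -(η' / 2) = 0 := by ring
            rw [this, Real.exp_zero, mul_one]
  -- the size condition
  have hsize : ((L : ℝ) + 2) ^ 4 * B ≤ δ * (Real.exp (-η') ^ (L + 2) * Real.sqrt n) := by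
    have h6 : Real.exp (-(2 * η')) * Real.exp (3 / 8 * t) ≤ Real.exp (-η') ^ (L + 2) * Real.sqrt n := by
      rw [← Real.exp_nat_mul, hst, ← Real.exp_add, ← Real.exp_add]
      apply Real.exp_le_exp.2
      push_cast
      have h7 : η' * L ≤ η' * (l * t) := mul_le_mul_of_nonneg_left hL1 hη'0.le
      have h8 : η' * (l * t) = 1 / 8 * t := by rw [← mul_assoc, hηl]
      have h9 : ((L : ℝ) + 2) * -η' = -(η' * L) - 2 * η' := by ring
      linarith
    have h7 : ((L : ℝ) + 2) ^ 4 ≤ (l + 2) ^ 4 * t ^ 4 := by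
      rw [← mul_pow]
      apply pow_le_pow_left₀ (by positivity)
      have h9 : (l + 2) * t = l * t + 2 * t := by ring
      linarith
    have hd0 : 0 < δ * Real.exp (-(2 * η')) := by positivity
    have h8 : (l + 2) ^ 4 * B * t ^ 4 ≤ δ * Real.exp (-(2 * η')) * Real.exp (3 / 8 * t) := by
      have h9 : (l + 2) ^ 4 * B / (δ * Real.exp (-(2 * η'))) * t ^ 4 =
          ((l + 2) ^ 4 * B * t ^ 4) / (δ * Real.exp (-(2 * η'))) := by ring
      rw [h9, div_le_iff₀ hd0] at h4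
      linarith
    calc ((L : ℝ) + 2) ^ 4 * B ≤ (l + 2) ^ 4 * t ^ 4 * B :=
          mul_le_mul_of_nonneg_right h7 (by linarith)
      _ = (l + 2) ^ 4 * B * t ^ 4 := by ring
      _ ≤ δ * Real.exp (-(2 * η')) * Real.exp (3 / 8 * t) := h8
      _ = δ * (Real.exp (-(2 * η')) * Real.exp (3 / 8 * t)) := by ring
      _ ≤ _ := mul_le_mul_of_nonneg_left h6 hδ.le
  have hK := hseq L (Real.sqrt n) (KK (Real.sqrt n) x) hβ hwave hpp hsize
  -- the bound for one term
  have hterm : ∀ a b : ℕ, w ^ (a + b + 1) * KK (Real.sqrt n) x a b ^ 2 ≤ (B ^ 2 + 16) * q ^ (a + b) := by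
    intro a b
    rcases Nat.lt_or_ge L (a + b) with hab | hab
    · -- far away
      have h6 := KK_le hβ hx a b (fact75 h5 (by omega))
      have h7 : RR (Real.sqrt n) (univ.image x) ≤ Real.exp (C1 * t) := by
        refine hRR.trans ?_
        refine (Real.rpow_le_rpow_of_exponent_le (by exact_mod_cast h1) hCC).trans ?_
        rw [Real.rpow_def_of_pos hnpos, mul_comm]
      have h8 : 1 ≤ Real.exp (C1 * t) := Real.one_le_exp (by positivity)
      set R := Real.exp (C1 * t) with hR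
      have h9 : Real.sqrt (RR (Real.sqrt n) (univ.image x)) ≤ Real.sqrt R := Real.sqrt_le_sqrt h7
      have h10 : Real.sqrt R ^ 2 = R := Real.sq_sqrt (by linarith)
      have h11 : 0 ≤ Real.sqrt R := Real.sqrt_nonneg _
      have h12 : |KK (Real.sqrt n) x a b| ≤ 2 * (1 + Real.sqrt R) := h6.trans (by linarith)
      have h13 : KK (Real.sqrt n) x a b ^ 2 ≤ 16 * R := by
        rw [← sq_abs]
        have h14 : |KK (Real.sqrt n) x a b| ^ 2 ≤ (2 * (1 + Real.sqrt R)) ^ 2 :=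
          pow_le_pow_left₀ (abs_nonneg _) h12 2
        have h15 : (2 * (1 + Real.sqrt R)) ^ 2 = 4 + 8 * Real.sqrt R + 4 * Real.sqrt R ^ 2 := by ring
        have h16 : 0 ≤ Real.sqrt R ^ 2 - 2 * Real.sqrt R + 1 := by
          have h17 : Real.sqrt R ^ 2 - 2 * Real.sqrt R + 1 = (Real.sqrt R - 1) ^ 2 := by ring
          rw [h17]
          exact sq_nonneg _
        rw [h10] at h15 h16
        linarith
      have h14 : q ^ (a + b + 1) * R ≤ 1 := by
        have h15 : q ^ (a + b + 1) ≤ q ^ (L + 1) := pow_le_pow_of_le_one hq0.le hq1.le (by omega)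
        have h16 : q ^ (L + 1) * R ≤ 1 := by
          rw [hq, hR, ← Real.exp_nat_mul, ← Real.exp_add, Real.exp_le_one_iff]
          push_cast
          have h17 : lam / 2 * (l * t) ≤ lam / 2 * ((L : ℝ) + 1) :=
            mul_le_mul_of_nonneg_left hL2.le (by positivity)
          have h18 : lam / 2 * (l * t) = C1 * t := by rw [← mul_assoc, hlaml]
          have h19 : ((L : ℝ) + 1) * -(lam / 2) = -(lam / 2 * ((L : ℝ) + 1)) := by ring
          linarith
        exact (mul_le_mul_of_nonneg_right h15 (by positivity)).trans h16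
      calc w ^ (a + b + 1) * KK (Real.sqrt n) x a b ^ 2 ≤ w ^ (a + b + 1) * (16 * R) :=
            mul_le_mul_of_nonneg_left h13 (by positivity)
        _ = 16 * (q ^ (a + b + 1) * R) * q ^ (a + b + 1) := by
            rw [hwq, mul_pow]
            ring
        _ ≤ 16 * 1 * q ^ (a + b + 1) :=
            mul_le_mul_of_nonneg_right (mul_le_mul_of_nonneg_left h14 (by norm_num)) (by positivity)
        _ ≤ 16 * 1 * q ^ (a + b) := by
            have : q ^ (a + b + 1) ≤ q ^ (a + b) := pow_le_pow_of_le_one hq0.le hq1.le (by omega)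
            linarith
        _ ≤ (B ^ 2 + 16) * q ^ (a + b) := by
            have h15 : 0 ≤ B ^ 2 * q ^ (a + b) := by positivity
            have h16 : (B ^ 2 + 16) * q ^ (a + b) = B ^ 2 * q ^ (a + b) + 16 * q ^ (a + b) := by ring
            linarith
    · -- near
      have h6 := hK a b hab
      have h7 : KK (Real.sqrt n) x a b ^ 2 * (Real.exp (-η') ^ (a + b)) ^ 2 ≤ B ^ 2 := by
        rw [← sq_abs (KK (Real.sqrt n) x a b), ← mul_pow]
        exact pow_le_pow_left₀ (by positivity) h6 2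
      have h8 : w ≤ q * Real.exp (-η') ^ 2 := by
        rw [hwl, hq, ← Real.exp_nat_mul, ← Real.exp_add]
        apply Real.exp_le_exp.2
        push_cast
        have h9 : 2 * η' ≤ lam / 2 := by
          rw [hη']
          rw [mul_div_assoc', div_le_div_iff₀ (by positivity) (by norm_num)]
          have h10 : lam * 1 ≤ lam * C1 := mul_le_mul_of_nonneg_left hC1 hlam.le
          linarith
        linarith
      have h9 : w ^ (a + b) ≤ q ^ (a + b) * (Real.exp (-η') ^ (a + b)) ^ 2 := by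
        calc w ^ (a + b) ≤ (q * Real.exp (-η') ^ 2) ^ (a + b) := pow_le_pow_left₀ hw.le h8 _
          _ = _ := by rw [mul_pow, ← pow_mul, ← pow_mul, mul_comm 2]
      calc w ^ (a + b + 1) * KK (Real.sqrt n) x a b ^ 2
          ≤ w ^ (a + b) * KK (Real.sqrt n) x a b ^ 2 := by
            apply mul_le_mul_of_nonneg_right _ (sq_nonneg _)
            exact pow_le_pow_of_le_one hw.le hw1.le (by omega)
        _ ≤ q ^ (a + b) * (Real.exp (-η') ^ (a + b)) ^ 2 * KK (Real.sqrt n) x a b ^ 2 :=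
            mul_le_mul_of_nonneg_right h9 (sq_nonneg _)
        _ = q ^ (a + b) * (KK (Real.sqrt n) x a b ^ 2 * (Real.exp (-η') ^ (a + b)) ^ 2) := by ring
        _ ≤ q ^ (a + b) * B ^ 2 := mul_le_mul_of_nonneg_left h7 (by positivity)
        _ ≤ (B ^ 2 + 16) * q ^ (a + b) := by
            have h15 : 0 ≤ q ^ (a + b) := by positivity
            have h16 : (B ^ 2 + 16) * q ^ (a + b) = q ^ (a + b) * B ^ 2 + 16 * q ^ (a + b) := by ring
            linarith
  calc ∑ a ∈ range S, ∑ b ∈ range N, w ^ (a + b + 1) * KK (Real.sqrt n) x a b ^ 2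
      ≤ ∑ a ∈ range S, ∑ b ∈ range N, (B ^ 2 + 16) * q ^ (a + b) :=
        sum_le_sum fun a _ => sum_le_sum fun b _ => hterm a b
    _ = (B ^ 2 + 16) * ((∑ a ∈ range S, q ^ a) * ∑ b ∈ range N, q ^ b) := by
        rw [sum_mul_sum, mul_sum]
        refine sum_congr rfl fun a _ => ?_
        rw [mul_sum]
        refine sum_congr rfl fun b _ => ?_
        rw [pow_add]
    _ ≤ (B ^ 2 + 16) * ((1 - q)⁻¹ * (1 - q)⁻¹) := by
        have h6 := geo75 hq0.le hq1 S
        have h7 := geo75 hq0.le hq1 N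
        have h8 : 0 ≤ ∑ b ∈ range N, q ^ b := sum_nonneg fun b _ => by positivity
        have h9 : 0 ≤ (1 - q)⁻¹ := inv_nonneg.2 (by linarith)
        exact mul_le_mul_of_nonneg_left (mul_le_mul h6 h7 h8 h9) (by positivity)

end Pool.Agent.Helper97.TF6
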