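import Pool.Agent.Helper97.TF6.Cnu
import Pool.Agent.Helper97.TF6.Fin1

/-!
BLOCK TF6-MAIN (about 150 lines). The weighted second moment.

Proof. Let `ε = (1 - w0)/2`, `w = w0/(1 - ε) < 1`, `u = w0^ε < 1`; `η`, `L0` from `hook_sum` for `w`, `C`. `x = bd κ` is injective (`κ` antitone), `∑ bd κ = n + ∑_{i<N} i`, `bs κ = univ.image (bd κ)`. `M_s = ∑_{|supp g| = s} (rr (hw n κ) g)²`, the left side is `∑_{s ≤ n} w0^s M_s`. Let `S = ⌊ε n⌋`.
* `s ≤ S`: `n.descFactorial s / n^s = ∏_{i<s} (1 - i/n) ≥ (1 - ε)^s`, so `w0^s M_s = w^s (1-ε)^s M_s ≤ w^s ∑_{ν ∈ PP N s} dq²` (`A3`). By `cb` (with `P s = PP N s`, `mem_PP`) and `hook_sum` the sum over `s ≤ S` is at most `exp A'`.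
* `s > S`: `s ≥ ε n`, `w0^s ≤ w0^(ε n) = u^n`, and `∑_g rr² = n!/ff²` (`ch_orth` with `κ = ν`), so this part is at most `u^n n!/ff² ≤ A`.
-/

set_option autoImplicit false

open Finset Equiv Module Pool.Agent.Helper1.TS Pool.Agent.Helper70.TU Pool.Agent.Helper51.TN Pool.Agent.Helper51.TF
open Pool.Agent.Helper70.TG (ff ff_pos Fro)

namespace Pool.Agent.Helper97.TF6

private theorem bd_inj82 {N : ℕ} {κ : Fin N → ℕ} (hκ : Antitone κ) : Function.Injective (bd κ) := by
  intro i j h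
  unfold bd at h
  rcases lt_trichotomy i j with hij | hij | hij
  · have h1 := hκ hij.le
    have h2 : (i : ℕ) < j := hij
    have h3 := i.2
    have h4 := j.2
    omega
  · exact hij
  · have h1 := hκ hij.le
    have h2 : (j : ℕ) < i := hij
    have h3 := i.2
    have h4 := j.2
    omega

private theorem sum_bd82 {N : ℕ} (κ : Fin N → ℕ) : ∑ j, bd κ j = ∑ j, κ j + ∑ i ∈ range N, i := by
  unfold bd
  rw [sum_add_distrib]
  congr 1
  rw [← Finset.sum_range_reflect (fun i => i) N, Finset.sum_range]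

theorem pk_eq_Fro {N : ℕ} (β : ℝ) {κ : Fin N → ℕ} (hκ : Antitone κ) (k : ℕ) : pk β (bs κ) k = Fro k κ / β ^ k := by
  have hinj := bd_inj82 hκ
  unfold pk Fro bs
  rw [sum_image (fun a _ b _ h => hinj h), sum_div]
  refine sum_congr rfl fun i _ => ?_
  rw [← Finset.image_erase hinj, prod_image (fun a _ b _ h => hinj h)]
  have h1 : ∀ i, Pool.Agent.Helper70.TG.bd κ i = bd κ i := fun i => rfl
  simp only [h1]
  ring

/-- Section 6: the weighted second moment is bounded. -/
theorem S6 {w0 : ℝ} (h0 : 0 < w0) (h1 : w0 < 1) (C : ℝ) :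
    ∃ η : ℝ, 0 < η ∧ ∃ L0 : ℝ, 0 < L0 ∧ ∃ u : ℝ, 0 < u ∧ u < 1 ∧ ∀ A : ℝ, 1 ≤ A → ∃ A' : ℝ, 1 ≤ A' ∧ ∃ n0 : ℕ,
      ∀ n ≥ n0, ∀ N ≥ n, ∀ κ : Fin N → ℕ, κ ∈ PP N n →
      (∀ k : ℕ, 2 ≤ k → (k : ℝ) ≤ L0 * Real.log n → |pk (Real.sqrt n) (bs κ) k| ≤ A * Real.exp (η * k)) →
      RR (Real.sqrt n) (bs κ) ≤ (n : ℝ) ^ C →
      (n.factorial : ℝ) * u ^ n ≤ A * (ff n κ) ^ 2 →
      ∑ g : Perm (Fin n), (rr (hw n κ) g) ^ 2 * w0 ^ g.support.card ≤ A' := by
  classical
  set ε : ℝ := (1 - w0) / 2 with hε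
  have hε0 : 0 < ε := by rw [hε]; linarith
  have hε1 : ε < 1 := by rw [hε]; linarith
  have h1ε : 0 < 1 - ε := by linarith
  set w : ℝ := w0 / (1 - ε) with hwdef
  have hwp : 0 < w := div_pos h0 h1ε
  have hw1 : w < 1 := by
    rw [hwdef, div_lt_one h1ε, hε]
    linarith
  have hww : w * (1 - ε) = w0 := by
    rw [hwdef]
    field_simp
  obtain ⟨η, hη, L0, hL0, H⟩ := hook_sum hwp hw1 C
  refine ⟨η, hη, L0, hL0, w0 ^ ε, Real.rpow_pos_of_pos h0 _, Real.rpow_lt_one h0.le h1 hε0, ?_⟩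
  intro A hA
  obtain ⟨A'', n0, Hn⟩ := H A hA
  refine ⟨Real.exp A'' + A, by linarith [Real.exp_pos A''], max n0 1, ?_⟩
  intro n hn N hN κ hκ hpk hRR hff
  have hn0 : n0 ≤ n := (le_max_left _ _).trans hn
  have hn1 : 0 < n := (le_max_right _ _).trans hn
  have hnR : (0 : ℝ) < n := by exact_mod_cast hn1
  obtain ⟨hanti, hsum⟩ := mem_PP.1 hκ
  have hinj := bd_inj82 hanti
  have hffpos : 0 < ff n κ := ff_pos hN hκ
  set β : ℝ := Real.sqrt n with hβdef
  have hβ : 0 < β := Real.sqrt_pos.2 hnR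
  set S : ℕ := ⌊ε * n⌋₊ with hS
  have hSle : (S : ℝ) ≤ ε * n := Nat.floor_le (by positivity)
  have hSn : S ≤ n := by
    have : (S : ℝ) ≤ n := hSle.trans (by nlinarith)
    exact_mod_cast this
  have hSlt : ε * n < S + 1 := Nat.lt_floor_add_one _
  have hhook := Hn n hn0 N hN (bd κ) hinj (by rw [sum_bd82, hsum]) hpk hRR S
  -- the sum over large supports
  have horth : ∑ g : Perm (Fin n), (rr (hw n κ) g) ^ 2 = (n.factorial : ℝ) / (ff n κ) ^ 2 := by
    have h2 := ch_orth hN hκ hκ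
    rw [if_pos rfl] at h2
    rw [← h2, sum_div]
    refine sum_congr rfl fun g _ => ?_
    rw [rr_eq, div_pow, pow_two (ch n κ g)]
  have hlarge : ∑ g ∈ univ.filter (fun g : Perm (Fin n) => ¬ g.support.card ≤ S),
      (rr (hw n κ) g) ^ 2 * w0 ^ g.support.card ≤ A := by
    have h3 : ∀ g ∈ univ.filter (fun g : Perm (Fin n) => ¬ g.support.card ≤ S),
        (rr (hw n κ) g) ^ 2 * w0 ^ g.support.card ≤ (rr (hw n κ) g) ^ 2 * (w0 ^ ε) ^ n := by
      intro g hg
      rw [mem_filter] at hg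
      refine mul_le_mul_of_nonneg_left ?_ (sq_nonneg _)
      rw [← Real.rpow_natCast, ← Real.rpow_natCast, ← Real.rpow_mul h0.le]
      refine Real.rpow_le_rpow_of_exponent_ge h0 h1.le ?_
      have h4 : S + 1 ≤ g.support.card := by omega
      have h5 : ((S : ℝ) + 1) ≤ g.support.card := by exact_mod_cast h4
      linarith
    refine (sum_le_sum h3).trans ?_
    rw [← sum_mul]
    have h6 : ∑ g ∈ univ.filter (fun g : Perm (Fin n) => ¬ g.support.card ≤ S), (rr (hw n κ) g) ^ 2 ≤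
        ∑ g : Perm (Fin n), (rr (hw n κ) g) ^ 2 :=
      sum_le_sum_of_subset_of_nonneg (filter_subset _ _) fun _ _ _ => sq_nonneg _
    have hu0 : 0 ≤ (w0 ^ ε) ^ n := by positivity
    refine (mul_le_mul_of_nonneg_right h6 hu0).trans ?_
    rw [horth, div_mul_eq_mul_div, div_le_iff₀ (by positivity)]
    exact hff
  -- the sum over small supports
  have hsmall : ∑ g ∈ univ.filter (fun g : Perm (Fin n) => g.support.card ≤ S),
      (rr (hw n κ) g) ^ 2 * w0 ^ g.support.card ≤ Real.exp A'' := by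
    have h4 : ∑ g ∈ univ.filter (fun g : Perm (Fin n) => g.support.card ≤ S),
        (rr (hw n κ) g) ^ 2 * w0 ^ g.support.card =
        ∑ s ∈ range (S + 1), w0 ^ s * ∑ g ∈ univ.filter (fun g : Perm (Fin n) => g.support.card = s),
          (rr (hw n κ) g) ^ 2 := by
      rw [← sum_fiberwise_of_maps_to (s := univ.filter (fun g : Perm (Fin n) => g.support.card ≤ S))
        (t := range (S + 1)) (g := fun g : Perm (Fin n) => g.support.card)
        (fun g hg => by
          rw [mem_filter] at hg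
          exact mem_range.2 (Nat.lt_succ_of_le hg.2))]
      refine sum_congr rfl fun s hs => ?_
      rw [mem_range] at hs
      rw [mul_sum, filter_filter]
      have h5 : (univ.filter fun g : Perm (Fin n) => g.support.card ≤ S ∧ g.support.card = s) =
          univ.filter fun g : Perm (Fin n) => g.support.card = s := by
        ext g
        simp only [mem_filter, mem_univ, true_and]
        omega
      rw [h5]
      refine sum_congr rfl fun g hg => ?_
      rw [mem_filter] at hg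
      rw [hg.2, mul_comm]
    rw [h4]
    refine le_trans (sum_le_sum (g := fun s => w ^ s * ∑ ν ∈ PP N s, dq β (bd κ) ν ^ 2) ?_) ?_
    · intro s hs
      rw [mem_range] at hs
      have hsn : s ≤ n := by omega
      have hA3 := A3 hn1 hN hκ hsn
      have hM : 0 ≤ ∑ g ∈ univ.filter (fun g : Perm (Fin n) => g.support.card = s), (rr (hw n κ) g) ^ 2 :=
        sum_nonneg fun _ _ => sq_nonneg _
      have hdesc : (1 - ε) ^ s ≤ (n.descFactorial s : ℝ) / (n : ℝ) ^ s := by
        rw [le_div_iff₀ (by positivity), ← mul_pow, Nat.descFactorial_eq_prod_range, Nat.cast_prod]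
        calc ((1 - ε) * n) ^ s = ∏ _i ∈ range s, ((1 - ε) * (n : ℝ)) := by simp
          _ ≤ ∏ i ∈ range s, ((n - i : ℕ) : ℝ) := by
            refine prod_le_prod (fun i _ => by positivity) fun i hi => ?_
            rw [mem_range] at hi
            have hin : i ≤ n := by omega
            rw [Nat.cast_sub hin]
            have hiS : i ≤ S := by omega
            have : (i : ℝ) ≤ S := by exact_mod_cast hiS
            nlinarith
      calc w0 ^ s * ∑ g ∈ univ.filter (fun g : Perm (Fin n) => g.support.card = s), (rr (hw n κ) g) ^ 2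
          = w ^ s * ((1 - ε) ^ s *
            ∑ g ∈ univ.filter (fun g : Perm (Fin n) => g.support.card = s), (rr (hw n κ) g) ^ 2) := by
            rw [← hww, mul_pow, mul_assoc]
        _ ≤ w ^ s * ((n.descFactorial s : ℝ) / (n : ℝ) ^ s *
            ∑ g ∈ univ.filter (fun g : Perm (Fin n) => g.support.card = s), (rr (hw n κ) g) ^ 2) := by
            gcongr
        _ ≤ w ^ s * ∑ ν ∈ PP N s, dq β (bd κ) ν ^ 2 := by
            gcongr
    · refine (cb hβ hinj hwp S (fun s => PP N s) fun s ν hν => mem_PP.1 hν).trans ?_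
      exact Real.exp_le_exp.2 hhook
  rw [← sum_filter_add_sum_filter_not univ (fun g : Perm (Fin n) => g.support.card ≤ S)]
  exact add_le_add hsmall hlarge

end Pool.Agent.Helper97.TF6
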