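import Pool.Agent.Helper97.TF6.RepB
import Pool.Agent.Helper97.TF6.Defs

/-!
BLOCK TF6-AIT (about 250 lines). The determinant formula for the number of skew standard tableaux. Only combinatorics and determinants (`PP`, `subE`, `IsRem` from Helper51/TF).

Put `x = bd κ`, `y = bd ν` (`bd κ i = κ i + (N - 1 - i)`), `F(x, y) = det (fi (x i) (y j))`; it makes sense for all `x : Fin N → ℕ`.

Proofs.
* `det_step`: `∑_a det (row a of E replaced by ((x a - y j) fi (x a) (y j))_j) = (∑ x - ∑ y) det E` for `E = (fi (x i) (y j))`: the part with `x a` is `∑_a x a det E`; for the part with `y j`: `∑_a det (row a replaced by (y j E a j)_j) = (∑_j y j) det E` (expand both by the Leibniz formula: the term of the permutation `σ` gets the factor `∑_a y (σ a)`).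
  And `(x a - y j) fi (x a) (y j) = fi (x a - 1) (y j)` if `1 ≤ x a` and (`y j ≤ x a`, also `0 = 0` if `x a = y j`; `0` if `x a < y j`); if `x a = 0` it is `0` for all `j` (`y j = 0`: factor `0`; `y j > 0`: `fi = 0`).
* `sk_det`: induction on `k`. `k = 0`: `∑ κ = ∑ ν`. `κ = ν`: the matrix is triangular with diagonal `1` (`x` is strictly decreasing). `κ ≠ ν`: there is `i` with `κ i < ν i`, so `x i < y i`, and `fi (x i') (y j) = 0` for `i' ≥ i`, `j ≤ i`: a zero block of size `(N - i) × (i + 1)`, so the determinant is `0` (in every term of the Leibniz formula: a permutation can not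
  map `{i, …, N-1}` into `{i+1, …, N-1}`).
  Step: `∑ x - ∑ y = k + 1`, so `(k+1) F(x, y) = ∑_a det (row a replaced by …)` by `det_step`. Row `a`: if `IsRem κ a` the replaced matrix is `fi (bd (subE κ a) i) (y j)`; otherwise it has determinant `0`: if `κ a = 0` then, because `κ` is antitone, either `a` is the last row, `x a = 0`, a zero row,
  or `κ (a+1) = 0 = κ a`; and if `κ (a+1) = κ a` (this is the case if `κ a > 0` and `subE κ a` is not antitone) `x a - 1 = x (a+1)`: two equal rows. So `(k+1)! F(x,y) = ∑_{a, IsRem κ a} k! F(bd (subE κ a), y) = ∑_a sk k (subE κ a) ν = sk (k+1) κ ν` (`subE κ a ∈ PP N (s + k)`: `subE_cases`/`subE_mem`, or directly).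
-/

set_option autoImplicit false

open Finset Equiv Module Pool.Agent.Helper51.TF

namespace Pool.Agent.Helper97.TF6

/-- `1/(x - y)!`, and `0` if `x < y`. -/
noncomputable def fi (x y : ℕ) : ℝ := if y ≤ x then 1 / ((x - y).factorial : ℝ) else 0

private theorem det_gen {N : ℕ} (E : Matrix (Fin N) (Fin N) ℝ) (p q : Fin N → ℝ) :
    ∑ a, (E.updateRow a (fun j => (p a - q j) * E a j)).det = ((∑ i, p i) - ∑ i, q i) * E.det := by
  have h : ∀ (a : Fin N) (σ : Perm (Fin N)), ∏ i, (E.updateRow a (fun j => (p a - q j) * E a j)) (σ i) i =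
      (p a - q (σ⁻¹ a)) * ∏ i, E (σ i) i := by
    intro a σ
    have h1 : ∀ i, (E.updateRow a (fun j => (p a - q j) * E a j)) (σ i) i =
        (if i = σ⁻¹ a then (p a - q (σ⁻¹ a)) else 1) * E (σ i) i := by
      intro i
      by_cases hi : σ i = a
      · have hi' : i = σ⁻¹ a := by rw [← hi]; simp
        rw [if_pos hi', Matrix.updateRow_apply, if_pos hi, hi, ← hi']
      · have hi' : i ≠ σ⁻¹ a := by
          rintro rfl
          exact hi (by simp)
        rw [if_neg hi', Matrix.updateRow_apply, if_neg hi, one_mul]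
    rw [Finset.prod_congr rfl (fun i _ => h1 i), Finset.prod_mul_distrib, Finset.prod_ite_eq' univ (σ⁻¹ a),
      if_pos (Finset.mem_univ _)]
  simp only [Matrix.det_apply, h]
  rw [Finset.sum_comm, Finset.mul_sum]
  refine Finset.sum_congr rfl fun σ _ => ?_
  have h2 : ∑ a, (p a - q (σ⁻¹ a)) = (∑ i, p i) - ∑ i, q i := by
    rw [Finset.sum_sub_distrib]
    congr 1
    exact Equiv.sum_comp σ⁻¹ q
  rw [← h2, ← Finset.smul_sum, ← Finset.sum_mul, mul_smul_comm]

theorem det_step {N : ℕ} (x y : Fin N → ℕ) :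
    ∑ a, ((Matrix.of fun i j : Fin N => fi (x i) (y j)).updateRow a
        (fun j => ((x a : ℝ) - (y j : ℝ)) * fi (x a) (y j))).det =
      ((∑ i, (x i : ℝ)) - ∑ i, (y i : ℝ)) * (Matrix.of fun i j : Fin N => fi (x i) (y j)).det :=
  det_gen (Matrix.of fun i j : Fin N => fi (x i) (y j)) (fun i => (x i : ℝ)) (fun j => (y j : ℝ))

private theorem bd_anti {N : ℕ} {κ : Fin N → ℕ} (hκ : Antitone κ) {i j : Fin N} (h : i ≤ j) : bd κ j ≤ bd κ i := by
  unfold bd
  have h1 := hκ h
  have h2 : (i : ℕ) ≤ j := h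
  omega

private theorem bd_strict {N : ℕ} {κ : Fin N → ℕ} (hκ : Antitone κ) {i j : Fin N} (h : i < j) : bd κ j < bd κ i := by
  unfold bd
  have h1 := hκ h.le
  have h2 : (i : ℕ) < j := h
  have h3 := j.2
  omega

theorem det_fi_zero {N : ℕ} {κ ν : Fin N → ℕ} (hκ : Antitone κ) (hν : Antitone ν) (h : ∃ i, κ i < ν i) :
    (Matrix.of fun i j : Fin N => fi (bd κ i) (bd ν j)).det = 0 := by
  obtain ⟨i, hi⟩ := h
  rw [Matrix.det_apply]
  refine Finset.sum_eq_zero fun σ _ => ?_
  have h1 : ∃ j, j ≤ i ∧ i ≤ σ j := by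
    by_contra hcon
    push Not at hcon
    have h2 : (Finset.Iic i).card ≤ (Finset.Iio i).card := by
      refine Finset.card_le_card_of_injOn (fun j => σ j) (fun j hj => ?_) (σ.injective.injOn)
      have h3 := hcon j (Finset.mem_Iic.1 hj)
      exact Finset.mem_coe.2 (Finset.mem_Iio.2 h3)
    rw [Fin.card_Iic, Fin.card_Iio] at h2
    omega
  obtain ⟨j, hj1, hj2⟩ := h1
  have h3 : fi (bd κ (σ j)) (bd ν j) = 0 := by
    have h4 := bd_anti hκ hj2
    have h5 := bd_anti hν hj1
    have h6 : bd κ i < bd ν i := by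
      unfold bd
      omega
    unfold fi
    rw [if_neg]
    omega
  rw [Finset.prod_eq_zero (Finset.mem_univ j) (by rw [Matrix.of_apply]; exact h3), smul_zero]

private theorem fi_step {x : ℕ} (hx : 0 < x) (y : ℕ) : ((x : ℝ) - (y : ℝ)) * fi x y = fi (x - 1) y := by
  unfold fi
  rcases lt_trichotomy y x with h | h | h
  · rw [if_pos h.le, if_pos (by omega)]
    obtain ⟨d, rfl⟩ : ∃ d, x = y + (d + 1) := ⟨x - y - 1, by omega⟩
    have e1 : y + (d + 1) - y = d + 1 := by omega
    have e2 : y + (d + 1) - 1 - y = d := by omega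
    rw [e1, e2, Nat.factorial_succ]
    have h1 : (d.factorial : ℝ) ≠ 0 := by exact_mod_cast d.factorial_ne_zero
    have h2 : ((d : ℝ) + 1) ≠ 0 := by positivity
    push_cast
    field_simp
    ring
  · subst h
    rw [sub_self, zero_mul, if_neg (by omega)]
  · rw [if_neg (by omega), if_neg (by omega), mul_zero]

private theorem fi_zero (y : ℕ) : (((0 : ℕ) : ℝ) - (y : ℝ)) * fi 0 y = 0 := by
  unfold fi
  rcases Nat.eq_zero_or_pos y with h | h
  · subst h
    simp
  · rw [if_neg (by omega), mul_zero]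

private theorem subE_anti {N : ℕ} {κ : Fin N → ℕ} (hκ : Antitone κ) (a : Fin N) (h : ∀ b, a < b → κ b < κ a) :
    Antitone (subE κ a) := by
  intro i j hij
  unfold subE
  have h1 := hκ hij
  by_cases hi : i = a
  · by_cases hj : j = a
    · rw [if_pos hi, if_pos hj]
      omega
    · rw [if_pos hi, if_neg hj]
      have h2 := h j (lt_of_le_of_ne (hi ▸ hij) (Ne.symm hj))
      rw [← hi] at h2
      omega
  · rw [if_neg hi]
    omega

private theorem not_rem {N : ℕ} {κ : Fin N → ℕ} (hκ : Antitone κ) (a : Fin N) (h : ¬ IsRem κ a) :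
    (bd κ a = 0) ∨ ∃ b, b ≠ a ∧ 0 < bd κ a ∧ bd κ b = bd κ a - 1 := by
  by_cases hN : (a : ℕ) + 1 < N
  · right
    refine ⟨⟨(a : ℕ) + 1, hN⟩, ?_, ?_, ?_⟩
    · intro h1
      have h2 := congrArg Fin.val h1
      simp at h2
    · unfold bd
      omega
    · have h1 : κ ⟨(a : ℕ) + 1, hN⟩ = κ a := by
        by_contra hne
        have h2 : κ ⟨(a : ℕ) + 1, hN⟩ ≤ κ a := hκ (by rw [Fin.le_def]; simp)
        have h3 : κ ⟨(a : ℕ) + 1, hN⟩ < κ a := lt_of_le_of_ne h2 hne
        refine h ⟨by omega, subE_anti hκ a fun b hb => ?_⟩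
        have h4 : κ b ≤ κ ⟨(a : ℕ) + 1, hN⟩ := hκ (by rw [Fin.le_def]; exact hb)
        omega
      unfold bd
      rw [h1]
      simp only
      omega
  · left
    have h1 : κ a = 0 := by
      by_contra hne
      refine h ⟨Nat.pos_of_ne_zero hne, subE_anti hκ a fun b hb => ?_⟩
      have h2 : (a : ℕ) < b := hb
      have h3 := b.2
      omega
    unfold bd
    omega

private theorem sum_subE {N : ℕ} {κ : Fin N → ℕ} (a : Fin N) (h : 0 < κ a) : ∑ i, κ i = ∑ i, subE κ a i + 1 := by
  have h1 : ∀ i, κ i = subE κ a i + if i = a then 1 else 0 := by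
    intro i
    unfold subE
    by_cases hi : i = a
    · rw [if_pos hi]
      subst hi
      omega
    · rw [if_neg hi]
      omega
  rw [Finset.sum_congr rfl (fun i _ => h1 i), Finset.sum_add_distrib, Finset.sum_ite_eq' univ a,
    if_pos (Finset.mem_univ _)]

private theorem sum_bd {N : ℕ} (κ : Fin N → ℕ) : ∑ i, (bd κ i : ℝ) = ((∑ i, κ i : ℕ) : ℝ) + ∑ i : Fin N, ((N - 1 - (i : ℕ) : ℕ) : ℝ) := by
  unfold bd
  push_cast
  rw [← Finset.sum_add_distrib]

theorem sk_det {N s k : ℕ} {κ ν : Fin N → ℕ} (hκ : κ ∈ PP N (s + k)) (hν : ν ∈ PP N s) :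
    (sk k κ ν : ℝ) = (k.factorial : ℝ) * (Matrix.of fun i j : Fin N => fi (bd κ i) (bd ν j)).det := by
  classical
  obtain ⟨hνa, hνs⟩ := mem_PP.1 hν
  induction k generalizing κ with
  | zero =>
    obtain ⟨hκa, hκs⟩ := mem_PP.1 hκ
    rw [Nat.factorial_zero, Nat.cast_one, one_mul]
    unfold sk
    by_cases he : κ = ν
    · subst he
      rw [if_pos rfl, Nat.cast_one]
      symm
      rw [Matrix.det_of_isUpperTriangular]
      · refine Finset.prod_eq_one fun i _ => ?_
        rw [Matrix.of_apply]
        unfold fi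
        simp
      · intro i j hij
        have hij' : j < i := hij
        rw [Matrix.of_apply]
        unfold fi
        rw [if_neg]
        have := bd_strict hκa hij'
        omega
    · rw [if_neg he, Nat.cast_zero]
      symm
      refine det_fi_zero hκa hνa ?_
      by_contra hcon
      push Not at hcon
      apply he
      have h1 : ∑ i, ν i = ∑ i, κ i := by rw [hκs, hνs, add_zero]
      have h2 := (Finset.sum_eq_sum_iff_of_le (fun i _ => hcon i)).1 h1
      exact (funext fun i => h2 i (Finset.mem_univ i)).symm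
  | succ k ih =>
    obtain ⟨hκa, hκs⟩ := mem_PP.1 hκ
    have h1 := det_step (bd κ) (bd ν)
    have h2 : ∑ i, (bd κ i : ℝ) - ∑ i, (bd ν i : ℝ) = (k : ℝ) + 1 := by
      rw [sum_bd, sum_bd, hκs, hνs]
      push_cast
      ring
    rw [h2] at h1
    have h3 : ∀ a, ((Matrix.of fun i j : Fin N => fi (bd κ i) (bd ν j)).updateRow a
        (fun j => ((bd κ a : ℝ) - (bd ν j : ℝ)) * fi (bd κ a) (bd ν j))).det =
        if IsRem κ a then (Matrix.of fun i j : Fin N => fi (bd (subE κ a) i) (bd ν j)).det else 0 := by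
      intro a
      by_cases ha : IsRem κ a
      · rw [if_pos ha]
        congr 1
        ext i j
        rw [Matrix.updateRow_apply, Matrix.of_apply]
        by_cases hi : i = a
        · subst hi
          have h4 : 0 < κ i := ha.1
          have h5 : 0 < bd κ i := by unfold bd; omega
          rw [if_pos rfl, fi_step h5]
          congr 1
          unfold bd subE
          rw [if_pos rfl]
          omega
        · rw [if_neg hi, Matrix.of_apply]
          congr 1
          unfold bd subE
          rw [if_neg hi]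
          omega
      · rw [if_neg ha]
        rcases not_rem hκa a ha with h4 | ⟨b, hb, h4, h5⟩
        · refine Matrix.det_eq_zero_of_row_eq_zero a fun j => ?_
          rw [Matrix.updateRow_self, h4]
          exact fi_zero _
        · refine Matrix.det_zero_of_row_eq (Ne.symm hb) ?_
          rw [Matrix.updateRow_self, Matrix.updateRow_ne hb]
          funext j
          rw [Matrix.of_apply, h5]
          exact fi_step h4 _
    rw [Finset.sum_congr rfl (fun a _ => h3 a), ← Finset.sum_filter] at h1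
    have h4 : (sk (k + 1) κ ν : ℝ) = ∑ a ∈ univ.filter (fun a => IsRem κ a), (sk k (subE κ a) ν : ℝ) := by
      rw [sk]
      push_cast
      exact Finset.sum_congr (by ext; simp) fun _ _ => rfl
    have h5 : ∀ a ∈ univ.filter (fun a => IsRem κ a), (sk k (subE κ a) ν : ℝ) =
        (k.factorial : ℝ) * (Matrix.of fun i j : Fin N => fi (bd (subE κ a) i) (bd ν j)).det := by
      intro a ha
      have ha' := (Finset.mem_filter.1 ha).2
      refine ih (mem_PP.2 ⟨ha'.2, ?_⟩)
      have h6 := sum_subE a ha'.1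
      omega
    rw [h4, Finset.sum_congr rfl h5, ← Finset.mul_sum, h1, Nat.factorial_succ]
    push_cast
    ring

end Pool.Agent.Helper97.TF6
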