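import Pool.Agent.Helper97.TF6.Defs

/-!
BLOCK TF6-BES (about 120 lines). Bessel functions of integer order, part 1. ONLY MATHLIB.

Proofs.
* `JN_summable`: the absolute values are at most `|β|^k / k! * (β²)^j / j!` (`(j + k)! ≥ k!`), `Real.summable_pow_div_factorial`. `JN_abs_le`: the same bound, `∑ (β²)^j / j! = exp(β²)`.
* `JB_neg`: from the definition. `JB_abs_le`: from `JN_abs_le`.
* `JB_rec`: for `k ≥ 1`: `β J_{k-1} = ∑_j (-1)^j β^(2j+k) / (j! (j+k-1)!)`, `β J_{k+1} = - ∑_{j≥1} (-1)^j β^(2j+k) / ((j-1)! (j+k)!)`; the sum has the coefficients `(-1)^j β^(2j+k) / (j! (j+k)!) * ((j+k) - j)`. `k = 0`: `J_{-1} = - J_1`. `k < 0`: from `JB_neg`.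
-/

set_option autoImplicit false

open Finset

namespace Pool.Agent.Helper97.TF6

private theorem tb56 (β : ℝ) (k j : ℕ) :
    ‖(-1 : ℝ) ^ j * β ^ (2 * j + k) / ((j.factorial : ℝ) * ((j + k).factorial : ℝ))‖ ≤
      |β| ^ k / (k.factorial : ℝ) * ((β ^ 2) ^ j / (j.factorial : ℝ)) := by
  have h1 : (0 : ℝ) < (j.factorial : ℝ) := by positivity
  have h2 : (0 : ℝ) < ((j + k).factorial : ℝ) := by positivity
  have h3 : (0 : ℝ) < (k.factorial : ℝ) := by positivity
  have h4 : (k.factorial : ℝ) ≤ ((j + k).factorial : ℝ) := by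
    exact_mod_cast Nat.factorial_le (Nat.le_add_left k j)
  rw [Real.norm_eq_abs, abs_div, abs_mul, abs_pow, abs_neg, abs_one, one_pow, one_mul, abs_pow, abs_of_pos (mul_pos h1 h2)]
  have h5 : |β| ^ (2 * j + k) = |β| ^ k * (β ^ 2) ^ j := by
    rw [pow_add, pow_mul, sq_abs, mul_comm]
  rw [h5, div_mul_div_comm]
  refine div_le_div_of_nonneg_left (by positivity) (by positivity) ?_
  rw [mul_comm]
  exact mul_le_mul_of_nonneg_left h4 h1.le

private theorem hse56 (x : ℝ) : HasSum (fun j : ℕ => x ^ j / (j.factorial : ℝ)) (Real.exp x) := by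
  rw [Real.exp_eq_exp_ℝ]
  exact NormedSpace.expSeries_div_hasSum_exp x

theorem JN_summable (β : ℝ) (k : ℕ) :
    Summable fun j : ℕ => (-1 : ℝ) ^ j * β ^ (2 * j + k) / ((j.factorial : ℝ) * ((j + k).factorial : ℝ)) :=
  Summable.of_norm_bounded ((hse56 (β ^ 2)).summable.mul_left _) (tb56 β k)

private theorem JN_hasSum56 (β : ℝ) (k : ℕ) :
    HasSum (fun j : ℕ => (-1 : ℝ) ^ j * β ^ (2 * j + k) / ((j.factorial : ℝ) * ((j + k).factorial : ℝ))) (JN β k) :=
  (JN_summable β k).hasSum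

theorem JN_abs_le {β : ℝ} (hβ : 0 ≤ β) (k : ℕ) : |JN β k| ≤ β ^ k / (k.factorial : ℝ) * Real.exp (β ^ 2) := by
  have h1 := tsum_of_norm_bounded ((hse56 (β ^ 2)).mul_left (|β| ^ k / (k.factorial : ℝ))) (tb56 β k)
  rw [Real.norm_eq_abs, abs_of_nonneg hβ] at h1
  exact h1

theorem JB_neg (β : ℝ) (k : ℤ) : JB β (-k) = (-1) ^ k.natAbs * JB β k := by
  obtain ⟨m, rfl | rfl⟩ := k.eq_nat_or_neg
  · rw [JB_neg_natCast, JB_natCast, Int.natAbs_natCast]
  · rw [neg_neg, JB_neg_natCast, JB_natCast, Int.natAbs_neg, Int.natAbs_natCast, ← mul_assoc, ← mul_pow]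
    norm_num

theorem JB_abs_le {β : ℝ} (hβ : 0 ≤ β) (k : ℤ) :
    |JB β k| ≤ β ^ k.natAbs / (k.natAbs.factorial : ℝ) * Real.exp (β ^ 2) := by
  obtain ⟨m, rfl | rfl⟩ := k.eq_nat_or_neg
  · rw [JB_natCast, Int.natAbs_natCast]
    exact JN_abs_le hβ m
  · rw [JB_neg_natCast, Int.natAbs_neg, Int.natAbs_natCast, abs_mul, abs_pow, abs_neg, abs_one, one_pow, one_mul]
    exact JN_abs_le hβ m

private theorem JN_rec56 (β : ℝ) (m : ℕ) : β * (JN β m + JN β (m + 2)) = (m + 1) * JN β (m + 1) := by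
  set a : ℕ → ℝ := fun j => (-1 : ℝ) ^ j * β ^ (2 * j + (m + 1)) * j / ((j.factorial : ℝ) * ((j + (m + 1)).factorial : ℝ)) with ha
  have h1 : HasSum (fun j : ℕ => a (j + 1)) (-(β * JN β (m + 2))) := by
    have h2 := ((JN_hasSum56 β (m + 2)).mul_left β).neg
    refine h2.congr_fun ?_
    intro j
    simp only [ha]
    have e1 : (((j + 1).factorial : ℕ) : ℝ) = (j + 1) * (j.factorial : ℝ) := by
      rw [Nat.factorial_succ]
      push_cast
      ring
    have e2 : j + 1 + (m + 1) = j + (m + 2) := by omega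
    have e3 : 2 * (j + 1) + (m + 1) = (2 * j + (m + 2)) + 1 := by omega
    have h3 : (0 : ℝ) < (j.factorial : ℝ) := by positivity
    have h4 : (0 : ℝ) < ((j + (m + 2)).factorial : ℝ) := by positivity
    have h5 : (0 : ℝ) < (j : ℝ) + 1 := by positivity
    rw [e1, e2, e3, pow_succ, pow_succ]
    push_cast
    field_simp
  have h2 : HasSum a (-(β * JN β (m + 2))) := by
    have h3 := (hasSum_nat_add_iff (f := a) 1).1 h1
    simpa [ha] using h3
  have h3 := ((JN_hasSum56 β m).mul_left β).sub h2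
  have h4 := (JN_hasSum56 β (m + 1)).mul_left ((m : ℝ) + 1)
  have h5 : (fun j : ℕ => β * ((-1 : ℝ) ^ j * β ^ (2 * j + m) / ((j.factorial : ℝ) * ((j + m).factorial : ℝ))) - a j) =
      fun j : ℕ => ((m : ℝ) + 1) * ((-1 : ℝ) ^ j * β ^ (2 * j + (m + 1)) / ((j.factorial : ℝ) * ((j + (m + 1)).factorial : ℝ))) := by
    funext j
    simp only [ha]
    have e1 : (((j + (m + 1)).factorial : ℕ) : ℝ) = (j + m + 1) * ((j + m).factorial : ℝ) := by
      rw [← Nat.add_assoc, Nat.factorial_succ]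
      push_cast
      ring
    have h6 : (0 : ℝ) < (j.factorial : ℝ) := by positivity
    have h7 : (0 : ℝ) < ((j + m).factorial : ℝ) := by positivity
    have h8 : (0 : ℝ) < (j : ℝ) + m + 1 := by positivity
    rw [e1, ← Nat.add_assoc, pow_succ β]
    field_simp
    ring
  rw [h5] at h3
  have h6 := h3.unique h4
  rw [← h6]
  ring

theorem JB_rec (β : ℝ) (k : ℤ) : β * (JB β (k - 1) + JB β (k + 1)) = k * JB β k := by
  obtain ⟨m, rfl | rfl⟩ := k.eq_nat_or_neg
  · rcases m with _ | m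
    · have e1 : ((0 : ℕ) : ℤ) - 1 = -((1 : ℕ) : ℤ) := by norm_num
      have e2 : ((0 : ℕ) : ℤ) + 1 = ((1 : ℕ) : ℤ) := by norm_num
      rw [e1, e2, JB_neg_natCast, JB_natCast]
      push_cast
      ring
    · have e1 : ((m + 1 : ℕ) : ℤ) - 1 = ((m : ℕ) : ℤ) := by push_cast; ring
      have e2 : ((m + 1 : ℕ) : ℤ) + 1 = ((m + 2 : ℕ) : ℤ) := by push_cast; ring
      rw [e1, e2, JB_natCast, JB_natCast, JB_natCast, JN_rec56]
      push_cast
      ring
  · rcases m with _ | m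
    · have e1 : -((0 : ℕ) : ℤ) - 1 = -((1 : ℕ) : ℤ) := by norm_num
      have e2 : -((0 : ℕ) : ℤ) + 1 = ((1 : ℕ) : ℤ) := by norm_num
      rw [e1, e2, JB_neg_natCast, JB_natCast]
      push_cast
      ring
    · have e1 : -((m + 1 : ℕ) : ℤ) - 1 = -((m + 2 : ℕ) : ℤ) := by push_cast; ring
      have e2 : -((m + 1 : ℕ) : ℤ) + 1 = -((m : ℕ) : ℤ) := by push_cast; ring
      rw [e1, e2, JB_neg_natCast, JB_neg_natCast, JB_neg_natCast]
      have h := JN_rec56 β m
      have h2 : ((-((m + 1 : ℕ) : ℤ) : ℤ) : ℝ) = -((m : ℝ) + 1) := by push_cast; ring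
      rw [h2, pow_add, pow_succ]
      linear_combination (-1 : ℝ) ^ m * h

end Pool.Agent.Helper97.TF6
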