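import Pool.Agent.Helper97.TF6.Bes

/-!
BLOCK TF6-BESO (about 200 lines). Bessel functions of integer order, part 2: orthonormality of the shifts. ONLY MATHLIB (and Bes.lean).

Proof. Put `E(m) = β^m/m!` (`m ≥ 0`), `0` (`m < 0`), `E'(m) = (-β)^m/m!`, `0` (`m < 0`). Then `J_m = ∑_b E(b+m) E'(b) = ∑_b E'(b-m) E(b)` (`b : ℕ`; the second form is `J_m = (-1)^m J_{-m}`), `E * E' = δ` (binomial theorem). So
`∑_x J_{x-i} J_{x-i'} = ∑_x ∑_b ∑_c E'(b+i-x) E(b) E(c+x-i') E'(c) = ∑_{b,c} E(b) E'(c) [b+c+i-i' = 0] = δ_{i,i'}` (sum over `x` first: `∑_x E'(b+i-x) E(c+x-i') = [b+c+i-i' = 0]`); everything is absolutely summable (`∑_x ∑_b ∑_c |…| ≤ exp(4β)`).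
(Another way: `a = (J_m)_{m ∈ ℤ}` are the coefficients of `exp(β(t - 1/t))`; the products of the absolutely convergent Laurent series of `exp(β t)`, `exp(-β/t)`. Or Parseval for this function of modulus `1` on the unit circle. Or: by `JB_rec` the derivative in `β` of the sum is zero.)
-/

set_option autoImplicit false

open Finset

namespace Pool.Agent.Helper97.TF6

/-- the coefficients of `exp (β t)` -/
private noncomputable def ee81 (β : ℝ) (m : ℤ) : ℝ := if 0 ≤ m then β ^ m.toNat / (m.toNat.factorial : ℝ) else 0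

private theorem ee81_nat (β : ℝ) (k : ℕ) : ee81 β (k : ℤ) = β ^ k / (k.factorial : ℝ) := by
  simp [ee81]

private theorem ee81_neg (β : ℝ) {m : ℤ} (h : m < 0) : ee81 β m = 0 := by
  unfold ee81
  rw [if_neg (not_le.2 h)]

private theorem ee81_abs (β : ℝ) (m : ℤ) : |ee81 β m| = ee81 |β| m := by
  unfold ee81
  split_ifs
  · rw [abs_div, abs_pow, Nat.abs_cast]
  · exact abs_zero

private theorem ee81_nonneg {β : ℝ} (hβ : 0 ≤ β) (m : ℤ) : 0 ≤ ee81 β m := by
  unfold ee81
  split_ifs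
  · positivity
  · exact le_rfl

private theorem notrange81 {m : ℤ} (h : m ∉ Set.range (fun k : ℕ => (k : ℤ))) : m < 0 := by
  by_contra h1
  exact h ⟨m.toNat, Int.toNat_of_nonneg (not_lt.1 h1)⟩

private theorem inj81 : Function.Injective (fun k : ℕ => (k : ℤ)) := fun _ _ h => Int.ofNat_inj.1 h

private theorem ee81_summable (β : ℝ) : Summable (ee81 β) := by
  rw [← inj81.summable_iff (f := ee81 β) fun m hm => ee81_neg β (notrange81 hm)]
  refine (Real.summable_pow_div_factorial β).congr fun k => ?_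
  exact (ee81_nat β k).symm

/-- binomial theorem -/
private theorem conv81 (β : ℝ) (n : ℤ) : HasSum (fun x : ℤ => ee81 (-β) (n - x) * ee81 β x) (if n = 0 then 1 else 0) := by
  rcases lt_or_ge n 0 with hn | hn
  · rw [if_neg hn.ne]
    have h1 : (fun x : ℤ => ee81 (-β) (n - x) * ee81 β x) = fun _ => 0 := by
      funext x
      rcases lt_or_ge x 0 with hx | hx
      · rw [ee81_neg β hx, mul_zero]
      · rw [ee81_neg (-β) (by omega), zero_mul]
    rw [h1]
    exact hasSum_zero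
  · obtain ⟨k, rfl⟩ := Int.eq_ofNat_of_zero_le hn
    rw [← inj81.hasSum_iff (f := fun x : ℤ => ee81 (-β) ((k : ℤ) - x) * ee81 β x) fun m hm => by
      rw [ee81_neg β (notrange81 hm), mul_zero]]
    have h1 : ∑ j ∈ range (k + 1), ((fun x : ℤ => ee81 (-β) ((k : ℤ) - x) * ee81 β x) ∘ fun j : ℕ => (j : ℤ)) j =
        if (k : ℤ) = 0 then 1 else 0 := by
      have h2 := (add_pow β (-β) k).symm
      rw [add_neg_cancel] at h2
      have h3 : ∀ j ∈ range (k + 1), ((fun x : ℤ => ee81 (-β) ((k : ℤ) - x) * ee81 β x) ∘ fun j : ℕ => (j : ℤ)) j =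
          (β ^ j * (-β) ^ (k - j) * (k.choose j : ℝ)) / (k.factorial : ℝ) := by
        intro j hj
        have hjk : j ≤ k := Nat.lt_succ_iff.1 (mem_range.1 hj)
        rw [Function.comp_apply]
        have e1 : (k : ℤ) - (j : ℤ) = ((k - j : ℕ) : ℤ) := by omega
        rw [e1, ee81_nat, ee81_nat, Nat.choose_eq_factorial_div_factorial hjk,
          Nat.cast_div (Nat.factorial_mul_factorial_dvd_factorial hjk) (by positivity), Nat.cast_mul]
        have f1 : ((k - j).factorial : ℝ) ≠ 0 := by positivity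
        have f2 : (j.factorial : ℝ) ≠ 0 := by positivity
        have f3 : (k.factorial : ℝ) ≠ 0 := by positivity
        field_simp
      rw [sum_congr rfl h3, ← sum_div, h2]
      rcases Nat.eq_zero_or_pos k with rfl | hk
      · simp
      · rw [zero_pow hk.ne', zero_div, if_neg (by omega)]
    rw [← h1]
    refine hasSum_sum_of_ne_finset_zero fun j hj => ?_
    rw [Function.comp_apply]
    have hjk : k < j := by
      by_contra h
      exact hj (mem_range.2 (by omega))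
    rw [ee81_neg (-β) (by omega), zero_mul]

private theorem conv81' (β : ℝ) (n : ℤ) : HasSum (fun x : ℤ => ee81 β x * ee81 (-β) (n - x)) (if n = 0 then 1 else 0) :=
  (conv81 β n).congr_fun fun x => mul_comm _ _

private theorem JB81 (β : ℝ) (m : ℤ) : HasSum (fun b : ℤ => ee81 (-β) (b - m) * ee81 β b) (JB β m) := by
  rcases lt_or_ge m 0 with hm | hm
  · obtain ⟨k, hk⟩ := Int.eq_ofNat_of_zero_le (a := -m) (by omega)
    have hm' : m = -(k : ℤ) := by omega
    subst hm'
    rw [JB_neg_natCast]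
    rw [← inj81.hasSum_iff (f := fun b : ℤ => ee81 (-β) (b - -(k : ℤ)) * ee81 β b) fun m hm => by
      rw [ee81_neg β (notrange81 hm), mul_zero]]
    refine (((JN_summable β k).hasSum).mul_left ((-1) ^ k)).congr_fun fun j => ?_
    rw [Function.comp_apply]
    have e1 : (j : ℤ) - -(k : ℤ) = ((j + k : ℕ) : ℤ) := by push_cast; ring
    rw [e1, ee81_nat, ee81_nat]
    have e2 : (-β) ^ (j + k) = (-1) ^ (j + k) * β ^ (j + k) := by rw [neg_pow]
    rw [e2]
    have f1 : ((j + k).factorial : ℝ) ≠ 0 := by positivity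
    have f2 : (j.factorial : ℝ) ≠ 0 := by positivity
    field_simp
    ring
  · obtain ⟨k, rfl⟩ := Int.eq_ofNat_of_zero_le hm
    have hi : Function.Injective (fun j : ℕ => (j : ℤ) + (k : ℤ)) := fun a b h => by
      have : (a : ℤ) + k = b + k := h
      omega
    rw [show ((k : ℕ) : ℤ) = (k : ℤ) from rfl, JB_natCast]
    rw [← hi.hasSum_iff (f := fun b : ℤ => ee81 (-β) (b - (k : ℤ)) * ee81 β b) fun m hm => by
      rw [ee81_neg (-β) (m := m - k), zero_mul]
      by_contra h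
      refine hm ⟨(m - k).toNat, ?_⟩
      simp only
      rw [Int.toNat_of_nonneg (not_lt.1 h)]
      ring]
    refine ((JN_summable β k).hasSum).congr_fun fun j => ?_
    rw [Function.comp_apply]
    have e1 : (j : ℤ) + (k : ℤ) - (k : ℤ) = (j : ℤ) := by ring
    have e3 : (j : ℤ) + (k : ℤ) = ((j + k : ℕ) : ℤ) := by push_cast; ring
    rw [e1, e3, ee81_nat, ee81_nat]
    have e2 : (-β) ^ j = (-1) ^ j * β ^ j := by rw [neg_pow]
    rw [e2]
    have f1 : ((j + k).factorial : ℝ) ≠ 0 := by positivity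
    have f2 : (j.factorial : ℝ) ≠ 0 := by positivity
    field_simp
    ring

private theorem JB81' (β : ℝ) (m : ℤ) : HasSum (fun c : ℤ => ee81 β (c + m) * ee81 (-β) c) (JB β m) := by
  have h1 := (Equiv.hasSum_iff (Equiv.addRight m)).2 (JB81 β m)
  refine h1.congr_fun fun c => ?_
  rw [Function.comp_apply, Equiv.coe_addRight, add_sub_cancel_right, mul_comm]

private theorem triple81 (β : ℝ) (i i' : ℤ) : Summable fun t : ℤ × (ℤ × ℤ) =>
    (ee81 (-β) (t.2.1 - (t.1 - i)) * ee81 β t.2.1) * (ee81 β (t.2.2 + (t.1 - i')) * ee81 (-β) t.2.2) := by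
  have hA := ee81_summable |β|
  have h0 : ∀ m, 0 ≤ ee81 |β| m := ee81_nonneg (abs_nonneg β)
  have hM : ∀ m, ee81 |β| m ≤ ∑' k, ee81 |β| k := fun m => hA.le_tsum m fun k _ => h0 k
  have h2 : Summable fun t : ℤ × ℤ => ee81 |β| t.1 * ee81 |β| t.2 := hA.mul_of_nonneg hA (fun m => h0 m) (fun m => h0 m)
  have h3 : Summable fun t : ℤ × (ℤ × ℤ) => ee81 |β| t.1 * (ee81 |β| t.2.1 * ee81 |β| t.2.2) :=
    hA.mul_of_nonneg h2 (fun m => h0 m) (fun t => mul_nonneg (h0 _) (h0 _))
  let φ : ℤ × (ℤ × ℤ) ≃ ℤ × (ℤ × ℤ) :=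
    { toFun := fun t => (t.2.1 - (t.1 - i), t.2)
      invFun := fun t => (t.2.1 - t.1 + i, t.2)
      left_inv := fun t => Prod.ext (by simp only; ring) rfl
      right_inv := fun t => Prod.ext (by simp only; ring) rfl }
  have h4 := ((Equiv.summable_iff φ).2 h3).mul_left (∑' k, ee81 |β| k)
  refine Summable.of_norm_bounded h4 fun t => ?_
  rw [Real.norm_eq_abs, abs_mul, abs_mul, abs_mul, ee81_abs, ee81_abs, ee81_abs, ee81_abs, abs_neg]
  change _ ≤ (∑' k, ee81 |β| k) * (ee81 |β| (t.2.1 - (t.1 - i)) * (ee81 |β| t.2.1 * ee81 |β| t.2.2))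
  calc ee81 |β| (t.2.1 - (t.1 - i)) * ee81 |β| t.2.1 * (ee81 |β| (t.2.2 + (t.1 - i')) * ee81 |β| t.2.2)
      = ee81 |β| (t.2.2 + (t.1 - i')) * (ee81 |β| (t.2.1 - (t.1 - i)) * (ee81 |β| t.2.1 * ee81 |β| t.2.2)) := by ring
    _ ≤ _ := mul_le_mul_of_nonneg_right (hM _) (mul_nonneg (h0 _) (mul_nonneg (h0 _) (h0 _)))

theorem JB_orth {β : ℝ} (hβ : 0 ≤ β) (i i' : ℤ) :
    HasSum (fun x : ℤ => JB β (x - i) * JB β (x - i')) (if i = i' then 1 else 0) := by
  have hT := triple81 β i i'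
  have h1 : HasSum (fun x : ℤ => JB β (x - i) * JB β (x - i')) _ :=
    hT.hasSum.prod_fiberwise fun x => (JB81 β (x - i)).mul (JB81' β (x - i')) (hT.prod_factor x)
  have hT2 := (Equiv.hasSum_iff (Equiv.prodComm (ℤ × ℤ) ℤ)).2 hT.hasSum
  have h2 : HasSum (fun t : ℤ × ℤ => ee81 β t.1 * ee81 (-β) t.2 * (if t.1 + t.2 + (i - i') = 0 then 1 else 0))
      (∑' t : ℤ × (ℤ × ℤ), (ee81 (-β) (t.2.1 - (t.1 - i)) * ee81 β t.2.1) * (ee81 β (t.2.2 + (t.1 - i')) * ee81 (-β) t.2.2)) := by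
    refine hT2.prod_fiberwise fun t => ?_
    have h3 := (conv81 β (t.1 + t.2 + (i - i'))).mul_left (ee81 β t.1 * ee81 (-β) t.2)
    have h4 := (Equiv.hasSum_iff (Equiv.addRight (t.2 - i'))).2 h3
    refine h4.congr_fun fun x => ?_
    rw [Function.comp_apply, Function.comp_apply, Equiv.coe_addRight, Equiv.prodComm_apply]
    change ee81 (-β) (t.1 - (x - i)) * ee81 β t.1 * (ee81 β (t.2 + (x - i')) * ee81 (-β) t.2) = _
    have e1 : t.1 + t.2 + (i - i') - (x + (t.2 - i')) = t.1 - (x - i) := by ring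
    have e2 : x + (t.2 - i') = t.2 + (x - i') := by ring
    rw [e1]
    change _ = ee81 β t.1 * ee81 (-β) t.2 * (ee81 (-β) (t.1 - (x - i)) * ee81 β (x + (t.2 - i')))
    rw [e2]
    ring
  have h3 : HasSum (fun b : ℤ => ee81 β b * ee81 (-β) ((i' - i) - b))
      (∑' t : ℤ × (ℤ × ℤ), (ee81 (-β) (t.2.1 - (t.1 - i)) * ee81 β t.2.1) * (ee81 β (t.2.2 + (t.1 - i')) * ee81 (-β) t.2.2)) := by
    refine h2.prod_fiberwise fun b => ?_
    have h4 : ee81 β b * ee81 (-β) ((i' - i) - b) =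
        ee81 β b * ee81 (-β) ((i' - i) - b) * (if b + ((i' - i) - b) + (i - i') = 0 then 1 else 0) := by
      rw [if_pos (by ring), mul_one]
    rw [h4]
    refine hasSum_single ((i' - i) - b) fun c hc => ?_
    rw [if_neg, mul_zero]
    intro h
    exact hc (by omega)
  have h4 := (conv81' β (i' - i)).unique h3
  rw [← h4] at h1
  have h5 : (if i' - i = 0 then (1 : ℝ) else 0) = if i = i' then 1 else 0 := by
    by_cases h : i = i'
    · rw [if_pos h, if_pos (by omega)]
    · rw [if_neg h, if_neg (by omega)]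
  rw [h5] at h1
  exact h1

theorem JB_sq {β : ℝ} (hβ : 0 ≤ β) (i : ℤ) : HasSum (fun x : ℤ => JB β (x - i) ^ 2) 1 := by
  have h := JB_orth hβ i i
  rw [if_pos rfl] at h
  exact h.congr_fun fun x => by ring

end Pool.Agent.Helper97.TF6
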