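import Pool.Agent.Helper97.TF6.Defs
import Pool.Agent.Helper96.RU.A4a

/-!
BLOCK TF6-CB (about 200 lines). Two facts on determinants. ONLY MATHLIB.

Proofs.
* `det_exp_le`: for a real matrix `R` (`m × n`): `det (1 + Rᵀ R) ≤ exp (∑ R i j ²)`: the eigenvalues `λ_i ≥ 0` of the positive semidefinite matrix `Rᵀ R` (`Matrix.IsHermitian.det_eq_prod_eigenvalues`, `det (1 + P) = ∏ (1 + λ_i)` by the spectral theorem, or the eigenvalues of `1 + Rᵀ R` are at least `1`, and `λ ≤ exp (λ - 1)`), `1 + λ ≤ exp λ`, `∑ λ_i = trace = ∑ R i j²`.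
* `cauchy_binet_le`: for a matrix `A` of size `M × N` and a finite set `P` of strictly decreasing maps `y : Fin N → Fin M`: `∑_{y ∈ P} det (A ∘ y)² ≤ det (Aᵀ A)` (a part of the Cauchy-Binet formula, e.g. `Matrix.det_mul'`: `det (Aᵀ A) = ∑_{f : Fin N → Fin M} ∏_i A (f i) i det (A ∘ f)`; only injective `f` count;
  every injective `f` is a unique strictly decreasing map composed with a permutation, `∑_{σ} ∏_i A (y (σ i)) i det (A ∘ y ∘ σ) = det (A ∘ y)²`; all terms are squares, so a part of them is at most the total). If Mathlib has a Cauchy-Binet formula, use it.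
-/

set_option autoImplicit false

open Finset

namespace Pool.Agent.Helper97.TF6

theorem det_exp_le {m n : Type} [Fintype m] [Fintype n] [DecidableEq n] (R : Matrix m n ℝ) :
    (1 + R.transpose * R).det ≤ Real.exp (∑ i, ∑ j, R i j ^ 2) := by
  classical
  have hP : (R.transpose * R).PosSemidef := by
    have := Matrix.posSemidef_conjTranspose_mul_self R
    rwa [Matrix.conjTranspose_eq_transpose_of_trivial] at this
  have hA : (1 + R.transpose * R).PosSemidef := Matrix.PosSemidef.one.add hP
  have hH := hA.isHermitian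
  have hdet : (1 + R.transpose * R).det = ∏ i, hH.eigenvalues i := by
    have := hH.det_eq_prod_eigenvalues
    simpa using this
  have htr : (1 + R.transpose * R).trace = ∑ i, hH.eigenvalues i := by
    have := hH.trace_eq_sum_eigenvalues
    simpa using this
  have htr2 : (1 + R.transpose * R).trace = (Fintype.card n : ℝ) + ∑ i, ∑ j, R i j ^ 2 := by
    rw [Matrix.trace_add, Matrix.trace_one]
    congr 1
    rw [Matrix.trace, Finset.sum_comm]
    refine Finset.sum_congr rfl fun j _ => ?_
    rw [Matrix.diag_apply, Matrix.mul_apply]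
    refine Finset.sum_congr rfl fun i _ => ?_
    rw [Matrix.transpose_apply, sq]
  have h1 : ∏ i, hH.eigenvalues i ≤ ∏ i, Real.exp (hH.eigenvalues i - 1) := by
    refine Finset.prod_le_prod (fun i _ => hA.eigenvalues_nonneg i) fun i _ => ?_
    have := Real.add_one_le_exp (hH.eigenvalues i - 1)
    linarith
  rw [hdet]
  refine h1.trans (le_of_eq ?_)
  rw [← Real.exp_sum]
  congr 1
  rw [Finset.sum_sub_distrib, ← htr, htr2, Finset.sum_const, Finset.card_univ]
  simp

private theorem expand97 {N M : ℕ} (A : Matrix (Fin M) (Fin N) ℝ) :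
    (A.transpose * A).det * (N.factorial : ℝ) =
      ∑ φ : Fin N → Fin M, (Matrix.of fun i j => A (φ i) j).det ^ 2 := by
  have h := Pool.Agent.RU.det_mul_transpose_expand A.transpose A.transpose
  rw [Matrix.transpose_transpose] at h
  rw [h]
  refine Finset.sum_congr rfl fun φ _ => ?_
  rw [sq]

theorem cauchy_binet_le {N M : ℕ} (A : Matrix (Fin M) (Fin N) ℝ) (P : Finset (Fin N → Fin M))
    (hP : ∀ y ∈ P, StrictAnti y) : ∑ y ∈ P, ((Matrix.of fun i j => A (y i) j).det) ^ 2 ≤ (A.transpose * A).det := by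
  classical
  have hf : (0 : ℝ) < (N.factorial : ℝ) := by exact_mod_cast N.factorial_pos
  refine le_of_mul_le_mul_right ?_ hf
  rw [expand97]
  set f : (Fin N → Fin M) → ℝ := fun φ => (Matrix.of fun i j => A (φ i) j).det ^ 2 with hfd
  have hcomp : ∀ φ (σ : Equiv.Perm (Fin N)), f (φ ∘ σ) = f φ := by
    intro φ σ
    have h := Matrix.det_permute σ (Matrix.of fun i j => A (φ i) j)
    have h1 : (Matrix.of fun i j => A ((φ ∘ σ) i) j).det =
        ((Equiv.Perm.sign σ : ℤ) : ℝ) * (Matrix.of fun i j => A (φ i) j).det := by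
      rw [← h]; rfl
    show (Matrix.of fun i j => A ((φ ∘ σ) i) j).det ^ 2 = (Matrix.of fun i j => A (φ i) j).det ^ 2
    rw [h1]
    have h2 : (((Equiv.Perm.sign σ : ℤ) : ℝ)) ^ 2 = 1 := by
      rcases Int.units_eq_one_or (Equiv.Perm.sign σ) with h | h <;> rw [h] <;> norm_num
    rw [mul_pow, h2, one_mul]
  -- the map `(y, σ) ↦ y ∘ σ` is injective on `P × Perm`
  have hinj : Set.InjOn (fun p : (Fin N → Fin M) × Equiv.Perm (Fin N) => p.1 ∘ p.2)
      ((P ×ˢ (univ : Finset (Equiv.Perm (Fin N)))) : Set ((Fin N → Fin M) × Equiv.Perm (Fin N))) := by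
    rintro ⟨y, σ⟩ h1 ⟨z, τ⟩ h2 h3
    have hy : StrictAnti y := hP y (by simpa using h1.1)
    have hz : StrictAnti z := hP z (by simpa using h2.1)
    have h3' : y ∘ σ = z ∘ τ := h3
    have hyz : y = z := by
      -- both are strictly antitone with the same range
      have hr : Set.range y = Set.range z := by
        have e1 : Set.range (y ∘ σ) = Set.range y := σ.surjective.range_comp y
        have e2 : Set.range (z ∘ τ) = Set.range z := τ.surjective.range_comp z
        rw [← e1, ← e2, h3']
      have hy' : StrictMono (y ∘ Fin.rev) := fun a b hab => hy (Fin.rev_lt_rev.2 hab)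
      have hz' : StrictMono (z ∘ Fin.rev) := fun a b hab => hz (Fin.rev_lt_rev.2 hab)
      have hr' : Set.range (y ∘ Fin.rev) = Set.range (z ∘ Fin.rev) := by
        rw [Fin.rev_surjective.range_comp y, Fin.rev_surjective.range_comp z, hr]
      have h4 : y ∘ Fin.rev = z ∘ Fin.rev := by
        exact (StrictMono.range_inj hy' hz').1 hr'
      funext i
      have := congrFun h4 (Fin.rev i)
      simpa using this
    subst hyz
    have h5 : σ = τ := by
      refine Equiv.ext fun i => hy.injective ?_
      exact congrFun h3' i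
    rw [h5]
  have h1 : (∑ y ∈ P, f y) * (N.factorial : ℝ) = ∑ φ ∈ (P ×ˢ (univ : Finset (Equiv.Perm (Fin N)))).image
      (fun p : (Fin N → Fin M) × Equiv.Perm (Fin N) => p.1 ∘ p.2), f φ := by
    rw [Finset.sum_image (fun a ha b hb h => hinj (by simpa using ha) (by simpa using hb) h), Finset.sum_product]
    simp only [hcomp]
    rw [Finset.sum_congr rfl fun y _ => Finset.sum_const (f y), ← Finset.smul_sum, Finset.card_univ,
      Fintype.card_perm, Fintype.card_fin, nsmul_eq_mul, mul_comm]
  show (∑ y ∈ P, f y) * (N.factorial : ℝ) ≤ ∑ φ, f φ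
  rw [h1]
  exact Finset.sum_le_sum_of_subset_of_nonneg (Finset.subset_univ _) fun φ _ _ => sq_nonneg _

end Pool.Agent.Helper97.TF6
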