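import Pool.Agent.Helper97.TF6.Wave
import Pool.Agent.Helper97.TF6.CB

/-!
BLOCK TF6-CB2 (about 200 lines). Only hooks are needed. ONLY MATHLIB (and CB.lean; Wave.lean: `Rm_lt`, `Rm_row`; Lag.lean: `Bm_det`).

Proof of `cb`: put `y i = bd κ i = κ i + (N - 1 - i)` (strictly decreasing; `κ i ≤ s ≤ S` so `y i < N + S`), `A y` = the row `gB β y (x ·)`. `A y = ∑_i Rm y i (row i of Bm)`, so `det (A ∘ y) = det (Rm (y i) l)_{i,l} * det Bm`, and the same with `y i = N - 1 - i` has the first determinant `± 1`; so `dq β x κ ^ 2 = (det (Rm (y i) l)_{i,l})²`. With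
`M y l = v^(y - l) Rm y l` (`v = √w > 0`, integer exponents) for `y : Fin (N + S)` one has `(det (M ∘ y))² = w^(∑ y i - ∑ l) (det (Rm ∘ y))² = w^s (det (Rm ∘ y))²`. By `cauchy_binet_le` the left side is at most `det (Mᵀ M)`. For `y < N` `M y l = δ_{y l}` (`Rm_lt`), so `Mᵀ M = 1 + Rᵀ R`, `R a l = M (N + a) l`, `a < S`, and `(R a (N-1-b))² = w^(a+b+1) KK a b²`; `det_exp_le`.
The `κ` of different `P s` or of the same `P s` give different `y` (`∑ κ i = s`).
-/

set_option autoImplicit false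

open Finset

namespace Pool.Agent.Helper97.TF6

/-- The determinant of the beads of `κ` divided by the one of the empty partition. -/
noncomputable def dq {N : ℕ} (β : ℝ) (x : Fin N → ℕ) (κ : Fin N → ℕ) : ℝ :=
  (Matrix.of fun i j : Fin N => gB β (bd κ i) (x j)).det / (Matrix.of fun i j : Fin N => gB β (N - 1 - (i : ℕ)) (x j)).det

/-- rows in terms of the rows `< N` -/
private theorem det_rows21 {N : ℕ} {β : ℝ} (hβ : 0 < β) {x : Fin N → ℕ} (hx : Function.Injective x)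
    (y : Fin N → ℕ) : (Matrix.of fun i j : Fin N => gB β (y i) (x j)).det =
      (Matrix.of fun i l : Fin N => Rm β x (y i) l).det * (Bm β x).det := by
  rw [← Matrix.det_mul]
  congr 1
  ext i j
  rw [Matrix.mul_apply]
  simp only [Matrix.of_apply, Bm]
  exact Rm_row hβ hx (y i) j

private theorem det_rev21 {N : ℕ} {β : ℝ} (hβ : 0 < β) {x : Fin N → ℕ} (hx : Function.Injective x) :
    (Matrix.of fun i l : Fin N => Rm β x (N - 1 - (i : ℕ)) l).det ^ 2 = 1 := by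
  have h : (Matrix.of fun i l : Fin N => Rm β x (N - 1 - (i : ℕ)) l) =
      (1 : Matrix (Fin N) (Fin N) ℝ).submatrix Fin.revPerm id := by
    ext i l
    have h1 : N - 1 - (i : ℕ) = ((Fin.rev i : Fin N) : ℕ) := by
      rw [Fin.val_rev]; omega
    rw [Matrix.of_apply, h1, Rm_lt hβ hx (Fin.rev i) l, Matrix.submatrix_apply, Matrix.one_apply,
      Fin.revPerm_apply, id]
    simp only [eq_comm]
  rw [h, Matrix.det_permute, Matrix.det_one, mul_one]
  rcases Int.units_eq_one_or (Equiv.Perm.sign (Fin.revPerm : Equiv.Perm (Fin N))) with h | h <;>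
    simp [h]

private theorem dq_sq21 {N : ℕ} {β : ℝ} (hβ : 0 < β) {x : Fin N → ℕ} (hx : Function.Injective x)
    (κ : Fin N → ℕ) : dq β x κ ^ 2 = (Matrix.of fun i l : Fin N => Rm β x (bd κ i) l).det ^ 2 := by
  unfold dq
  rw [det_rows21 hβ hx, det_rows21 hβ hx (fun i => N - 1 - (i : ℕ)),
    mul_div_mul_right _ _ (Bm_det hβ hx), div_pow, det_rev21 hβ hx, div_one]

/-- the weighted matrix -/
private noncomputable def MM21 {N : ℕ} (β : ℝ) (x : Fin N → ℕ) (v : ℝ) (S : ℕ) :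
    Matrix (Fin (N + S)) (Fin N) ℝ :=
  Matrix.of fun y l => v ^ (((y : ℕ) : ℤ) - ((l : ℕ) : ℤ)) * Rm β x (y : ℕ) l

/-- the places of the beads -/
private def yy21 {N : ℕ} (S : ℕ) (κ : Fin N → ℕ) (i : Fin N) : Fin (N + S) :=
  ⟨min (bd κ i) (N + S - 1), by have := i.2; omega⟩

private theorem yy_val21 {N S s : ℕ} {κ : Fin N → ℕ} (hs : s ≤ S) (hκ : ∑ i, κ i = s) (i : Fin N) :
    ((yy21 S κ i : Fin (N + S)) : ℕ) = bd κ i := by
  have h1 : κ i ≤ s := by rw [← hκ]; exact single_le_sum (fun _ _ => Nat.zero_le _) (mem_univ i)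
  have h2 := i.2
  unfold yy21 bd
  simp only
  omega

private theorem det_MM21 {N S s : ℕ} {β : ℝ} {x : Fin N → ℕ} {v : ℝ} (hv : 0 < v) {κ : Fin N → ℕ}
    (hs : s ≤ S) (hκ : ∑ i, κ i = s) :
    (Matrix.of fun i j => MM21 β x v S (yy21 S κ i) j).det =
      v ^ s * (Matrix.of fun i l : Fin N => Rm β x (bd κ i) l).det := by
  have h1 : (Matrix.of fun i j => MM21 β x v S (yy21 S κ i) j) =
      Matrix.of fun i j => v ^ ((bd κ i : ℕ) : ℤ) *
        (Matrix.of fun i j : Fin N => v ^ (-((j : ℕ) : ℤ)) *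
          (Matrix.of fun i l : Fin N => Rm β x (bd κ i) l) i j) i j := by
    ext i j
    simp only [Matrix.of_apply, MM21, yy_val21 hs hκ i]
    rw [← mul_assoc, ← zpow_add₀ hv.ne', sub_eq_add_neg]
  rw [h1, Matrix.det_mul_column, Matrix.det_mul_row, ← mul_assoc]
  congr 1
  have h2 : ∀ f : Fin N → ℤ, ∏ i, v ^ f i = v ^ ∑ i, f i := by
    intro f
    induction (univ : Finset (Fin N)) using Finset.induction_on with
    | empty => simp
    | insert a t ha ih => rw [prod_insert ha, sum_insert ha, ih, zpow_add₀ hv.ne']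
  rw [h2, h2, ← zpow_add₀ hv.ne']
  have h3 : ∑ i : Fin N, (((bd κ i : ℕ) : ℤ)) + ∑ i : Fin N, (-((i : ℕ) : ℤ)) = (s : ℤ) := by
    have h4 : ∑ i : Fin N, (((N - 1 - (i : ℕ) : ℕ) : ℤ)) = ∑ i : Fin N, (((i : ℕ) : ℤ)) := by
      refine Fintype.sum_equiv Fin.revPerm _ _ fun i => ?_
      rw [Fin.revPerm_apply, Fin.val_rev]
      have := i.2
      congr 1
      omega
    have h5 : ∑ i : Fin N, (((bd κ i : ℕ) : ℤ)) = (s : ℤ) + ∑ i : Fin N, (((i : ℕ) : ℤ)) := by
      rw [← h4, ← hκ]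
      unfold bd
      push_cast
      rw [sum_add_distrib]
    rw [h5, sum_neg_distrib]
    ring
  rw [h3, zpow_natCast]

private theorem MtM21 {N S : ℕ} {β : ℝ} (hβ : 0 < β) {x : Fin N → ℕ} (hx : Function.Injective x)
    {v : ℝ} (hv : 0 < v) : (MM21 β x v S).transpose * MM21 β x v S =
      1 + (Matrix.of fun (a : Fin S) (l : Fin N) => MM21 β x v S (Fin.natAdd N a) l).transpose *
        (Matrix.of fun (a : Fin S) (l : Fin N) => MM21 β x v S (Fin.natAdd N a) l) := by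
  have hd : ∀ y l : Fin N, MM21 β x v S (Fin.castAdd S y) l = if l = y then 1 else 0 := by
    intro y l
    unfold MM21
    rw [Matrix.of_apply, Fin.val_castAdd, Rm_lt hβ hx y l]
    split_ifs with h
    · rw [h, sub_self, zpow_zero, mul_one]
    · rw [mul_zero]
  ext l l'
  rw [Matrix.mul_apply, Matrix.add_apply, Matrix.mul_apply, Fin.sum_univ_add]
  simp only [Matrix.transpose_apply, Matrix.of_apply, hd]
  congr 1
  rw [Matrix.one_apply]
  simp only [ite_mul, one_mul, zero_mul]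
  rw [Finset.sum_ite_eq univ l]
  simp only [mem_univ, if_true, eq_comm]

theorem cb {N : ℕ} {β : ℝ} (hβ : 0 < β) {x : Fin N → ℕ} (hx : Function.Injective x) {w : ℝ} (hw : 0 < w) (S : ℕ)
    (P : ℕ → Finset (Fin N → ℕ)) (hP : ∀ s, ∀ κ ∈ P s, Antitone κ ∧ ∑ i, κ i = s) :
    ∑ s ∈ range (S + 1), w ^ s * ∑ κ ∈ P s, dq β x κ ^ 2 ≤
      Real.exp (∑ a ∈ range S, ∑ b ∈ range N, w ^ (a + b + 1) * KK β x a b ^ 2) := by
  classical
  obtain ⟨v, hv, hvw⟩ : ∃ v : ℝ, 0 < v ∧ v ^ 2 = w :=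
    ⟨Real.sqrt w, Real.sqrt_pos.2 hw, Real.sq_sqrt hw.le⟩
  -- the left side as a sum over a set of decreasing maps
  set Q : Finset ((_ : ℕ) × (Fin N → ℕ)) := (range (S + 1)).sigma P with hQ
  have hmem : ∀ p ∈ Q, p.1 ≤ S ∧ Antitone p.2 ∧ ∑ i, p.2 i = p.1 := by
    intro p hp
    rw [hQ, mem_sigma, mem_range] at hp
    exact ⟨by omega, (hP _ _ hp.2).1, (hP _ _ hp.2).2⟩
  have hinj : Set.InjOn (fun p : (_ : ℕ) × (Fin N → ℕ) => (yy21 S p.2 : Fin N → Fin (N + S))) Q := by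
    rintro ⟨s, κ⟩ hp ⟨s', κ'⟩ hp' h
    obtain ⟨h1, -, h2⟩ := hmem _ hp
    obtain ⟨h1', -, h2'⟩ := hmem _ hp'
    simp only at h1 h2 h1' h2' h
    have h3 : κ = κ' := by
      funext i
      have h4 := congrArg (fun y : Fin N → Fin (N + S) => ((y i : Fin (N + S)) : ℕ)) h
      simp only [yy_val21 h1 h2 i, yy_val21 h1' h2' i] at h4
      unfold bd at h4
      omega
    subst h3
    have h5 : s = s' := by rw [← h2, ← h2']
    subst h5
    rfl
  have hlhs : ∑ s ∈ range (S + 1), w ^ s * ∑ κ ∈ P s, dq β x κ ^ 2 =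
      ∑ y ∈ Q.image (fun p : (_ : ℕ) × (Fin N → ℕ) => (yy21 S p.2 : Fin N → Fin (N + S))),
        ((Matrix.of fun i j => MM21 β x v S (y i) j).det) ^ 2 := by
    rw [sum_image hinj, hQ, sum_sigma]
    refine sum_congr rfl fun s hs => ?_
    rw [mul_sum]
    refine sum_congr rfl fun κ hκ => ?_
    have hs' : s ≤ S := by rw [mem_range] at hs; omega
    simp only
    rw [det_MM21 hv hs' (hP s κ hκ).2, mul_pow, ← pow_mul, mul_comm s 2, pow_mul, hvw,
      dq_sq21 hβ hx κ]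
  have hanti : ∀ y ∈ Q.image (fun p : (_ : ℕ) × (Fin N → ℕ) => (yy21 S p.2 : Fin N → Fin (N + S))),
      StrictAnti y := by
    intro y hy
    obtain ⟨⟨s, κ⟩, hp, rfl⟩ := mem_image.1 hy
    obtain ⟨h1, h2, h3⟩ := hmem _ hp
    simp only at h1 h2 h3 ⊢
    intro i j hij
    rw [Fin.lt_def, yy_val21 h1 h3 i, yy_val21 h1 h3 j]
    have h4 := h2 hij.le
    have h5 : (i : ℕ) < (j : ℕ) := hij
    have h6 := j.2
    unfold bd
    omega
  rw [hlhs]
  refine (cauchy_binet_le (MM21 β x v S) _ hanti).trans ?_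
  rw [MtM21 hβ hx hv]
  refine (det_exp_le _).trans (le_of_eq ?_)
  congr 1
  rw [sum_range]
  refine sum_congr rfl fun a _ => ?_
  rw [sum_range]
  refine Fintype.sum_equiv Fin.revPerm _ _ fun l => ?_
  rw [Fin.revPerm_apply, Fin.val_rev]
  have hl := l.2
  have hb : N - ((l : ℕ) + 1) < N := by omega
  unfold KK
  rw [dif_pos hb, mul_pow, ← pow_mul, mul_comm _ 2, pow_mul (-1 : ℝ) 2, neg_one_sq, one_pow, one_mul]
  have h1 : (⟨N - 1 - (N - ((l : ℕ) + 1)), by omega⟩ : Fin N) = l := by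
    apply Fin.ext
    simp only
    omega
  rw [h1]
  simp only [Matrix.of_apply, MM21, Fin.val_natAdd]
  rw [mul_pow]
  congr 1
  have h2 : (((N + (a : ℕ) : ℕ) : ℤ) - ((l : ℕ) : ℤ)) = (((a : ℕ) + (N - ((l : ℕ) + 1)) + 1 : ℕ) : ℤ) := by
    omega
  rw [h2, zpow_natCast, ← pow_mul, mul_comm _ 2, pow_mul, hvw]

end Pool.Agent.Helper97.TF6
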