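import Pool.Agent.Helper97.TF6.Ait
import Pool.Agent.Helper96.RU.A4a

/-!
BLOCK TF6-CB3 (about 200 lines). The Cauchy-Binet formula for the matrix `gB`. Only determinants.

Proofs.
* `cauchy_binet`: for `A B : Fin N × Fin M`: `det (A Bᵀ) = ∑_{z : Fin N → Fin M strictly decreasing} det (A_{·,z}) det (B_{·,z})`. Multilinearity (`Matrix.det_mul'`/`Matrix.det_apply`): `det (A Bᵀ) = ∑_{f : Fin N → Fin M} (∏_i B i (f i)) det (A_{i, f j})`...; the terms with `f` not injective are `0`; an injective `f` is `z ∘ σ` for a unique strictly decreasing `z` and a permutation `σ`;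
  `∑_σ ∏_j B j (z (σ j)) det (A_{·, z ∘ σ}) = det (A_{·,z}) ∑_σ sign σ ∏_j B j (z (σ j)) = det (A_{·,z}) det (B_{·,z})`. (Helper97/TF6/CB.lean has the inequality version; its author may have a general lemma.)
* `gB_cb`: let `M = N + s`, `A i z = (-β)^(y i - z) fi (y i) z`, `B j z = β^(x j - z) fi (x j) z`, `y = bd ν`. `gB β (y i) (x j) = ∑_{z < M} A i z * B j z` because `A i z = 0` for `z > y i`, `y i ≤ N - 1 + s < M`, and `B j z = 0` for `z > x j`. The strictly decreasing `z : Fin N → Fin M` are the `bd κ` with `κ` antitone (`κ l = z l - (N - 1 - l)`), `κ 0 ≤ s` (`z 0 < N + s`). The terms with some `κ l > ν l` vanish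
  (a zero block as in `det_fi_zero`), so `κ l ≤ ν l`, `∑ κ ≤ s`; these `κ` are in `PP N j` with `j = ∑ κ ≤ s`, and every `κ ∈ PP N j`, `j ≤ s`, is antitone with `κ 0 ≤ s`.
-/

set_option autoImplicit false

open Finset Equiv Module Pool.Agent.Helper51.TF

namespace Pool.Agent.Helper97.TF6

private theorem expand38 {N M : ℕ} (A B : Matrix (Fin N) (Fin M) ℝ) :
    (A * B.transpose).det * (N.factorial : ℝ) =
      ∑ φ : Fin N → Fin M, (Matrix.of fun i l => A i (φ l)).det * (Matrix.of fun i l => B i (φ l)).det := by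
  rw [Pool.Agent.RU.det_mul_transpose_expand A B]
  refine Finset.sum_congr rfl fun φ _ => ?_
  rw [← Matrix.det_transpose (Matrix.of fun i => A.transpose (φ i)), ← Matrix.det_transpose (Matrix.of fun i => B.transpose (φ i))]
  rfl

private theorem det_noninj38 {N M : ℕ} (A : Matrix (Fin N) (Fin M) ℝ) (φ : Fin N → Fin M) (h : ¬ Function.Injective φ) :
    (Matrix.of fun i l => A i (φ l)).det = 0 := by
  rw [Function.not_injective_iff] at h
  obtain ⟨a, b, hab, hne⟩ := h
  refine Matrix.det_zero_of_column_eq hne fun k => ?_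
  rw [Matrix.of_apply, Matrix.of_apply, hab]

private theorem det_comp38 {N M : ℕ} (A : Matrix (Fin N) (Fin M) ℝ) (φ : Fin N → Fin M) (σ : Perm (Fin N)) :
    (Matrix.of fun i l => A i ((φ ∘ σ) l)).det = ((Perm.sign σ : ℤ) : ℝ) * (Matrix.of fun i l => A i (φ l)).det := by
  have h := Matrix.det_permute' σ (Matrix.of fun i l => A i (φ l))
  rw [← h]
  rfl

private theorem perm_one38 {N M : ℕ} (φ : Fin N → Fin M) (h : Function.Injective φ) :
    (univ.filter fun σ : Perm (Fin N) => StrictAnti (φ ∘ σ)).card = 1 := by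
  classical
  rw [Finset.card_eq_one]
  refine ⟨Fin.revPerm.trans (Tuple.sort φ), ?_⟩
  ext σ
  rw [Finset.mem_filter, Finset.mem_singleton]
  constructor
  · rintro ⟨-, hσ⟩
    have h1 : Monotone (φ ∘ (Fin.revPerm.trans σ : Perm (Fin N))) := by
      intro a b hab
      exact hσ.antitone (Fin.rev_le_rev.2 hab)
    have h2 := Tuple.comp_sort_eq_comp_iff_monotone.2 h1
    have h3 : (Fin.revPerm.trans σ : Perm (Fin N)) = Tuple.sort φ := by
      refine Equiv.ext fun a => h ?_
      exact congrFun h2 a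
    rw [← h3]
    refine Equiv.ext fun a => ?_
    simp
  · rintro rfl
    refine ⟨Finset.mem_univ _, ?_⟩
    have h1 : StrictMono (φ ∘ Tuple.sort φ) := (Tuple.monotone_sort φ).strictMono_of_injective (h.comp (Tuple.sort φ).injective)
    intro a b hab
    exact h1 (Fin.rev_lt_rev.2 hab)

private theorem zero_block38 {N : ℕ} (W : Matrix (Fin N) (Fin N) ℝ) (a : Fin N) (h : ∀ i l, a ≤ i → l ≤ a → W i l = 0) : W.det = 0 := by
  rw [Matrix.det_apply]
  refine Finset.sum_eq_zero fun σ _ => ?_
  have h1 : ∃ l, l ≤ a ∧ a ≤ σ l := by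
    by_contra hc
    push Not at hc
    have h2 : (Finset.Iic a).map σ.toEmbedding ⊆ Finset.Iio a := by
      intro x hx
      rw [Finset.mem_map] at hx
      obtain ⟨l, hl, rfl⟩ := hx
      rw [Finset.mem_Iic] at hl
      rw [Finset.mem_Iio]
      exact hc l hl
    have h3 := Finset.card_le_card h2
    rw [Finset.card_map, Fin.card_Iic, Fin.card_Iio] at h3
    omega
  obtain ⟨l, hl, hl'⟩ := h1
  have h4 : ∏ i, W (σ i) i = 0 := Finset.prod_eq_zero (Finset.mem_univ l) (h _ _ hl' hl)
  rw [h4, smul_zero]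

theorem cauchy_binet {N M : ℕ} (A B : Matrix (Fin N) (Fin M) ℝ) :
    (A * B.transpose).det = ∑ z ∈ (univ : Finset (Fin N → Fin M)).filter (fun z => ∀ i j, i < j → z j < z i),
      (Matrix.of fun i l => A i (z l)).det * (Matrix.of fun i l => B i (z l)).det := by
  classical
  have hf : (N.factorial : ℝ) ≠ 0 := by exact_mod_cast N.factorial_ne_zero
  refine mul_right_cancel₀ hf ?_
  rw [expand38]
  set f : (Fin N → Fin M) → ℝ := fun φ => (Matrix.of fun i l => A i (φ l)).det * (Matrix.of fun i l => B i (φ l)).det with hfdef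
  have hcomp : ∀ φ (σ : Perm (Fin N)), f (φ ∘ σ) = f φ := by
    intro φ σ
    have h1 : ((Perm.sign σ : ℤ) : ℝ) * ((Perm.sign σ : ℤ) : ℝ) = 1 := by
      rcases Int.units_eq_one_or (Perm.sign σ) with h | h <;> rw [h] <;> norm_num
    show (Matrix.of fun i l => A i ((φ ∘ σ) l)).det * (Matrix.of fun i l => B i ((φ ∘ σ) l)).det =
      (Matrix.of fun i l => A i (φ l)).det * (Matrix.of fun i l => B i (φ l)).det
    rw [det_comp38, det_comp38]
    linear_combination ((Matrix.of fun i l => A i (φ l)).det * (Matrix.of fun i l => B i (φ l)).det) * h1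
  have h0 : ∀ φ : Fin N → Fin M, f φ = ∑ σ : Perm (Fin N), if StrictAnti (φ ∘ σ) then f φ else 0 := by
    intro φ
    by_cases h : Function.Injective φ
    · rw [← Finset.sum_filter, Finset.sum_const, perm_one38 φ h, one_smul]
    · have h1 : f φ = 0 := by
        show (Matrix.of fun i l => A i (φ l)).det * _ = 0
        rw [det_noninj38 A φ h, zero_mul]
      rw [h1]
      simp
  have h1 : ∀ σ : Perm (Fin N), ∑ φ : Fin N → Fin M, (if StrictAnti (φ ∘ σ) then f φ else 0) =
      ∑ φ : Fin N → Fin M, if StrictAnti φ then f φ else 0 := by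
    intro σ
    refine Fintype.sum_equiv (Equiv.arrowCongr σ.symm (Equiv.refl (Fin M))) _ _ fun φ => ?_
    have h2 : (Equiv.arrowCongr σ.symm (Equiv.refl (Fin M))) φ = φ ∘ σ := rfl
    rw [h2, hcomp]
  rw [Finset.sum_congr rfl fun φ _ => h0 φ, Finset.sum_comm, Finset.sum_congr rfl fun σ _ => h1 σ, Finset.sum_const,
    Finset.card_univ, Fintype.card_perm, Fintype.card_fin, nsmul_eq_mul, mul_comm, ← Finset.sum_filter]
  congr 1

theorem gB_cb {N s : ℕ} (β : ℝ) (x : Fin N → ℕ) {ν : Fin N → ℕ} (hν : ν ∈ PP N s) :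
    (Matrix.of fun i j : Fin N => gB β (bd ν i) (x j)).det =
      ∑ j ∈ range (s + 1), ∑ κ ∈ PP N j,
        (Matrix.of fun i l : Fin N => (-β) ^ (bd ν i - bd κ l) * fi (bd ν i) (bd κ l)).det *
          (Matrix.of fun i l : Fin N => β ^ (x i - bd κ l) * fi (x i) (bd κ l)).det := by
  classical
  have hν1 := (mem_PP.1 hν).1
  have hν2 := (mem_PP.1 hν).2
  have hνle : ∀ i, ν i ≤ s := fun i => by
    rw [← hν2]
    exact Finset.single_le_sum (f := ν) (fun _ _ => Nat.zero_le _) (Finset.mem_univ i)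
  have hy : ∀ i, bd ν i < N + s := by
    intro i
    unfold bd
    have := hνle i
    have := i.2
    omega
  set A : Matrix (Fin N) (Fin (N + s)) ℝ := Matrix.of fun i z => (-β) ^ (bd ν i - (z : ℕ)) * fi (bd ν i) z with hA
  set B : Matrix (Fin N) (Fin (N + s)) ℝ := Matrix.of fun i z => β ^ (x i - (z : ℕ)) * fi (x i) z with hB
  have hAB : (Matrix.of fun i j : Fin N => gB β (bd ν i) (x j)) = A * B.transpose := by
    ext i j
    rw [Matrix.of_apply, Matrix.mul_apply]
    have h1 : ∀ z : Fin (N + s), A i z * B.transpose z j =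
        (fun z : ℕ => (-β) ^ (bd ν i - z) * fi (bd ν i) z * (β ^ (x j - z) * fi (x j) z)) (z : ℕ) := fun z => rfl
    rw [Finset.sum_congr rfl fun z _ => h1 z,
      Fin.sum_univ_eq_sum_range (fun z : ℕ => (-β) ^ (bd ν i - z) * fi (bd ν i) z * (β ^ (x j - z) * fi (x j) z)) (N + s)]
    unfold gB
    have h2 : range (min (x j) (bd ν i) + 1) ⊆ range (N + s) := by
      intro z hz
      rw [mem_range] at hz ⊢
      have := hy i
      omega
    rw [← Finset.sum_subset h2]
    · refine Finset.sum_congr rfl fun z hz => ?_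
      rw [mem_range] at hz
      unfold fi
      rw [if_pos (by omega), if_pos (by omega)]
      field_simp
    · intro z _ hz
      rw [mem_range, not_lt] at hz
      unfold fi
      by_cases h3 : z ≤ bd ν i
      · rw [if_neg (show ¬ z ≤ x j by omega), mul_zero, mul_zero]
      · rw [if_neg h3, mul_zero, zero_mul]
  rw [hAB, cauchy_binet]
  -- the right side as a sum over one set
  have hdisj : (↑(range (s + 1)) : Set ℕ).PairwiseDisjoint (PP N) := by
    intro a _ b _ hab
    rw [Function.onFun, Finset.disjoint_left]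
    intro κ h1 h2
    exact hab ((mem_PP.1 h1).2.symm.trans (mem_PP.1 h2).2)
  rw [← Finset.sum_biUnion hdisj]
  have hK : ∀ κ, κ ∈ (range (s + 1)).biUnion (PP N) ↔ Antitone κ ∧ ∑ i, κ i ≤ s := by
    intro κ
    rw [Finset.mem_biUnion]
    constructor
    · rintro ⟨j, hj, h⟩
      rw [mem_range] at hj
      exact ⟨(mem_PP.1 h).1, by rw [(mem_PP.1 h).2]; omega⟩
    · rintro ⟨h1, h2⟩
      exact ⟨∑ i, κ i, mem_range.2 (by omega), mem_PP.2 ⟨h1, rfl⟩⟩
  have hbd : ∀ κ, κ ∈ (range (s + 1)).biUnion (PP N) → ∀ i, bd κ i < N + s := by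
    intro κ hκ i
    have h1 : κ i ≤ ∑ i, κ i := Finset.single_le_sum (f := κ) (fun _ _ => Nat.zero_le _) (Finset.mem_univ i)
    have h2 := ((hK κ).1 hκ).2
    have := i.2
    unfold bd
    omega
  have hanti : ∀ κ : Fin N → ℕ, Antitone κ → ∀ i j : Fin N, i < j → bd κ j < bd κ i := by
    intro κ hκ i j hij
    have h1 := hκ hij.le
    have h2 : (i : ℕ) < (j : ℕ) := hij
    have := j.2
    unfold bd
    omega
  symm
  refine Finset.sum_bij_ne_zero (fun κ hκ _ i => ⟨bd κ i, hbd κ hκ i⟩) ?_ ?_ ?_ ?_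
  · intro κ hκ _
    rw [Finset.mem_filter]
    exact ⟨Finset.mem_univ _, fun i j hij => hanti κ ((hK κ).1 hκ).1 i j hij⟩
  · intro κ h1 _ κ' h2 _ h
    funext i
    have h3 := congrArg Fin.val (congrFun h i)
    have h4 : bd κ i = bd κ' i := h3
    unfold bd at h4
    omega
  · intro z hz hne
    rw [Finset.mem_filter] at hz
    have hz' := hz.2
    -- `z l ≥ N - 1 - l`
    have hge : ∀ d : ℕ, ∀ l : Fin N, (l : ℕ) + d = N - 1 → d ≤ (z l : ℕ) := by
      intro d
      induction d with
      | zero => intro l _; exact Nat.zero_le _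
      | succ d ih =>
        intro l hl
        have h1 : (l : ℕ) + 1 < N := by omega
        have h2 := ih ⟨l + 1, h1⟩ (by simp only; omega)
        have h3 := hz' l ⟨l + 1, h1⟩ (by rw [Fin.lt_def]; simp)
        rw [Fin.lt_def] at h3
        omega
    have hge' : ∀ l : Fin N, N - 1 - (l : ℕ) ≤ (z l : ℕ) := fun l => hge _ l (by have := l.2; omega)
    set κ : Fin N → ℕ := fun l => (z l : ℕ) - (N - 1 - (l : ℕ)) with hκdef
    have hbdκ : ∀ l, bd κ l = (z l : ℕ) := by
      intro l
      have := hge' l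
      show (z l : ℕ) - (N - 1 - (l : ℕ)) + (N - 1 - (l : ℕ)) = _
      omega
    have hκanti : Antitone κ := by
      refine antitone_iff_forall_lt.2 ?_
      intro i j hij
      -- induction on the distance
      have key : ∀ d : ℕ, ∀ i j : Fin N, (i : ℕ) + d = j → (z j : ℕ) + d ≤ z i := by
        intro d
        induction d with
        | zero =>
          intro i j h
          have : i = j := Fin.ext (by omega)
          rw [this, add_zero]
        | succ d ih =>
          intro i j h
          have h1 : (i : ℕ) + 1 < N := by have := j.2; omega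
          have h2 := ih ⟨i + 1, h1⟩ j (by simp only; omega)
          have h3 := hz' i ⟨i + 1, h1⟩ (by rw [Fin.lt_def]; simp)
          rw [Fin.lt_def] at h3
          omega
      have h1 : (i : ℕ) < j := hij
      have h2 := key (j - i) i j (by omega)
      have h3 := hge' i
      have h4 := hge' j
      have := j.2
      show (z j : ℕ) - (N - 1 - (j : ℕ)) ≤ (z i : ℕ) - (N - 1 - (i : ℕ))
      omega
    have hle : ∀ l, κ l ≤ ν l := by
      intro a
      by_contra hc
      rw [not_le] at hc
      refine hne ?_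
      rw [zero_block38 (Matrix.of fun i l => A i (z l)) a ?_, zero_mul]
      intro i l hi hl
      show (-β) ^ (bd ν i - (z l : ℕ)) * fi (bd ν i) (z l) = 0
      have h1 : bd ν i < (z l : ℕ) := by
        rw [← hbdκ]
        have h2 := hν1 hi
        have h3 := hκanti hl
        have h4 : (a : ℕ) ≤ i := hi
        have h5 : (l : ℕ) ≤ a := hl
        have := i.2
        unfold bd
        omega
      unfold fi
      rw [if_neg (by omega), mul_zero]
    have hκK : κ ∈ (range (s + 1)).biUnion (PP N) := (hK κ).2 ⟨hκanti, by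
      rw [← hν2]
      exact Finset.sum_le_sum fun i _ => hle i⟩
    have hz2 : (fun i => (⟨bd κ i, hbd κ hκK i⟩ : Fin (N + s))) = z := by
      funext i
      exact Fin.ext (hbdκ i)
    refine ⟨κ, hκK, ?_, hz2⟩
    intro h0
    refine hne ?_
    rw [← hz2]
    exact h0
  · intro κ hκ _
    rfl

theorem det_scale {N : ℕ} (c : ℝ) (hc : c ≠ 0) (x y : Fin N → ℕ) (h : ∑ i, y i ≤ ∑ i, x i) :
    (Matrix.of fun i l : Fin N => c ^ (x i - y l) * fi (x i) (y l)).det =
      c ^ (∑ i, x i - ∑ i, y i) * (Matrix.of fun i l : Fin N => fi (x i) (y l)).det := by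
  have h1 : (Matrix.of fun i l : Fin N => c ^ (x i - y l) * fi (x i) (y l)) =
      Matrix.of fun i l : Fin N => c ^ x i * (Matrix.of fun i l : Fin N => (c ^ y l)⁻¹ * (Matrix.of fun i l : Fin N => fi (x i) (y l)) i l) i l := by
    ext i l
    simp only [Matrix.of_apply]
    unfold fi
    split_ifs with hyx
    · rw [pow_sub₀ c hc hyx]
      ring
    · simp
  rw [h1, Matrix.det_mul_column, Matrix.det_mul_row, Finset.prod_pow_eq_pow_sum, Finset.prod_inv_distrib, Finset.prod_pow_eq_pow_sum,
    pow_sub₀ c hc h]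
  ring

end Pool.Agent.Helper97.TF6
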