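import Pool.Agent.Helper51.TN.Defs

/-!
BLOCK TF6-GRP (about 150 lines). Sums of class functions over the permutations with given support. `jD h : Perm (Fin j) →* Perm (Fin s)` (Helper51/TN/Defs) is the embedding on the first `j` points.

Proofs.
* For a set `A` with `A.card = j` there is a permutation `p` of `Fin s` with `p '' DD s j = A` (`DD s j` the first `j` points), and `g ↦ p * jD h g * p⁻¹` is a bijection from `Perm (Fin j)` onto `{g : g.support ⊆ A}` (`Equiv.Perm.support_conj`; a permutation with support in `DD s j` is `jD h g` for a unique `g`: restrict it, `Perm.subtypePerm`, `jD_apply`). Number of the `A`: `s.choose j`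
  (`Finset.card_powersetCard`).
* `sum_supp`: group the `g` by `A = g.support`; for `A.card = s` the `g` with support exactly `A` correspond to the `g'` with support `univ` under the same bijection.
-/

set_option autoImplicit false

open Finset Equiv Pool.Agent.Helper51.TN

namespace Pool.Agent.Helper97.TF6

private theorem surj93 {s j : ℕ} {A : Finset (Fin s)} (f : Fin j ≃ {x // x ∈ A}) (g : Perm (Fin s)) (hg : g.support ⊆ A) :
    ∃ z : Perm (Fin j), z.extendDomain f = g := by
  have hA : ∀ x, g x ∈ A ↔ x ∈ A := by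
    intro x
    by_cases hx : g x = x
    · rw [hx]
    · have h1 : x ∈ g.support := Perm.mem_support.2 hx
      have h2 : g x ∈ g.support := Perm.apply_mem_support.2 h1
      exact ⟨fun _ => hg h1, fun _ => hg h2⟩
  refine ⟨f.symm.permCongr (g.subtypePerm hA), ?_⟩
  refine Equiv.ext fun x => ?_
  by_cases hx : x ∈ A
  · rw [Perm.extendDomain_apply_subtype _ f hx]
    simp [Equiv.permCongr_apply]
  · rw [Perm.extendDomain_apply_not_subtype _ f hx]
    by_contra h
    exact hx (hg (Perm.mem_support.2 (Ne.symm h)))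

private theorem F_eq93 {s j : ℕ} (h : j ≤ s) (F : Perm (Fin s) → ℝ) (hF : ∀ g h, F (h * g * h⁻¹) = F g)
    {A : Finset (Fin s)} (f : Fin j ≃ {x // x ∈ A}) (z : Perm (Fin j)) : F (z.extendDomain f) = F (jD h z) := by
  have h1 : IsConj (jD h z) (z.extendDomain f) := by
    rw [Perm.isConj_iff_cycleType_eq, Perm.cycleType_extendDomain]
    show (z.extendDomain (eD h)).cycleType = _
    rw [Perm.cycleType_extendDomain]
  obtain ⟨c, hc⟩ := isConj_iff.1 h1
  rw [← hc, hF]

private theorem ext_inj93 {s j : ℕ} {A : Finset (Fin s)} (f : Fin j ≃ {x // x ∈ A}) {z w : Perm (Fin j)}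
    (h : z.extendDomain f = w.extendDomain f) : z = w :=
  Perm.extendDomainHom_injective f h

private theorem supp93 {s j : ℕ} {A : Finset (Fin s)} (f : Fin j ≃ {x // x ∈ A}) (z : Perm (Fin j)) :
    (z.extendDomain f).support ⊆ A := by
  intro x hx
  by_contra h
  exact (Perm.mem_support.1 hx) (Perm.extendDomain_apply_not_subtype z f h)

private theorem supp_eq93 {s j : ℕ} {A : Finset (Fin s)} (f : Fin j ≃ {x // x ∈ A}) (z : Perm (Fin j)) :
    (z.extendDomain f).support = A ↔ z.support = univ := by
  constructor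
  · intro h
    refine Finset.eq_univ_iff_forall.2 fun i => Perm.mem_support.2 fun hi => ?_
    have h1 : ((f i : {x // x ∈ A}) : Fin s) ∈ (z.extendDomain f).support := by
      rw [h]
      exact (f i).2
    rw [Perm.mem_support, Perm.extendDomain_apply_image, hi] at h1
    exact h1 rfl
  · intro h
    refine Finset.Subset.antisymm (supp93 f z) fun x hx => ?_
    rw [Perm.mem_support, Perm.extendDomain_apply_subtype _ f hx]
    intro h1
    have h2 : f (z (f.symm ⟨x, hx⟩)) = ⟨x, hx⟩ := Subtype.ext h1
    have h3 : z (f.symm ⟨x, hx⟩) = f.symm ⟨x, hx⟩ := (Equiv.eq_symm_apply f).2 h2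
    have h4 := Finset.mem_univ (f.symm ⟨x, hx⟩)
    rw [← h, Perm.mem_support] at h4
    exact h4 h3

private theorem sum_A93 {s j : ℕ} (h : j ≤ s) (F : Perm (Fin s) → ℝ) (hF : ∀ g h, F (h * g * h⁻¹) = F g)
    {A : Finset (Fin s)} (f : Fin j ≃ {x // x ∈ A}) :
    ∑ g ∈ univ.filter (fun g : Perm (Fin s) => g.support ⊆ A), F g = ∑ z : Perm (Fin j), F (jD h z) := by
  symm
  refine Finset.sum_bij (fun z _ => z.extendDomain f) ?_ ?_ ?_ ?_
  · intro z _
    exact Finset.mem_filter.2 ⟨Finset.mem_univ _, supp93 f z⟩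
  · intro z _ w _ h1
    exact ext_inj93 f h1
  · intro g hg
    obtain ⟨z, hz⟩ := surj93 f g (Finset.mem_filter.1 hg).2
    exact ⟨z, Finset.mem_univ _, hz⟩
  · intro z _
    exact (F_eq93 h F hF f z).symm

private theorem sum_B93 {s j : ℕ} (h : j ≤ s) (F : Perm (Fin s) → ℝ) (hF : ∀ g h, F (h * g * h⁻¹) = F g)
    {A : Finset (Fin s)} (f : Fin j ≃ {x // x ∈ A}) :
    ∑ g ∈ univ.filter (fun g : Perm (Fin s) => g.support = A), F g =
      ∑ z ∈ univ.filter (fun z : Perm (Fin j) => z.support = univ), F (jD h z) := by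
  symm
  refine Finset.sum_bij (fun z _ => z.extendDomain f) ?_ ?_ ?_ ?_
  · intro z hz
    exact Finset.mem_filter.2 ⟨Finset.mem_univ _, (supp_eq93 f z).2 (Finset.mem_filter.1 hz).2⟩
  · intro z _ w _ h1
    exact ext_inj93 f h1
  · intro g hg
    have h1 := (Finset.mem_filter.1 hg).2
    obtain ⟨z, hz⟩ := surj93 f g h1.le
    refine ⟨z, Finset.mem_filter.2 ⟨Finset.mem_univ _, (supp_eq93 f z).1 ?_⟩, hz⟩
    rw [hz, h1]
  · intro z _
    exact (F_eq93 h F hF f z).symm

private theorem exists_f93 {s j : ℕ} {A : Finset (Fin s)} (hA : A.card = j) : Nonempty (Fin j ≃ {x // x ∈ A}) := by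
  subst hA
  exact ⟨A.equivFin.symm⟩

private theorem card93 (s j : ℕ) : (univ.filter (fun A : Finset (Fin s) => A.card = j)).card = s.choose j := by
  rw [Finset.univ_filter_card_eq, Finset.card_powersetCard, Finset.card_univ, Fintype.card_fin]

theorem sum_sub {s j : ℕ} (h : j ≤ s) (F : Perm (Fin s) → ℝ) (hF : ∀ g h, F (h * g * h⁻¹) = F g) :
    ∑ A ∈ univ.filter (fun A : Finset (Fin s) => A.card = j), ∑ g ∈ univ.filter (fun g : Perm (Fin s) => g.support ⊆ A), F g =
      (s.choose j : ℝ) * ∑ g : Perm (Fin j), F (jD h g) := by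
  rw [Finset.sum_congr rfl fun A hA => (sum_A93 h F hF (exists_f93 (Finset.mem_filter.1 hA).2).some : _),
    Finset.sum_const, card93, nsmul_eq_mul]

theorem sum_supp {n s : ℕ} (h : s ≤ n) (F : Perm (Fin n) → ℝ) (hF : ∀ g h, F (h * g * h⁻¹) = F g) :
    ∑ g ∈ univ.filter (fun g : Perm (Fin n) => g.support.card = s), F g =
      (n.choose s : ℝ) * ∑ g ∈ univ.filter (fun g : Perm (Fin s) => g.support = univ), F (jD h g) := by
  rw [← Finset.sum_fiberwise_of_maps_to (s := univ.filter (fun g : Perm (Fin n) => g.support.card = s))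
    (t := univ.filter (fun A : Finset (Fin n) => A.card = s)) (g := fun g : Perm (Fin n) => g.support)
    (fun g hg => Finset.mem_filter.2 ⟨Finset.mem_univ _, (Finset.mem_filter.1 hg).2⟩) F]
  have h1 : ∀ A ∈ univ.filter (fun A : Finset (Fin n) => A.card = s),
      ∑ g ∈ (univ.filter (fun g : Perm (Fin n) => g.support.card = s)).filter (fun g => g.support = A), F g =
        ∑ g ∈ univ.filter (fun g : Perm (Fin s) => g.support = univ), F (jD h g) := by
    intro A hA
    have hA' := (Finset.mem_filter.1 hA).2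
    rw [← sum_B93 h F hF (exists_f93 hA').some]
    refine Finset.sum_congr ?_ fun _ _ => rfl
    ext g
    simp only [Finset.mem_filter, Finset.mem_univ, true_and]
    constructor
    · exact fun h => h.2
    · exact fun h => ⟨by rw [h, hA'], h⟩
  rw [Finset.sum_congr rfl h1, Finset.sum_const, card93, nsmul_eq_mul]

end Pool.Agent.Helper97.TF6
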