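import Pool.Agent.Helper97.TF6.CB2
import Pool.Agent.Helper97.TF6.CB3
import Pool.Agent.Helper97.TF6.Grp

/-!
BLOCK TF6-CNU (about 250 lines). The coefficients of the scaled character.

`Phi n β κ h g = ∑_{A ⊇ supp g} (-β)^(s-|A|) β^(-|A|) n^(|A|) r(g)`, `r = ch n κ / ff n κ`, `g ∈ S_s`, `s ≤ n`, `n^(j) = n!/(n-j)!` (descFactorial).

Proof of `c_eq`. `r` and `ch s ν` are class functions. For `|A| = j`, by `sum_sub` for `F g = ch n κ (jD h g) / ff n κ * ch s ν g` on `S_s` (a class function: `jD` is a homomorphism),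
`∑_g Phi g * ch s ν g = ∑_{j ≤ s} (-β)^(s-j) β^(-j) n^(j) C(s,j) ∑_{g ∈ S_j} ch n κ (jD g) / ff n κ * ch s ν (jD g)` (`jD h (jD h' g)` has the same cycle type as `jD h'' g`, so `ch n κ` agrees; or prove equality).
By `ch_jD` (twice) and `ch_orth` the inner sum is `(ff n κ)⁻¹ j! ∑_{μ ∈ PP N j} sk (n-j) κ μ * sk (s-j) ν μ`. By `sk_det` (`n = j + (n-j)`, `s = j + (s-j)`) `sk (n-j) κ μ = (n-j)! det (fi (bd κ i) (bd μ l))` and so on. As `C(s,j) j! (s-j)! = s!` and `n^(j) (n-j)! = n!`: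
`(s!)⁻¹ ∑_g Phi g * ch s ν g = n!/ff n κ ∑_j ∑_μ (-β)^(s-j) β^(-j) det (fi (bd ν i) (bd μ l)) det (fi (bd κ i) (bd μ l))`, and with `det_scale` (`∑ bd ν - ∑ bd μ = s - j`, `∑ bd κ - ∑ bd μ = n - j`), `β^(-j) = β^(-n) β^(n-j)`, and `gB_cb` it is `C * det (gB β (bd ν i) (bd κ j))`, `C = n!/(ff n κ β^n)`.
For `s = 0`, `ν = 0`: `Phi = 1` (`S_0` is trivial, `ch n κ 1 = ff n κ`), `ch 0 0 1 = 1` (`ch_one`, or `ch_orth`: its square is `1`, and it is `ff 0 0 ≥ 0`), so `1 = C * det (gB β (N-1-i) (bd κ j))` (`bd 0 i = N - 1 - i`). Divide: `c = dq β (bd κ) ν`.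

Proof of `A3`. `β = √n`. `Phi` is a class function on `S_s`, `ch_parseval`: `∑_ν dq² = (s!)⁻² ∑_ν (∑_g Phi g ch s ν g)² = (s!)⁻¹ ∑_g (Phi g)²`. Keep only the `g` with `supp g = univ`: there `Phi g = β^(-s) n^(s) r(g)`, so `∑_ν dq² ≥ (s!)⁻¹ (n^(s))² n^(-s) ∑_{g, supp g = univ} r(g)²`. By `sum_supp`
`∑_{g ∈ S_n, |supp g| = s} r² = C(n,s) ∑_{g ∈ S_s, supp g = univ} r(jD g)²`, `C(n,s) = n^(s)/s!`.
-/

set_option autoImplicit false

open Finset Equiv Module Pool.Agent.Helper1.TS Pool.Agent.Helper70.TU Pool.Agent.Helper51.TN Pool.Agent.Helper51.TF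
open Pool.Agent.Helper70.TG (ff ff_pos)

namespace Pool.Agent.Helper97.TF6

/-- The scaled character on `S_s`. -/
noncomputable def Phi {N : ℕ} (n : ℕ) (β : ℝ) (κ : Fin N → ℕ) {s : ℕ} (h : s ≤ n) (g : Perm (Fin s)) : ℝ :=
  ∑ A ∈ univ.filter (fun A : Finset (Fin s) => g.support ⊆ A),
    (-β) ^ (s - A.card) * (β⁻¹) ^ A.card * (n.descFactorial A.card : ℝ) * (ch n κ (jD h g) / ff n κ)

private theorem jD_jD {n s j : ℕ} (h' : j ≤ s) (h : s ≤ n) (g : Perm (Fin j)) :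
    jD h (jD h' g) = jD (h'.trans h) g := by
  refine Equiv.ext fun i => ?_
  rcases lt_or_ge (i : ℕ) s with hi | hi
  · rw [jD_apply h _ i hi]
    rcases lt_or_ge (i : ℕ) j with hj | hj
    · have e1 := jD_apply h' g ⟨i, hi⟩ hj
      rw [jD_apply _ _ i hj]
      refine Fin.ext ?_
      simp only [e1]
    · have e1 := jD_apply_of_le h' g ⟨i, hi⟩ hj
      rw [jD_apply_of_le _ _ i hj]
      refine Fin.ext ?_
      simp only [e1]
  · rw [jD_apply_of_le h _ i hi, jD_apply_of_le _ _ i (h'.trans hi)]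

private theorem sum_bd {N m : ℕ} {κ : Fin N → ℕ} (hκ : κ ∈ PP N m) : ∑ i, bd κ i = m + ∑ i : Fin N, (N - 1 - (i : ℕ)) := by
  unfold bd
  rw [sum_add_distrib, (mem_PP.1 hκ).2]

/-- the determinant of the skew shape -/
private noncomputable def DD' {N : ℕ} (κ μ : Fin N → ℕ) : ℝ := (Matrix.of fun i l : Fin N => fi (bd κ i) (bd μ l)).det

private theorem sk_det' {N n j : ℕ} (h : j ≤ n) {κ μ : Fin N → ℕ} (hκ : κ ∈ PP N n) (hμ : μ ∈ PP N j) :
    (sk (n - j) κ μ : ℝ) = ((n - j).factorial : ℝ) * DD' κ μ := by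
  have h1 : j + (n - j) = n := by omega
  exact sk_det (s := j) (k := n - j) (by rw [h1]; exact hκ) hμ

private theorem scale' {N n j : ℕ} (h : j ≤ n) {κ μ : Fin N → ℕ} (hκ : κ ∈ PP N n) (hμ : μ ∈ PP N j) {c : ℝ} (hc : c ≠ 0) :
    (Matrix.of fun i l : Fin N => c ^ (bd κ i - bd μ l) * fi (bd κ i) (bd μ l)).det = c ^ (n - j) * DD' κ μ := by
  have h1 := sum_bd hκ
  have h2 := sum_bd hμ
  rw [det_scale c hc (bd κ) (bd μ) (by rw [h1, h2]; omega), h1, h2]
  have h3 : n + ∑ i : Fin N, (N - 1 - (i : ℕ)) - (j + ∑ i : Fin N, (N - 1 - (i : ℕ))) = n - j := by omega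
  rw [h3]
  rfl

/-- the sum over `S_j` -/
private theorem inner_sum {N n s j : ℕ} (hN : n ≤ N) {κ ν : Fin N → ℕ} (hκ : κ ∈ PP N n) (h : s ≤ n) (hν : ν ∈ PP N s)
    (hj : j ≤ s) : ∑ g : Perm (Fin j), (ch n κ (jD h (jD hj g)) / ff n κ * ch s ν (jD hj g)) =
      (j.factorial : ℝ) * ((n - j).factorial : ℝ) * ((s - j).factorial : ℝ) / ff n κ * ∑ μ ∈ PP N j, DD' κ μ * DD' ν μ := by
  have h1 : ∀ g : Perm (Fin j), ch n κ (jD h (jD hj g)) / ff n κ * ch s ν (jD hj g) =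
      (ff n κ)⁻¹ * ∑ μ ∈ PP N j, ∑ μ' ∈ PP N j, (sk (n - j) κ μ : ℝ) * (sk (s - j) ν μ' : ℝ) * (ch j μ g * ch j μ' g) := by
    intro g
    rw [jD_jD, ch_jD (hj.trans h) hN hκ g, ch_jD hj (h.trans hN) hν g, div_eq_inv_mul, mul_assoc, sum_mul_sum]
    congr 1
    refine sum_congr rfl fun μ _ => sum_congr rfl fun μ' _ => ?_
    ring
  simp only [h1]
  rw [← mul_sum, sum_comm]
  have h2 : ∀ μ ∈ PP N j, ∑ g : Perm (Fin j), ∑ μ' ∈ PP N j,
      (sk (n - j) κ μ : ℝ) * (sk (s - j) ν μ' : ℝ) * (ch j μ g * ch j μ' g) =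
      (j.factorial : ℝ) * (((n - j).factorial : ℝ) * ((s - j).factorial : ℝ) * (DD' κ μ * DD' ν μ)) := by
    intro μ hμ
    rw [sum_comm]
    have h3 : ∀ μ' ∈ PP N j, ∑ g : Perm (Fin j), (sk (n - j) κ μ : ℝ) * (sk (s - j) ν μ' : ℝ) * (ch j μ g * ch j μ' g) =
        if μ = μ' then (sk (n - j) κ μ : ℝ) * (sk (s - j) ν μ' : ℝ) * (j.factorial : ℝ) else 0 := by
      intro μ' hμ'
      rw [← mul_sum, ch_orth (hj.trans (h.trans hN)) hμ hμ']
      split_ifs with h4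
      · rfl
      · rw [mul_zero]
    rw [sum_congr rfl h3, sum_ite_eq, if_pos hμ, sk_det' (hj.trans h) hκ hμ, sk_det' hj hν hμ]
    ring
  rw [sum_congr rfl h2, ← mul_sum, ← mul_sum]
  ring

/-- class functions -/
private theorem F_conj {N n s : ℕ} (κ : Fin N → ℕ) (h : s ≤ n) (g p : Perm (Fin s)) :
    ch n κ (jD h (p * g * p⁻¹)) = ch n κ (jD h g) := by
  rw [map_mul, map_mul, map_inv, ch_conj]

private theorem sum_Phi {N n s : ℕ} (hN : n ≤ N) {κ ν : Fin N → ℕ} (hκ : κ ∈ PP N n) (h : s ≤ n) (hν : ν ∈ PP N s) {β : ℝ}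
    (hβ : 0 < β) : ((s.factorial : ℝ))⁻¹ * ∑ g : Perm (Fin s), Phi n β κ h g * ch s ν g =
      (n.factorial : ℝ) / (ff n κ * β ^ n) * (Matrix.of fun i j : Fin N => gB β (bd ν i) (bd κ j)).det := by
  classical
  set F : Perm (Fin s) → ℝ := fun g => ch n κ (jD h g) / ff n κ * ch s ν g with hF
  have hFc : ∀ g p, F (p * g * p⁻¹) = F g := by
    intro g p
    simp only [hF]
    rw [F_conj κ h, ch_conj]
  have hff : ff n κ ≠ 0 := (ff_pos hN hκ).ne'
  have hs0 : (s.factorial : ℝ) ≠ 0 := Nat.cast_ne_zero.2 (Nat.factorial_ne_zero s)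
  set w : ℕ → ℝ := fun j => (-β) ^ (s - j) * (β⁻¹) ^ j * (n.descFactorial j : ℝ) with hw
  have h1 : ∑ g : Perm (Fin s), Phi n β κ h g * ch s ν g =
      ∑ A : Finset (Fin s), w A.card * ∑ g ∈ univ.filter (fun g : Perm (Fin s) => g.support ⊆ A), F g := by
    have h2 : ∀ g : Perm (Fin s), Phi n β κ h g * ch s ν g =
        ∑ A : Finset (Fin s), if g.support ⊆ A then w A.card * F g else 0 := by
      intro g
      rw [Phi, sum_mul, ← sum_filter]
      refine sum_congr rfl fun A _ => ?_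
      simp only [hw, hF]
      ring
    simp only [h2]
    rw [sum_comm]
    refine sum_congr rfl fun A _ => ?_
    rw [← sum_filter, mul_sum]
  have h2 : ∑ A : Finset (Fin s), w A.card * ∑ g ∈ univ.filter (fun g : Perm (Fin s) => g.support ⊆ A), F g =
      ∑ j ∈ range (s + 1), w j * ∑ A ∈ univ.filter (fun A : Finset (Fin s) => A.card = j),
        ∑ g ∈ univ.filter (fun g : Perm (Fin s) => g.support ⊆ A), F g := by
    have h3 : ∀ A ∈ (univ : Finset (Finset (Fin s))), A.card ∈ range (s + 1) := by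
      intro A _
      rw [mem_range]
      have := card_le_univ A
      rw [Fintype.card_fin] at this
      omega
    rw [← sum_fiberwise_of_maps_to h3]
    refine sum_congr rfl fun j _ => ?_
    rw [mul_sum]
    refine sum_congr rfl fun A hA => ?_
    rw [(mem_filter.1 hA).2]
  rw [h1, h2]
  have h3 : ∀ j ∈ range (s + 1), w j * ∑ A ∈ univ.filter (fun A : Finset (Fin s) => A.card = j),
      ∑ g ∈ univ.filter (fun g : Perm (Fin s) => g.support ⊆ A), F g =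
      (s.factorial : ℝ) * ((n.factorial : ℝ) / (ff n κ * β ^ n)) * ∑ μ ∈ PP N j,
        (Matrix.of fun i l : Fin N => (-β) ^ (bd ν i - bd μ l) * fi (bd ν i) (bd μ l)).det *
          (Matrix.of fun i l : Fin N => β ^ (bd κ i - bd μ l) * fi (bd κ i) (bd μ l)).det := by
    intro j hj
    have hjs : j ≤ s := by rw [mem_range] at hj; omega
    have hjn : j ≤ n := hjs.trans h
    rw [sum_sub hjs F hFc]
    have h4 : ∑ g : Perm (Fin j), F (jD hjs g) = (j.factorial : ℝ) * ((n - j).factorial : ℝ) * ((s - j).factorial : ℝ) / ff n κ *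
        ∑ μ ∈ PP N j, DD' κ μ * DD' ν μ := inner_sum hN hκ h hν hjs
    rw [h4]
    have h5 : ∑ μ ∈ PP N j, (Matrix.of fun i l : Fin N => (-β) ^ (bd ν i - bd μ l) * fi (bd ν i) (bd μ l)).det *
          (Matrix.of fun i l : Fin N => β ^ (bd κ i - bd μ l) * fi (bd κ i) (bd μ l)).det =
        (-β) ^ (s - j) * β ^ (n - j) * ∑ μ ∈ PP N j, DD' κ μ * DD' ν μ := by
      rw [mul_sum]
      refine sum_congr rfl fun μ hμ => ?_
      rw [scale' hjs hν hμ (neg_ne_zero.2 hβ.ne'), scale' hjn hκ hμ hβ.ne']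
      ring
    rw [h5]
    have e1 : (s.choose j : ℝ) * (j.factorial : ℝ) * ((s - j).factorial : ℝ) = (s.factorial : ℝ) := by
      exact_mod_cast Nat.choose_mul_factorial_mul_factorial hjs
    have e2 : ((n - j).factorial : ℝ) * (n.descFactorial j : ℝ) = (n.factorial : ℝ) := by
      exact_mod_cast Nat.factorial_mul_descFactorial hjn
    have e3 : β ^ n = β ^ (n - j) * β ^ j := by rw [← pow_add]; congr 1; omega
    have e4 : (β⁻¹) ^ j = β ^ (n - j) / β ^ n := by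
      rw [e3, inv_pow]
      field_simp
    simp only [hw]
    rw [e4, ← e1, ← e2]
    field_simp
  rw [sum_congr rfl h3, ← mul_sum, ← gB_cb β (bd κ) hν]
  field_simp

private theorem C_eq {N n : ℕ} (hN : n ≤ N) {κ : Fin N → ℕ} (hκ : κ ∈ PP N n) {β : ℝ} (hβ : 0 < β) :
    1 = (n.factorial : ℝ) / (ff n κ * β ^ n) * (Matrix.of fun i j : Fin N => gB β (N - 1 - (i : ℕ)) (bd κ j)).det := by
  have h0 : (0 : Fin N → ℕ) ∈ PP N 0 := mem_PP.2 ⟨fun _ _ _ => le_rfl, by simp⟩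
  have h1 := sum_Phi hN hκ (Nat.zero_le n) h0 hβ
  have hff : ff n κ ≠ 0 := (ff_pos hN hκ).ne'
  have h2 : (Matrix.of fun i j : Fin N => gB β (bd (0 : Fin N → ℕ) i) (bd κ j)) =
      Matrix.of fun i j : Fin N => gB β (N - 1 - (i : ℕ)) (bd κ j) := by
    ext i j
    simp [bd]
  rw [h2] at h1
  rw [← h1]
  have h3 : ch 0 (0 : Fin N → ℕ) 1 = 1 := by
    have h4 := ch_orth (Nat.zero_le N) h0 h0
    rw [if_pos rfl, Fintype.sum_subsingleton _ (1 : Perm (Fin 0)), Nat.factorial_zero, Nat.cast_one] at h4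
    have h5 : 0 < ch 0 (0 : Fin N → ℕ) 1 := by
      rw [ch_one]
      exact ff_pos (Nat.zero_le N) h0
    nlinarith
  rw [Fintype.sum_subsingleton _ (1 : Perm (Fin 0)), h3, Nat.factorial_zero, Nat.cast_one, inv_one, one_mul, mul_one]
  have h4 : (univ.filter (fun A : Finset (Fin 0) => (1 : Perm (Fin 0)).support ⊆ A)) = {∅} := by
    ext A
    simp only [mem_filter, mem_univ, true_and, mem_singleton]
    constructor
    · intro _
      exact Finset.eq_empty_of_isEmpty A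
    · rintro rfl
      simp
  rw [Phi, h4, sum_singleton]
  simp only [card_empty, Nat.sub_zero, pow_zero, mul_one, one_mul, Nat.descFactorial_zero, Nat.cast_one, map_one]
  rw [ch_one, div_self hff]

theorem c_eq {N n s : ℕ} (hN : n ≤ N) {κ ν : Fin N → ℕ} (hκ : κ ∈ PP N n) (h : s ≤ n) (hν : ν ∈ PP N s) {β : ℝ}
    (hβ : 0 < β) : ((s.factorial : ℝ))⁻¹ * ∑ g : Perm (Fin s), Phi n β κ h g * ch s ν g = dq β (bd κ) ν := by
  rw [sum_Phi hN hκ h hν hβ, dq]
  have h1 := C_eq hN hκ hβ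
  set C := (n.factorial : ℝ) / (ff n κ * β ^ n)
  set D := (Matrix.of fun i j : Fin N => gB β (N - 1 - (i : ℕ)) (bd κ j)).det
  have hD : D ≠ 0 := by
    intro h0
    rw [h0, mul_zero] at h1
    exact one_ne_zero h1
  rw [eq_div_iff hD, mul_right_comm, ← h1, one_mul]

private theorem Phi_conj {N n s : ℕ} (β : ℝ) (κ : Fin N → ℕ) (h : s ≤ n) (g p : Perm (Fin s)) :
    Phi n β κ h (p * g * p⁻¹) = Phi n β κ h g := by
  unfold Phi
  rw [F_conj κ h]
  refine (sum_equiv p.finsetCongr (fun A => ?_) (fun A _ => ?_)).symm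
  · rw [mem_filter, mem_filter, Perm.support_conj, Equiv.finsetCongr_apply, map_subset_map]
    simp
  · rw [Equiv.finsetCongr_apply, card_map]

theorem A3 {N n s : ℕ} (hn : 0 < n) (hN : n ≤ N) {κ : Fin N → ℕ} (hκ : κ ∈ PP N n) (h : s ≤ n) :
    (n.descFactorial s : ℝ) / (n : ℝ) ^ s *
        ∑ g ∈ univ.filter (fun g : Perm (Fin n) => g.support.card = s), (rr (hw n κ) g) ^ 2 ≤
      ∑ ν ∈ PP N s, dq (Real.sqrt n) (bd κ) ν ^ 2 := by
  classical
  have hn' : (0 : ℝ) < n := Nat.cast_pos.2 hn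
  set β : ℝ := Real.sqrt n with hβd
  have hβ : 0 < β := Real.sqrt_pos.2 hn'
  have hβ2 : β ^ 2 = n := Real.sq_sqrt hn'.le
  have hs0 : (0 : ℝ) < s.factorial := Nat.cast_pos.2 (Nat.factorial_pos s)
  -- the right side
  have h1 : ∑ ν ∈ PP N s, dq β (bd κ) ν ^ 2 = ((s.factorial : ℝ))⁻¹ * ∑ g : Perm (Fin s), Phi n β κ h g ^ 2 := by
    have h2 := ch_parseval (h.trans hN) (Phi n β κ h) (fun g p => Phi_conj β κ h g p)
    have h3 : ∀ ν ∈ PP N s, dq β (bd κ) ν ^ 2 =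
        ((s.factorial : ℝ))⁻¹ ^ 2 * (∑ g : Perm (Fin s), Phi n β κ h g * ch s ν g) ^ 2 := by
      intro ν hν
      rw [← c_eq hN hκ h hν hβ, mul_pow]
    rw [sum_congr rfl h3, ← mul_sum, h2]
    field_simp
  -- the left side
  have h2 : ∑ g ∈ univ.filter (fun g : Perm (Fin n) => g.support.card = s), (rr (hw n κ) g) ^ 2 =
      (n.choose s : ℝ) * ∑ g ∈ univ.filter (fun g : Perm (Fin s) => g.support = univ), (ch n κ (jD h g) / ff n κ) ^ 2 := by
    rw [sum_supp h (fun g => (rr (hw n κ) g) ^ 2) (fun g p => by simp only [rr_eq, ch_conj])]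
    simp only [rr_eq]
  have h3 : ∀ g ∈ univ.filter (fun g : Perm (Fin s) => g.support = univ), Phi n β κ h g ^ 2 =
      (n.descFactorial s : ℝ) ^ 2 / (n : ℝ) ^ s * (ch n κ (jD h g) / ff n κ) ^ 2 := by
    intro g hg
    have h4 : (univ.filter (fun A : Finset (Fin s) => g.support ⊆ A)) = {univ} := by
      ext A
      rw [mem_filter, (mem_filter.1 hg).2, mem_singleton]
      simp only [mem_univ, true_and]
      exact univ_subset_iff
    rw [Phi, h4, sum_singleton, card_univ, Fintype.card_fin, Nat.sub_self, pow_zero, one_mul, mul_pow, mul_pow, ← pow_mul,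
      mul_comm s 2, pow_mul, inv_pow, hβ2, inv_pow]
    field_simp
  rw [h1, h2]
  have h4 : ∑ g ∈ univ.filter (fun g : Perm (Fin s) => g.support = univ), Phi n β κ h g ^ 2 ≤ ∑ g : Perm (Fin s), Phi n β κ h g ^ 2 :=
    sum_le_sum_of_subset_of_nonneg (filter_subset _ _) fun _ _ _ => sq_nonneg _
  refine le_trans (le_of_eq ?_) (mul_le_mul_of_nonneg_left h4 (inv_nonneg.2 hs0.le))
  rw [sum_congr rfl h3, ← mul_sum]
  have h5 : (n.descFactorial s : ℝ) = (s.factorial : ℝ) * (n.choose s : ℝ) := by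
    exact_mod_cast Nat.descFactorial_eq_factorial_mul_choose n s
  rw [h5]
  field_simp

end Pool.Agent.Helper97.TF6
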