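import Pool.Agent.Helper70.TG.V0
import Pool.Agent.Helper1.TS.A0

/-!
BLOCK TF6-REPA (about 200 lines). The characters of `S_m` form an orthogonal basis of the class functions.

`ch m κ g` is the (real) value of the character of `HW m κ` at `g`. You may use: `char_perm_real`, `char_perm_inv` (Helper1/TS/A0), `hw_irr`, `card_classes_le`, the proof of `card_irr_le` (Helper51/TF/H5, H7), Mathlib `Representation.char_orthonormal`.

Proofs.
* `ch_orth`: `Representation.char_orthonormal` for `hw m κ`, `hw m ν` (irreducible, isomorphic only if `κ = ν`: `hw_irr`), `char_perm_inv`, `char_perm_real`.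
* `ch_parseval`: the space of the class functions `Perm (Fin m) → ℝ` (functions on `ConjClasses (Perm (Fin m))`) has dimension `Nat.card (ConjClasses ..) ≤ (PP N m).card` (`card_classes_le`), the `ch m ν`, `ν ∈ PP N m`, are orthogonal and not `0`, hence linearly independent, so they span
  (`LinearIndependent` with `card = finrank`), `f = ∑_ν c_ν ch m ν`, `∑_g f g * ch m ν g = m! c_ν`, `∑_g f g ^ 2 = m! ∑ c_ν²`.
-/

set_option autoImplicit false

open Finset Equiv Module Pool.Agent.Helper1.TS Pool.Agent.Helper70.TU Pool.Agent.Helper51.TN Pool.Agent.Helper51.TF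
open Pool.Agent.Helper70.TG (ff ff_pos)

namespace Pool.Agent.Helper97.TF6

/-- The character of `HW m κ`, a real number. -/
noncomputable def ch {N : ℕ} (m : ℕ) (κ : Fin N → ℕ) (g : Perm (Fin m)) : ℝ := ((hw m κ).character g).re

theorem ch_eq {N m : ℕ} (κ : Fin N → ℕ) (g : Perm (Fin m)) : (hw m κ).character g = (ch m κ g : ℂ) :=
  char_perm_real _ _

theorem ch_conj {N m : ℕ} (κ : Fin N → ℕ) (g h : Perm (Fin m)) : ch m κ (h * g * h⁻¹) = ch m κ g := by
  unfold ch
  rw [Representation.char_conj]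

theorem ch_one {N m : ℕ} (κ : Fin N → ℕ) : ch m κ 1 = ff m κ := by
  unfold ch ff
  rw [Representation.char_one, Complex.natCast_re]

theorem rr_eq {N m : ℕ} (κ : Fin N → ℕ) (g : Perm (Fin m)) : rr (hw m κ) g = ch m κ g / ff m κ := rfl

theorem ch_orth {N m : ℕ} (hN : m ≤ N) {κ ν : Fin N → ℕ} (h : κ ∈ PP N m) (h' : ν ∈ PP N m) :
    ∑ g : Perm (Fin m), ch m κ g * ch m ν g = if κ = ν then (m.factorial : ℝ) else 0 := by
  classical
  have hinv : (Nat.card (Perm (Fin m)) : ℂ) ≠ 0 := Nat.cast_ne_zero.2 Nat.card_pos.ne'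
  let _ : Invertible (Nat.card (Perm (Fin m)) : ℂ) := invertibleOfNonzero hinv
  have i1 := (hw_irr hN).1 κ h
  have i2 := (hw_irr hN).1 ν h'
  have h1 := Representation.char_orthonormal (hw m κ) (hw m ν)
  have h2 : (if Nonempty (Representation.Equiv (hw m ν) (hw m κ)) then (1 : ℂ) else (0 : ℂ)) =
      if κ = ν then 1 else 0 := by
    by_cases hκ : κ = ν
    · subst hκ
      rw [if_pos rfl, if_pos ⟨Representation.Equiv.refl _⟩]
    · rw [if_neg hκ, if_neg]
      rintro ⟨e⟩
      refine hκ ((hw_irr hN).2 ν h' κ h ⟨e.toLinearEquiv, fun g v => ?_⟩).symm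
      exact LinearMap.congr_fun (e.toIntertwiningMap.isIntertwining' g) v
  have h3 : (Nat.card (Perm (Fin m)) : ℂ)⁻¹ * ∑ g : Perm (Fin m), (hw m κ).character g * (hw m ν).character g⁻¹ =
      if κ = ν then 1 else 0 := by
    rw [← h2, h1]
  have h4 : ∑ g : Perm (Fin m), (hw m κ).character g * (hw m ν).character g⁻¹ =
      ((∑ g : Perm (Fin m), ch m κ g * ch m ν g : ℝ) : ℂ) := by
    push_cast
    refine Finset.sum_congr rfl fun g _ => ?_
    rw [char_perm_inv, ch_eq, ch_eq]
  rw [h4] at h3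
  have h5 : ((∑ g : Perm (Fin m), ch m κ g * ch m ν g : ℝ) : ℂ) =
      (Nat.card (Perm (Fin m)) : ℂ) * (if κ = ν then 1 else 0) := by
    rw [← h3, ← mul_assoc, mul_inv_cancel₀ hinv, one_mul]
  have h6 : (Nat.card (Perm (Fin m))) = m.factorial := by
    rw [Nat.card_eq_fintype_card, Fintype.card_perm, Fintype.card_fin]
  rw [h6] at h5
  by_cases hκ : κ = ν
  · rw [if_pos hκ] at h5 ⊢
    rw [mul_one] at h5
    exact_mod_cast h5
  · rw [if_neg hκ] at h5 ⊢
    rw [mul_zero] at h5
    exact_mod_cast h5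

theorem ch_parseval {N m : ℕ} (hN : m ≤ N) (f : Perm (Fin m) → ℝ) (hf : ∀ g h, f (h * g * h⁻¹) = f g) :
    ∑ ν ∈ PP N m, (∑ g, f g * ch m ν g) ^ 2 = (m.factorial : ℝ) * ∑ g, f g ^ 2 := by
  have hm : (m.factorial : ℝ) ≠ 0 := Nat.cast_ne_zero.2 (Nat.factorial_ne_zero m)
  have h1 : ∀ g : Perm (Fin m), f g = ∑ ν ∈ PP N m, ((∑ x : Perm (Fin m), f x * ch m ν x) / m.factorial) * ch m ν g := by
    intro g
    have h2 := class_expand hN (fun x : Perm (Fin m) => ((f x : ℝ) : ℂ)) (fun x g => by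
      show ((f (x * g * x⁻¹) : ℝ) : ℂ) = ((f g : ℝ) : ℂ)
      rw [hf g x]) g
    have h3 : ((f g : ℝ) : ℂ) = ((∑ ν ∈ PP N m, ((∑ x : Perm (Fin m), f x * ch m ν x) / m.factorial) * ch m ν g : ℝ) : ℂ) := by
      rw [h2]
      push_cast
      refine Finset.sum_congr rfl fun ν _ => ?_
      rw [ch_eq]
      congr 2
      refine Finset.sum_congr rfl fun x _ => ?_
      rw [char_perm_inv, ch_eq]
    exact_mod_cast h3
  have h4 : ∑ g, f g ^ 2 = ∑ ν ∈ PP N m, (∑ x : Perm (Fin m), f x * ch m ν x) ^ 2 / m.factorial := by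
    calc ∑ g, f g ^ 2 = ∑ g, ∑ ν ∈ PP N m, ((∑ x : Perm (Fin m), f x * ch m ν x) / m.factorial) * (f g * ch m ν g) := by
          refine Finset.sum_congr rfl fun g _ => ?_
          have h5 : f g ^ 2 = f g * ∑ ν ∈ PP N m, ((∑ x : Perm (Fin m), f x * ch m ν x) / m.factorial) * ch m ν g := by
            rw [← h1 g, pow_two]
          rw [h5, Finset.mul_sum]
          refine Finset.sum_congr rfl fun ν _ => ?_
          ring
      _ = ∑ ν ∈ PP N m, ∑ g, ((∑ x : Perm (Fin m), f x * ch m ν x) / m.factorial) * (f g * ch m ν g) := Finset.sum_comm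
      _ = _ := by
          refine Finset.sum_congr rfl fun ν _ => ?_
          rw [← Finset.mul_sum, pow_two]
          ring
  rw [h4, Finset.mul_sum]
  refine Finset.sum_congr rfl fun ν _ => ?_
  rw [mul_div_assoc', mul_comm, mul_div_assoc, div_self hm, mul_one]

end Pool.Agent.Helper97.TF6
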