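import Pool.Agent.Helper97.TF6.RepA

/-!
BLOCK TF6-REPB (about 120 lines). Iterated branching. You may use `char_branch` (Helper70/TG/V0), `subE_cases`, `HW_ne_bot` (Helper51/TF), `subE_mem` (Helper51/TF/H9a), `jD`, `jT` (Helper51/TN/Defs).

Proof of `ch_jD`: induction on `n - j`. `n = j`: `jD h g = g` and the sum has the single term `ν = κ`. Step `n → n + 1`, `j ≤ n`: `jD (j ≤ n+1) g` and `res1 n (jD (j ≤ n) g)` have the same cycle type (`Equiv.Perm.cycleType_extendDomain`; `jD`, `jT` are `Perm.extendDomainHom`), so they are conjugate (`Equiv.Perm.isConj_iff_cycleType_eq`) and the characters agree;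
`char_branch` (real parts), the induction hypothesis for `subE κ a ∈ PP N n` (`IsRem κ a`), the definition of `sk`, `Finset.sum_comm`.
-/

set_option autoImplicit false

open Finset Equiv Module Pool.Agent.Helper1.TS Pool.Agent.Helper70.TU Pool.Agent.Helper51.TN Pool.Agent.Helper51.TF
open Pool.Agent.Helper70.TG (ff ff_pos)

namespace Pool.Agent.Helper97.TF6

open Classical in
/-- The number of the standard tableaux of the skew shape `κ/ν` with `k` boxes. -/
noncomputable def sk {N : ℕ} : ℕ → (Fin N → ℕ) → (Fin N → ℕ) → ℕ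
  | 0, κ, ν => if κ = ν then 1 else 0
  | k + 1, κ, ν => ∑ a ∈ univ.filter (fun a => IsRem κ a), sk k (subE κ a) ν

private theorem ch_isConj65 {N m : ℕ} (κ : Fin N → ℕ) {g h : Perm (Fin m)}
    (hc : g.cycleType = h.cycleType) : ch m κ g = ch m κ h := by
  obtain ⟨c, hc'⟩ := isConj_iff.1 (Equiv.Perm.isConj_iff_cycleType_eq.2 hc)
  rw [← hc', ch_conj]

private theorem ct_jD65 {n e : ℕ} (h : e ≤ n) (y : Perm (Fin e)) :
    (jD h y).cycleType = y.cycleType := Equiv.Perm.cycleType_extendDomain (eD h)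

private theorem ct_res65 {m : ℕ} (x : Perm (Fin m)) : (res1 m x).cycleType = x.cycleType :=
  Equiv.Perm.cycleType_extendDomain (eT (Nat.le_add_left 1 m))

private theorem aux65 {N : ℕ} (j : ℕ) (g : Perm (Fin j)) (k : ℕ) : j + k ≤ N →
    ∀ κ : Fin N → ℕ, κ ∈ PP N (j + k) →
      ch (j + k) κ (jD (Nat.le_add_right j k) g) = ∑ ν ∈ PP N j, (sk k κ ν : ℝ) * ch j ν g := by
  classical
  induction k with
  | zero =>
    intro _ κ hκ
    have h1 : jD (Nat.le_add_right j 0) g = g := by
      refine Equiv.ext fun i => ?_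
      rw [jD_apply (Nat.le_add_right j 0) g i i.2]
      rfl
    rw [h1, Finset.sum_eq_single κ]
    · simp [sk]
    · intro ν _ hne
      simp [sk, Ne.symm hne]
    · intro hn
      exact absurd hκ hn
  | succ k ih =>
    intro hN κ hκ
    have h1 : ch (j + (k + 1)) κ (jD (Nat.le_add_right j (k + 1)) g) =
        ch (j + k + 1) κ (res1 (j + k) (jD (Nat.le_add_right j k) g)) := by
      apply ch_isConj65
      rw [ct_jD65]
      exact ((ct_res65 _).trans (ct_jD65 _ _)).symm
    have h2 := congrArg Complex.re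
      (char_branch (m := j + k) hN hκ (jD (Nat.le_add_right j k) g))
    rw [Complex.re_sum] at h2
    rw [h1]
    refine h2.trans ?_
    have h3 : ∀ ν, (sk (k + 1) κ ν : ℝ) =
        ∑ a ∈ univ.filter (fun a => IsRem κ a), (sk k (subE κ a) ν : ℝ) := by
      intro ν
      simp only [sk]
      push_cast
      refine Finset.sum_congr ?_ fun _ _ => rfl
      ext a
      simp
    simp only [h3, Finset.sum_mul]
    rw [Finset.sum_comm]
    refine Finset.sum_congr ?_ fun a ha => ?_
    · ext a
      simp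
    · have ha' : IsRem κ a := (Finset.mem_filter.1 ha).2
      exact ih (by omega) (subE κ a) (subE_mem hκ a ha')

theorem ch_jD {N n j : ℕ} (h : j ≤ n) (hN : n ≤ N) {κ : Fin N → ℕ} (hκ : κ ∈ PP N n) (g : Perm (Fin j)) :
    ch n κ (jD h g) = ∑ ν ∈ PP N j, (sk (n - j) κ ν : ℝ) * ch j ν g := by
  obtain ⟨k, rfl⟩ := Nat.exists_eq_add_of_le h
  rw [Nat.add_sub_cancel_left]
  exact aux65 j g k hN κ hκ

end Pool.Agent.Helper97.TF6
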