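import Mathlib

/-!
BLOCK TF6-SEQ1 (about 200 lines). A Newton recursion with perturbed data. ONLY MATHLIB.

Proof. Let `q = ρ1/ρ < 1`, `S = A ∑_j (j+1) q^j + 1`, `B = exp S`. Work with power series `F = ∑ f_a X^a`, `G = ∑ g_b X^b` (or with sequences directly), `Δ = F G`, `T = F * X G'`, so (exactly) `X G' * Δ = G * T`. `Δ` has constant term `1`; let `E = Δ⁻¹`, `Λ = T E`, so `X G' = G Λ`:
  `b g_b = ∑_{j=0}^{b} Λ_j g_{b-j}`, `Λ_0 = T_0 = 0`.
* `|E_j| ρ^j ≤ 1` for `j ≤ D`: `E_0 = 1`, `E_j = E_{j-2} - ∑_{1 ≤ i ≤ j} s_i E_{j-i}`, `|E_j| ρ^j ≤ ρ² + ∑ |s_i| ρ^i ≤ 1`.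
* `|Λ_j| ρ^j ≤ ∑_{i ≤ j} |t_i| ρ^i |E_{j-i}| ρ^(j-i) ≤ (j+1) A` for `j ≤ D`.
* Let `c_b = |g_b| ρ1^b`, `λ_j = |Λ_j| ρ1^j ≤ (j+1) A q^j`, `∑_j λ_j ≤ S`, `S ≥ 1`. `b c_b ≤ ∑_{1 ≤ j ≤ b} λ_j c_{b-j} ≤ S max_{i<b} c_i`. So by induction `c_b ≤ S^b/b!` for `b ≤ S` (`S^i/i!` is increasing for `i ≤ S`), and `c_b ≤ max_{i<b} c_i` for `b ≥ S`; `S^b/b! ≤ exp S`.
-/

set_option autoImplicit false

open Finset

namespace Pool.Agent.Helper97.TF6

private theorem cf50 (u v : PowerSeries ℝ) (d : ℕ) :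
    PowerSeries.coeff d (u * v) = ∑ k ∈ range (d + 1), PowerSeries.coeff (d - k) u * PowerSeries.coeff k v := by
  rw [mul_comm, PowerSeries.coeff_mul, Finset.Nat.sum_antidiagonal_eq_sum_range_succ
    (fun i j => PowerSeries.coeff i v * PowerSeries.coeff j u)]
  exact sum_congr rfl fun k _ => mul_comm _ _

private theorem geo50 {q : ℝ} (h0 : 0 ≤ q) (h1 : q < 1) (N : ℕ) :
    ∑ j ∈ range N, ((j : ℝ) + 1) * q ^ j ≤ 1 / (1 - q) ^ 2 := by
  have h3 : 0 < 1 - q := by linarith
  have h2 : 0 < (1 - q) ^ 2 := by positivity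
  rw [le_div_iff₀ h2]
  have key : ∀ N : ℕ, (∑ j ∈ range N, ((j : ℝ) + 1) * q ^ j) * (1 - q) ^ 2 = 1 - q ^ N * (N + 1 - N * q) := by
    intro N
    induction N with
    | zero => simp
    | succ N ih =>
      rw [sum_range_succ, add_mul, ih]
      push_cast
      ring
  rw [key]
  have h4 : 0 ≤ q ^ N * (N + 1 - N * q) := by
    apply mul_nonneg (by positivity)
    have : (0:ℝ) ≤ N := Nat.cast_nonneg N
    nlinarith
  linarith

private noncomputable def PP50 (S : ℝ) (b : ℕ) : ℝ := ∏ i ∈ range b, max 1 (S / ((i : ℝ) + 1))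

private theorem PP_succ50 (S : ℝ) (b : ℕ) : PP50 S (b + 1) = PP50 S b * max 1 (S / ((b : ℝ) + 1)) := prod_range_succ _ _

private theorem PP_one50 (S : ℝ) (b : ℕ) : 1 ≤ PP50 S b := by
  induction b with
  | zero => simp [PP50]
  | succ b ih =>
    rw [PP_succ50]
    exact one_le_mul_of_one_le_of_one_le ih (le_max_left _ _)

private theorem PP_mono50 (S : ℝ) : Monotone (PP50 S) := monotone_nat_of_le_succ fun b => by
  rw [PP_succ50]
  exact le_mul_of_one_le_right (by linarith [PP_one50 S b]) (le_max_left _ _)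

private theorem PP_le50 (S : ℝ) (b : ℕ) : PP50 S b ≤ PP50 S ⌈S⌉₊ := by
  rcases le_total b ⌈S⌉₊ with h | h
  · exact PP_mono50 S h
  · induction b, h using Nat.le_induction with
    | base => exact le_rfl
    | succ b hb ih =>
      rw [PP_succ50, max_eq_left, mul_one]
      · exact ih
      · rw [div_le_one (by positivity)]
        have h1 := Nat.le_ceil S
        have h2 : (⌈S⌉₊ : ℝ) ≤ b := by exact_mod_cast hb
        linarith

theorem newton {ρ ρ1 : ℝ} (h0 : 0 < ρ1) (h1 : ρ1 < ρ) (h2 : ρ < 1) (A : ℝ) (hA : 0 ≤ A) :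
    ∃ B : ℝ, 1 ≤ B ∧ ∀ (D : ℕ) (f g s t : ℕ → ℝ), f 0 = 1 → g 0 = 1 → s 0 = 0 →
      (∀ d ≤ D, ∑ b ∈ range (d + 1), f (d - b) * g b = (if d = 0 then 1 else 0) - (if d = 2 then 1 else 0) + s d) →
      (∀ d ≤ D, ∑ b ∈ range (d + 1), (b : ℝ) * (f (d - b) * g b) = t d) →
      (∑ d ∈ range (D + 1), |s d| * ρ ^ d ≤ 1 - ρ ^ 2) → (∀ d ≤ D, |t d| * ρ ^ d ≤ A) →
      ∀ b ≤ D, |g b| * ρ1 ^ b ≤ B := by
  have hρ : 0 < ρ := h0.trans h1
  set q := ρ1 / ρ with hq
  have hq0 : 0 < q := div_pos h0 hρ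
  have hq1 : q < 1 := (div_lt_one hρ).2 h1
  have hρq : ρ1 = q * ρ := by rw [hq, div_mul_cancel₀ _ hρ.ne']
  set S := A / (1 - q) ^ 2 with hS
  refine ⟨PP50 S ⌈S⌉₊, PP_one50 _ _, ?_⟩
  intro D f g s t f0 g0 s0 hs ht hsum htb
  let F : PowerSeries ℝ := PowerSeries.mk f
  let G : PowerSeries ℝ := PowerSeries.mk g
  let θ : PowerSeries ℝ := PowerSeries.mk fun b => (b : ℝ) * g b
  have cΔ : ∀ d ≤ D, PowerSeries.coeff d (F * G) = (if d = 0 then 1 else 0) - (if d = 2 then 1 else 0) + s d := by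
    intro d hd
    rw [cf50, ← hs d hd]
    exact sum_congr rfl fun k _ => by simp only [F, G, PowerSeries.coeff_mk]
  have cT : ∀ d ≤ D, PowerSeries.coeff d (F * θ) = t d := by
    intro d hd
    rw [cf50, ← ht d hd]
    refine sum_congr rfl fun k _ => ?_
    simp only [F, θ, PowerSeries.coeff_mk]
    ring
  have c0 : PowerSeries.coeff 0 (F * G) = 1 := by
    rw [cΔ 0 (Nat.zero_le _)]
    simp [s0]
  have hne : PowerSeries.constantCoeff (F * G) ≠ 0 := by
    rw [← PowerSeries.coeff_zero_eq_constantCoeff_apply, c0]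
    exact one_ne_zero
  set E : PowerSeries ℝ := (F * G)⁻¹ with hEdef
  have hE : E * (F * G) = 1 := by
    rw [mul_comm]
    exact PowerSeries.mul_inv_cancel _ hne
  -- the coefficients of `E`
  have e0 : PowerSeries.coeff 0 E = 1 := by
    have h2 := congrArg (PowerSeries.coeff 0) hE
    rw [cf50, zero_add, sum_range_one, Nat.sub_zero, c0, mul_one, PowerSeries.coeff_one, if_pos rfl] at h2
    exact h2
  have er : ∀ j, 1 ≤ j → PowerSeries.coeff j E =
      -∑ k ∈ range j, PowerSeries.coeff (j - (k + 1)) E * PowerSeries.coeff (k + 1) (F * G) := by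
    intro j hj
    have h2 := congrArg (PowerSeries.coeff j) hE
    rw [cf50, sum_range_succ', Nat.sub_zero, c0, mul_one, PowerSeries.coeff_one, if_neg (by omega)] at h2
    linarith
  have cΔ' : ∀ j ≤ D, ∑ k ∈ range j, |PowerSeries.coeff (k + 1) (F * G)| * ρ ^ (k + 1) ≤ 1 := by
    intro j hj
    have h2 : ∀ k ∈ range j, |PowerSeries.coeff (k + 1) (F * G)| * ρ ^ (k + 1) ≤
        (if k = 1 then ρ ^ 2 else 0) + |s (k + 1)| * ρ ^ (k + 1) := by
      intro k hk
      have hk' : k + 1 ≤ D := by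
        have := mem_range.1 hk
        omega
      rw [cΔ _ hk', if_neg (by omega)]
      by_cases h3 : k = 1
      · subst h3
        norm_num
        have h4 : |-1 + s 2| ≤ 1 + |s 2| := by
          refine (abs_add_le _ _).trans ?_
          rw [abs_neg, abs_one]
        nlinarith [mul_le_mul_of_nonneg_right h4 (show 0 ≤ ρ ^ 2 by positivity)]
      · rw [if_neg (by omega), if_neg h3]
        norm_num
    refine (sum_le_sum h2).trans ?_
    rw [sum_add_distrib]
    have h3 : ∑ k ∈ range j, (if k = 1 then ρ ^ 2 else 0) ≤ ρ ^ 2 := by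
      rw [sum_ite_eq']
      split_ifs
      · exact le_rfl
      · positivity
    have h4 : ∑ k ∈ range j, |s (k + 1)| * ρ ^ (k + 1) ≤ 1 - ρ ^ 2 := by
      have h5 : ∑ k ∈ range (j + 1), |s k| * ρ ^ k ≤ 1 - ρ ^ 2 :=
        (sum_le_sum_of_subset_of_nonneg (range_subset_range.2 (by omega)) fun i _ _ => by positivity).trans hsum
      rw [sum_range_succ'] at h5
      have h6 : 0 ≤ |s 0| * ρ ^ 0 := by positivity
      linarith
    linarith
  have eb : ∀ j, j ≤ D → |PowerSeries.coeff j E| * ρ ^ j ≤ 1 := by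
    intro j
    induction j using Nat.strong_induction_on with
    | _ j ih =>
      intro hj
      rcases Nat.eq_zero_or_pos j with rfl | hj0
      · rw [e0]
        norm_num
      · rw [er j hj0, abs_neg]
        have h2 : |∑ k ∈ range j, PowerSeries.coeff (j - (k + 1)) E * PowerSeries.coeff (k + 1) (F * G)| * ρ ^ j ≤
            ∑ k ∈ range j, |PowerSeries.coeff (k + 1) (F * G)| * ρ ^ (k + 1) := by
          refine (mul_le_mul_of_nonneg_right (abs_sum_le_sum_abs _ _) (by positivity)).trans ?_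
          rw [sum_mul]
          refine sum_le_sum fun k hk => ?_
          have hk' := mem_range.1 hk
          have h3 := ih (j - (k + 1)) (by omega) (by omega)
          have h4 : ρ ^ j = ρ ^ (j - (k + 1)) * ρ ^ (k + 1) := by
            rw [← pow_add]
            congr 1
            omega
          rw [abs_mul, h4]
          have h5 : 0 ≤ |PowerSeries.coeff (k + 1) (F * G)| * ρ ^ (k + 1) := by positivity
          calc |PowerSeries.coeff (j - (k + 1)) E| * |PowerSeries.coeff (k + 1) (F * G)| * (ρ ^ (j - (k + 1)) * ρ ^ (k + 1))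
              = (|PowerSeries.coeff (j - (k + 1)) E| * ρ ^ (j - (k + 1))) * (|PowerSeries.coeff (k + 1) (F * G)| * ρ ^ (k + 1)) := by ring
            _ ≤ 1 * (|PowerSeries.coeff (k + 1) (F * G)| * ρ ^ (k + 1)) := mul_le_mul_of_nonneg_right h3 h5
            _ = _ := one_mul _
        exact h2.trans (cΔ' j hj)
  -- `Λ`
  set L : PowerSeries ℝ := F * θ * E with hL
  have lb : ∀ j, j ≤ D → |PowerSeries.coeff j L| * ρ ^ j ≤ ((j : ℝ) + 1) * A := by
    intro j hj
    rw [hL, cf50]
    refine (mul_le_mul_of_nonneg_right (abs_sum_le_sum_abs _ _) (by positivity)).trans ?_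
    rw [sum_mul]
    have h2 : ∀ k ∈ range (j + 1), |PowerSeries.coeff (j - k) (F * θ) * PowerSeries.coeff k E| * ρ ^ j ≤ A := by
      intro k hk
      have hk' := mem_range.1 hk
      rw [cT _ (by omega), abs_mul]
      have h3 := htb (j - k) (by omega)
      have h4 := eb k (by omega)
      have h5 : ρ ^ j = ρ ^ (j - k) * ρ ^ k := by
        rw [← pow_add]
        congr 1
        omega
      rw [h5]
      calc |t (j - k)| * |PowerSeries.coeff k E| * (ρ ^ (j - k) * ρ ^ k)
          = (|t (j - k)| * ρ ^ (j - k)) * (|PowerSeries.coeff k E| * ρ ^ k) := by ring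
        _ ≤ A * 1 := mul_le_mul h3 h4 (by positivity) hA
        _ = A := mul_one _
    refine (sum_le_sum h2).trans ?_
    rw [sum_const, card_range, nsmul_eq_mul]
    push_cast
    exact le_rfl
  have l0 : PowerSeries.coeff 0 L = 0 := by
    rw [hL, cf50, zero_add, sum_range_one, Nat.sub_zero, cT 0 (Nat.zero_le _), ← ht 0 (Nat.zero_le _)]
    simp
  have hθ : θ = L * G := by
    have h2 : L * G = θ * (E * (F * G)) := by
      rw [hL]
      ring
    rw [h2, hE, mul_one]
  have gr : ∀ b : ℕ, (b : ℝ) * g b = ∑ k ∈ range b, PowerSeries.coeff (b - k) L * g k := by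
    intro b
    have h2 := congrArg (PowerSeries.coeff b) hθ
    rw [cf50, sum_range_succ, Nat.sub_self, l0, zero_mul, add_zero] at h2
    simp only [θ, G, PowerSeries.coeff_mk] at h2
    exact h2
  have lq : ∀ j, j ≤ D → |PowerSeries.coeff j L| * ρ1 ^ j ≤ A * (((j : ℝ) + 1) * q ^ j) := by
    intro j hj
    have h2 := mul_le_mul_of_nonneg_right (lb j hj) (show 0 ≤ q ^ j by positivity)
    rw [hρq, mul_pow]
    linarith
  have main : ∀ b, b ≤ D → |g b| * ρ1 ^ b ≤ PP50 S b := by
    intro b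
    induction b using Nat.strong_induction_on with
    | _ b ih =>
      intro hb
      rcases b with _ | b
      · rw [g0]
        simp [PP50]
      · have h2 : ((b : ℝ) + 1) * (|g (b + 1)| * ρ1 ^ (b + 1)) ≤ S * PP50 S b := by
          have h3 := gr (b + 1)
          have h4 : ((b : ℝ) + 1) * (|g (b + 1)| * ρ1 ^ (b + 1)) = |((b + 1 : ℕ) : ℝ) * g (b + 1)| * ρ1 ^ (b + 1) := by
            rw [abs_mul, Nat.abs_cast]
            push_cast
            ring
          rw [h4, h3]
          refine (mul_le_mul_of_nonneg_right (abs_sum_le_sum_abs _ _) (by positivity)).trans ?_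
          rw [sum_mul]
          have h5 : ∀ k ∈ range (b + 1), |PowerSeries.coeff (b + 1 - k) L * g k| * ρ1 ^ (b + 1) ≤
              A * PP50 S b * ((((b - k : ℕ) : ℝ) + 1 + 1) * q ^ (b - k + 1)) := by
            intro k hk
            have hk' := mem_range.1 hk
            have h6 := lq (b + 1 - k) (by omega)
            have h7 := ih k (by omega) (by omega)
            have h8 : PP50 S k ≤ PP50 S b := PP_mono50 S (by omega)
            have h9 : ρ1 ^ (b + 1) = ρ1 ^ (b + 1 - k) * ρ1 ^ k := by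
              rw [← pow_add]
              congr 1
              omega
            have h10 : b + 1 - k = b - k + 1 := by omega
            rw [h10] at h6 h9 ⊢
            push_cast at h6
            rw [abs_mul, h9]
            calc |PowerSeries.coeff (b - k + 1) L| * |g k| * (ρ1 ^ (b - k + 1) * ρ1 ^ k)
                = (|PowerSeries.coeff (b - k + 1) L| * ρ1 ^ (b - k + 1)) * (|g k| * ρ1 ^ k) := by ring
              _ ≤ (A * ((((b - k : ℕ) : ℝ) + 1 + 1) * q ^ (b - k + 1))) * PP50 S b :=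
                mul_le_mul h6 (h7.trans h8) (by positivity) (by positivity)
              _ = _ := by ring
          refine (sum_le_sum h5).trans ?_
          rw [← mul_sum]
          have h6 : ∑ k ∈ range (b + 1), (((b - k : ℕ) : ℝ) + 1 + 1) * q ^ (b - k + 1) ≤ 1 / (1 - q) ^ 2 := by
            have h7 := sum_range_reflect (fun j : ℕ => ((j : ℝ) + 1 + 1) * q ^ (j + 1)) (b + 1)
            have h8 : ∑ k ∈ range (b + 1), (((b - k : ℕ) : ℝ) + 1 + 1) * q ^ (b - k + 1) =
                ∑ j ∈ range (b + 1), (fun j : ℕ => ((j : ℝ) + 1 + 1) * q ^ (j + 1)) (b + 1 - 1 - j) := by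
              refine sum_congr rfl fun k _ => ?_
              simp
            rw [h8, h7]
            have h9 := geo50 hq0.le hq1 (b + 2)
            rw [sum_range_succ'] at h9
            push_cast at h9
            linarith
          have h7 : 0 ≤ A * PP50 S b := mul_nonneg hA (by linarith [PP_one50 S b])
          refine (mul_le_mul_of_nonneg_left h6 h7).trans (le_of_eq ?_)
          rw [hS]
          ring
        rw [PP_succ50]
        have hb1 : (0 : ℝ) < (b : ℝ) + 1 := by positivity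
        have h3 : |g (b + 1)| * ρ1 ^ (b + 1) ≤ S * PP50 S b / ((b : ℝ) + 1) := by
          rw [le_div_iff₀ hb1]
          linarith
        refine h3.trans ?_
        have h4 : S / ((b : ℝ) + 1) ≤ max 1 (S / ((b : ℝ) + 1)) := le_max_right _ _
        have h5 := mul_le_mul_of_nonneg_left h4 (show 0 ≤ PP50 S b by linarith [PP_one50 S b])
        refine le_trans (le_of_eq ?_) h5
        ring
  exact fun b hb => (main b hb).trans (PP_le50 S b)

end Pool.Agent.Helper97.TF6
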