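import Mathlib

/-!
BLOCK TF6-SEQ2 (about 150 lines). Consequences of the wave equation (finite algebra). ONLY MATHLIB.

`K a b`, `a, b ≥ 0`, extended by `K (-1) b = [b = 0]`, `K a (-1) = 0`; `Om K a b = K (a-1) b + K a (b-1)`, `hh K a = Om K a 0`, `ee K b = Om K 0 b`, `pp K d = ∑_{b<d} (-1)^b K (d-1-b) b`, `sg β K a b = ((a+b-1)/β) K (a-1) (b-1)` for `a, b ≥ 1`, `0` otherwise.
The wave equation for `(a, b)` says: `Om (a+1) (b+1) = hh (a+1) * ee (b+1) - Om a b - sg (a+1) (b+1)`.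

Proofs.
* `K_eq`: `∑_{j ≤ b} (-1)^j (K (a+j) (b-j) + K (a+j+1) (b-j-1))` telescopes.
* `Om_eq`: iterate the wave equation.
* `sum_Om`: `∑_{b ≤ d} (-1)^b Om (d-b) b = [d = 0]`, `sum_b_Om`: `∑_{b ≤ d} (-1)^b b Om (d-b) b = - pp d` (insert the definition, shift the second sum).
* `conv1`: `hh a * ee b = Om a b + Om (a-1) (b-1) + sg a b` (`Om = 0` for negative indices; true also for `a = 0` or `b = 0`); sum with `(-1)^b`, `sum_Om` for `d` and `d - 2`; `∑_b (-1)^b sg (d-b) b = - ((d-1)/β) pp (d-1)`.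
* `conv2`: the same with `(-1)^b b`, `sum_b_Om` for `d` and `d - 2` and `sum_Om` for `d - 2`.
-/

set_option autoImplicit false

open Finset

namespace Pool.Agent.Helper97.TF6

def Om (K : ℕ → ℕ → ℝ) (a b : ℕ) : ℝ :=
  (if a = 0 then (if b = 0 then 1 else 0) else K (a - 1) b) + (if b = 0 then 0 else K a (b - 1))

def hh (K : ℕ → ℕ → ℝ) (a : ℕ) : ℝ := if a = 0 then 1 else K (a - 1) 0

def ee (K : ℕ → ℕ → ℝ) (b : ℕ) : ℝ := if b = 0 then 1 else K 0 (b - 1)

def pp (K : ℕ → ℕ → ℝ) (d : ℕ) : ℝ := ∑ b ∈ range d, (-1) ^ b * K (d - 1 - b) b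

noncomputable def sg (β : ℝ) (K : ℕ → ℕ → ℝ) (a b : ℕ) : ℝ :=
  if a = 0 ∨ b = 0 then 0 else ((a : ℝ) + (b : ℝ) - 1) / β * K (a - 1) (b - 1)

/-- the wave equation up to the level `L` -/
def WaveEq (β : ℝ) (K : ℕ → ℕ → ℝ) (L : ℕ) : Prop :=
  ∀ a b : ℕ, a + b + 1 ≤ L → K (a + 1) b + K a (b + 1) + (if a = 0 then (if b = 0 then 1 else 0) else K (a - 1) b) +
    (if b = 0 then 0 else K a (b - 1)) - K a 0 * K 0 b = -(((a : ℝ) + (b : ℝ) + 1) / β * K a b)

private theorem Om_succ77 (K : ℕ → ℕ → ℝ) (a b : ℕ) : Om K (a + 1) (b + 1) = K a (b + 1) + K (a + 1) b := by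
  simp [Om]

private theorem Om_succ_zero77 (K : ℕ → ℕ → ℝ) (a : ℕ) : Om K (a + 1) 0 = K a 0 := by
  simp [Om]

private theorem wave77 {β : ℝ} {K : ℕ → ℕ → ℝ} {L : ℕ} (hw : WaveEq β K L) (a b : ℕ) (h : a + b + 1 ≤ L) :
    Om K (a + 1) (b + 1) = hh K (a + 1) * ee K (b + 1) - Om K a b - sg β K (a + 1) (b + 1) := by
  have h1 := hw a b h
  rw [Om_succ77]
  have h2 : hh K (a + 1) = K a 0 := by simp [hh]
  have h3 : ee K (b + 1) = K 0 b := by simp [ee]
  have h4 : sg β K (a + 1) (b + 1) = ((a : ℝ) + (b : ℝ) + 1) / β * K a b := by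
    simp only [sg, Nat.add_eq_zero_iff, one_ne_zero, and_false, or_self, if_false, Nat.add_sub_cancel]
    push_cast
    congr 2
    ring
  rw [h2, h3, h4]
  unfold Om
  linarith

theorem K_eq (K : ℕ → ℕ → ℝ) (a b : ℕ) : K a b = ∑ j ∈ range (b + 1), (-1) ^ j * Om K (a + 1 + j) (b - j) := by
  induction b generalizing a with
  | zero => simp [Om]
  | succ b ih =>
    rw [sum_range_succ']
    have h1 : ∑ j ∈ range (b + 1), (-1 : ℝ) ^ (j + 1) * Om K (a + 1 + (j + 1)) (b + 1 - (j + 1)) = -K (a + 1) b := by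
      rw [ih (a + 1), ← sum_neg_distrib]
      refine sum_congr rfl fun j _ => ?_
      have e1 : a + 1 + (j + 1) = a + 1 + 1 + j := by ring
      have e2 : b + 1 - (j + 1) = b - j := by omega
      rw [e1, e2, pow_succ]
      ring
    rw [h1]
    simp only [pow_zero, add_zero, Nat.sub_zero, one_mul]
    rw [Om_succ77]
    ring

theorem Om_eq {β : ℝ} {K : ℕ → ℕ → ℝ} {L : ℕ} (hw : WaveEq β K L) (a b : ℕ) (hab : a + b ≤ L + 1) :
    Om K a b = ∑ i ∈ range (min a b + 1), (-1) ^ i * (hh K (a - i) * ee K (b - i) - sg β K (a - i) (b - i)) := by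
  induction a generalizing b with
  | zero =>
    rcases Nat.eq_zero_or_pos b with hb | hb
    · subst hb
      simp [Om, hh, ee, sg]
    · have hb' : b ≠ 0 := by omega
      simp [Om, hh, ee, sg, hb']
  | succ a ih =>
    rcases b with _ | b
    · simp [Om, hh, ee, sg]
    · have e : min (a + 1) (b + 1) = min a b + 1 := by omega
      rw [e, sum_range_succ', wave77 hw a b (by omega), ih b (by omega)]
      have h1 : ∑ i ∈ range (min a b + 1), (-1 : ℝ) ^ (i + 1) *
          (hh K (a + 1 - (i + 1)) * ee K (b + 1 - (i + 1)) - sg β K (a + 1 - (i + 1)) (b + 1 - (i + 1))) =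
          -∑ i ∈ range (min a b + 1), (-1 : ℝ) ^ i * (hh K (a - i) * ee K (b - i) - sg β K (a - i) (b - i)) := by
        rw [← sum_neg_distrib]
        refine sum_congr rfl fun i _ => ?_
        have e1 : a + 1 - (i + 1) = a - i := by omega
        have e2 : b + 1 - (i + 1) = b - i := by omega
        rw [e1, e2, pow_succ]
        ring
      rw [h1]
      simp only [pow_zero, Nat.sub_zero, one_mul]
      ring

/-- the shifted function -/
private noncomputable def Omp77 (K : ℕ → ℕ → ℝ) (a b : ℕ) : ℝ := if a = 0 ∨ b = 0 then 0 else Om K (a - 1) (b - 1)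

private theorem prod77 {β : ℝ} {K : ℕ → ℕ → ℝ} {L : ℕ} (hw : WaveEq β K L) (a b : ℕ) (hab : a + b ≤ L + 1) :
    hh K a * ee K b = Om K a b + Omp77 K a b + sg β K a b := by
  rcases a with _ | a
  · rcases b with _ | b
    · simp [Om, hh, ee, sg, Omp77]
    · simp [Om, hh, ee, sg, Omp77]
  · rcases b with _ | b
    · simp [Om, hh, ee, sg, Omp77]
    · have h1 : Omp77 K (a + 1) (b + 1) = Om K a b := by simp [Omp77]
      rw [h1, wave77 hw a b (by omega)]
      ring

/-- strip the first and the last term -/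
private theorem strip77 (f : ℕ → ℝ) (m : ℕ) (h0 : f 0 = 0) (h1 : f (m + 2) = 0) :
    ∑ b ∈ range (m + 2 + 1), f b = ∑ b ∈ range (m + 1), f (b + 1) := by
  rw [sum_range_succ, h1, add_zero, sum_range_succ', h0, add_zero]

/-- `Om` on an antidiagonal -/
private theorem OmD77 (K : ℕ → ℕ → ℝ) (c : ℕ → ℝ) (d : ℕ) :
    ∑ b ∈ range (d + 1 + 1), c b * Om K (d + 1 - b) b =
      ∑ b ∈ range (d + 1), c b * K (d - b) b + ∑ b ∈ range (d + 1), c (b + 1) * K (d - b) b := by
  have h1 : ∀ b ∈ range (d + 1 + 1), c b * Om K (d + 1 - b) b =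
      c b * (if b = d + 1 then 0 else K (d - b) b) + c b * (if b = 0 then 0 else K (d + 1 - b) (b - 1)) := by
    intro b hb
    rw [mem_range] at hb
    rw [← mul_add]
    congr 1
    unfold Om
    congr 1
    by_cases h : b = d + 1
    · subst h
      simp
    · have h2 : d + 1 - b ≠ 0 := by omega
      have h3 : d + 1 - b - 1 = d - b := by omega
      rw [if_neg h2, if_neg h, h3]
  rw [sum_congr rfl h1, sum_add_distrib, sum_range_succ]
  simp only [if_true, mul_zero, add_zero]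
  congr 1
  · refine sum_congr rfl fun b hb => ?_
    rw [mem_range] at hb
    have h2 : b ≠ d + 1 := by omega
    rw [if_neg h2]
  · rw [sum_range_succ']
    simp only [if_true, mul_zero, add_zero]
    refine sum_congr rfl fun b hb => ?_
    have h2 : b + 1 ≠ 0 := by omega
    have h3 : d + 1 - (b + 1) = d - b := by omega
    rw [if_neg h2, h3, Nat.add_sub_cancel]

private theorem sumOm77 (K : ℕ → ℕ → ℝ) (d : ℕ) :
    ∑ b ∈ range (d + 1), (-1) ^ b * Om K (d - b) b = if d = 0 then 1 else 0 := by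
  rcases d with _ | d
  · simp [Om]
  · rw [OmD77 K (fun b => (-1) ^ b) d, ← sum_add_distrib, if_neg (by omega)]
    refine sum_eq_zero fun b _ => ?_
    rw [pow_succ]
    ring

private theorem sumbOm77 (K : ℕ → ℕ → ℝ) (d : ℕ) :
    ∑ b ∈ range (d + 1), (-1) ^ b * (b : ℝ) * Om K (d - b) b = -pp K d := by
  rcases d with _ | d
  · simp [Om, pp]
  · rw [OmD77 K (fun b => (-1) ^ b * (b : ℝ)) d, ← sum_add_distrib]
    unfold pp
    rw [← sum_neg_distrib]
    refine sum_congr rfl fun b _ => ?_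
    rw [Nat.add_sub_cancel, pow_succ]
    push_cast
    ring

theorem conv1 {β : ℝ} {K : ℕ → ℕ → ℝ} {L : ℕ} (hw : WaveEq β K L) (d : ℕ) (hd : d ≤ L + 1) :
    ∑ b ∈ range (d + 1), hh K (d - b) * ((-1) ^ b * ee K b) =
      (if d = 0 then 1 else 0) - (if d = 2 then 1 else 0) + (if d = 0 then 0 else -(((d : ℝ) - 1) / β * pp K (d - 1))) := by
  have h1 : ∑ b ∈ range (d + 1), hh K (d - b) * ((-1) ^ b * ee K b) =
      ∑ b ∈ range (d + 1), (-1) ^ b * Om K (d - b) b + ∑ b ∈ range (d + 1), (-1) ^ b * Omp77 K (d - b) b +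
        ∑ b ∈ range (d + 1), (-1) ^ b * sg β K (d - b) b := by
    rw [← sum_add_distrib, ← sum_add_distrib]
    refine sum_congr rfl fun b hb => ?_
    rw [mem_range] at hb
    have h2 := prod77 hw (d - b) b (by omega)
    calc hh K (d - b) * ((-1) ^ b * ee K b) = (-1) ^ b * (hh K (d - b) * ee K b) := by ring
      _ = _ := by rw [h2]; ring
  rw [h1, sumOm77]
  rcases d with _ | _ | m
  · simp [Omp77, sg]
  · simp [Omp77, sg, sum_range_succ]
  · have h2 : ∑ b ∈ range (m + 2 + 1), (-1 : ℝ) ^ b * Omp77 K (m + 2 - b) b = -(if m = 0 then 1 else 0) := by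
      rw [strip77 _ m (by simp [Omp77]) (by simp [Omp77]), ← sumOm77 K m, ← sum_neg_distrib]
      refine sum_congr rfl fun b hb => ?_
      rw [mem_range] at hb
      have h3 : ¬ (m + 2 - (b + 1) = 0 ∨ b + 1 = 0) := by omega
      have h4 : m + 2 - (b + 1) - 1 = m - b := by omega
      unfold Omp77
      rw [if_neg h3, h4, Nat.add_sub_cancel, pow_succ]
      ring
    have h3 : ∑ b ∈ range (m + 2 + 1), (-1 : ℝ) ^ b * sg β K (m + 2 - b) b =
        -((((m + 2 : ℕ) : ℝ) - 1) / β * pp K (m + 2 - 1)) := by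
      rw [strip77 _ m (by simp [sg]) (by simp [sg])]
      unfold pp
      rw [mul_sum, ← sum_neg_distrib]
      refine sum_congr rfl fun b hb => ?_
      rw [mem_range] at hb
      have h3 : ¬ (m + 2 - (b + 1) = 0 ∨ b + 1 = 0) := by omega
      have h4 : m + 2 - (b + 1) - 1 = m + 2 - 1 - 1 - b := by omega
      have h5 : (((m + 2 - (b + 1) : ℕ) : ℝ) + ((b + 1 : ℕ) : ℝ) - 1) = ((m + 2 : ℕ) : ℝ) - 1 := by
        rw [Nat.cast_sub (by omega)]
        ring
      unfold sg
      rw [if_neg h3, h4, h5, Nat.add_sub_cancel, pow_succ]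
      ring
    have e1 : (m + 1 + 1) = m + 2 := rfl
    rw [e1, h2, h3]
    rw [if_neg (by omega : ¬ m + 2 = 0), if_neg (by omega : ¬ m + 2 = 0)]
    by_cases hm : m = 0
    · subst hm
      simp
    · rw [if_neg hm, if_neg (by omega : ¬ m + 2 = 2)]
      ring

theorem conv2 {β : ℝ} {K : ℕ → ℕ → ℝ} {L : ℕ} (hw : WaveEq β K L) (d : ℕ) (hd : d ≤ L + 1) :
    ∑ b ∈ range (d + 1), (b : ℝ) * (hh K (d - b) * ((-1) ^ b * ee K b)) =
      -pp K d + pp K (d - 2) - (if d = 2 then 1 else 0) + ∑ b ∈ range (d + 1), (-1) ^ b * (b : ℝ) * sg β K (d - b) b := by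
  have h1 : ∑ b ∈ range (d + 1), (b : ℝ) * (hh K (d - b) * ((-1) ^ b * ee K b)) =
      ∑ b ∈ range (d + 1), (-1) ^ b * (b : ℝ) * Om K (d - b) b +
        ∑ b ∈ range (d + 1), (-1) ^ b * (b : ℝ) * Omp77 K (d - b) b +
        ∑ b ∈ range (d + 1), (-1) ^ b * (b : ℝ) * sg β K (d - b) b := by
    rw [← sum_add_distrib, ← sum_add_distrib]
    refine sum_congr rfl fun b hb => ?_
    rw [mem_range] at hb
    have h2 := prod77 hw (d - b) b (by omega)
    calc (b : ℝ) * (hh K (d - b) * ((-1) ^ b * ee K b)) = (-1) ^ b * (b : ℝ) * (hh K (d - b) * ee K b) := by ring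
      _ = _ := by rw [h2]; ring
  rw [h1, sumbOm77]
  congr 1
  rcases d with _ | _ | m
  · simp [Omp77, pp]
  · simp [Omp77, sum_range_succ, pp]
  · have h2 : ∑ b ∈ range (m + 2 + 1), (-1 : ℝ) ^ b * (b : ℝ) * Omp77 K (m + 2 - b) b =
        pp K m - (if m = 0 then 1 else 0) := by
      rw [strip77 _ m (by simp [Omp77]) (by simp [Omp77])]
      have h6 : pp K m - (if m = 0 then 1 else 0) = -(∑ b ∈ range (m + 1), (-1 : ℝ) ^ b * (b : ℝ) * Om K (m - b) b +
          ∑ b ∈ range (m + 1), (-1 : ℝ) ^ b * Om K (m - b) b) := by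
        rw [sumbOm77, sumOm77]
        ring
      rw [h6, ← sum_add_distrib, ← sum_neg_distrib]
      refine sum_congr rfl fun b hb => ?_
      rw [mem_range] at hb
      have h3 : ¬ (m + 2 - (b + 1) = 0 ∨ b + 1 = 0) := by omega
      have h4 : m + 2 - (b + 1) - 1 = m - b := by omega
      unfold Omp77
      rw [if_neg h3, h4, Nat.add_sub_cancel, pow_succ]
      push_cast
      ring
    have e1 : (m + 1 + 1) = m + 2 := rfl
    rw [e1, h2]
    have e2 : m + 2 - 2 = m := by omega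
    rw [e2]
    by_cases hm : m = 0
    · subst hm
      simp
      ring
    · rw [if_neg hm, if_neg (by omega : ¬ m + 2 = 2)]
      ring

end Pool.Agent.Helper97.TF6
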