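import Pool.Agent.Helper97.TF6.Seq1
import Pool.Agent.Helper97.TF6.Seq2

/-!
BLOCK TF6-SEQ3 (about 250 lines). The sequence lemma. ONLY MATHLIB (and Seq1, Seq2).

Proof. Fix `ρ' < ρ1 < ρ` (`ρ1` in the middle), `B0` from `newton` with `ρ, ρ1` and `2A + 3` instead of `A`; `B ≥ 1` with `(m+2)² (B0² ρ1^(-(m+1)) + 1) ρ'^m ≤ B` for all `m` (`ρ' < ρ1`, `ρ' < 1`); `δ = 1 - ρ²`. Induction on the level: suppose `m ≤ L` and `|K a b| ≤ B ρ'^(-(a+b))` for all `a + b < m`.
Put `c = (L+2)³ B ρ'^(-L)/β`, so `(L+2) c ≤ δ < 1`. For `d ≤ m + 1` (all sums over `b ≤ d`): `|sg (d-b) b| ≤ (L+1)/β * B ρ'^(-(d-2))`, so `|∑_b (-1)^b b sg (d-b) b| ≤ c ≤ 1`; `s_d := -((d-1)/β) pp (d-1)` (`d ≥ 1`; it involves `K` at the level `d - 2 ≤ m - 1`) has `|s_d| ≤ c`, `d |s_d| ≤ (L+2) * (L+1)²/β * B ρ'^(-L) ≤ c`, `∑_{d ≤ m+1} |s_d| ρ^d ≤ (L+2) c ≤ 1 - ρ²`.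
`|pp d| ρ^d ≤ A` for `1 ≤ d ≤ m + 1` and `pp 0 = 0`. `newton` with `D = m + 1`:
 (1) `f = hh`, `g b = (-1)^b ee b`, `t d = -pp d + pp (d-2) - [d=2] + s'_d`, `|t d| ρ^d ≤ A + A ρ² + ρ² + 1 ≤ 2A + 3` gives `|ee b| ρ1^b ≤ B0` for `b ≤ m + 1`;
 (2) `f b = (-1)^b ee b`, `g = hh` (reverse the sums): `∑_a a hh a f (d-a) = d * conv1 - conv2 = pp d - pp (d-2) - [d=2] + d s_d - s'_d`, `|t d| ρ^d ≤ 2A + 3` gives `|hh a| ρ1^a ≤ B0` for `a ≤ m + 1`.
For `x + y = m + 1` by `Om_eq` `|Om x y| ≤ (m+2) (B0² ρ1^(-(m+1)) + 1)`, and by `K_eq` for `a + b = m` `|K a b| ≤ (m+1) (m+2) (B0² ρ1^(-(m+1)) + 1) ≤ B ρ'^(-m)`.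
-/

set_option autoImplicit false

open Finset

namespace Pool.Agent.Helper97.TF6

private theorem poly_geom {r : ℝ} (h0 : 0 ≤ r) (h1 : r < 1) : ∃ C : ℝ, 0 ≤ C ∧ ∀ m : ℕ, ((m : ℝ) + 2) ^ 2 * r ^ m ≤ C := by
  have hr : |r| < 1 := by rwa [abs_of_nonneg h0]
  have t2 := tendsto_pow_const_mul_const_pow_of_abs_lt_one 2 hr
  have t1 := tendsto_pow_const_mul_const_pow_of_abs_lt_one 1 hr
  have t0 := tendsto_pow_const_mul_const_pow_of_abs_lt_one 0 hr
  have t := (t2.add (t1.const_mul 4)).add (t0.const_mul 4)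
  obtain ⟨C, hC⟩ := t.bddAbove_range
  refine ⟨max C 0, le_max_right _ _, fun m => le_trans (le_of_eq ?_) ((hC ⟨m, rfl⟩).trans (le_max_left _ _))⟩
  simp only [pow_zero, pow_one]
  ring

/-- the induction step -/
private theorem seq_step {ρ' ρ1 ρ A B0 B : ℝ} (h0 : 0 < ρ') (h01 : ρ' < ρ1) (h1 : ρ1 < ρ) (h2 : ρ < 1) (hA : 1 ≤ A) (hB0 : 1 ≤ B0)
    (hN : ∀ (D : ℕ) (f g s t : ℕ → ℝ), f 0 = 1 → g 0 = 1 → s 0 = 0 →
      (∀ d ≤ D, ∑ b ∈ range (d + 1), f (d - b) * g b = (if d = 0 then 1 else 0) - (if d = 2 then 1 else 0) + s d) →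
      (∀ d ≤ D, ∑ b ∈ range (d + 1), (b : ℝ) * (f (d - b) * g b) = t d) →
      (∑ d ∈ range (D + 1), |s d| * ρ ^ d ≤ 1 - ρ ^ 2) → (∀ d ≤ D, |t d| * ρ ^ d ≤ 2 * A + 3) →
      ∀ b ≤ D, |g b| * ρ1 ^ b ≤ B0) (hB : 1 ≤ B)
    (hB' : ∀ m : ℕ, ((m : ℝ) + 2) ^ 2 * (B0 ^ 2 / ρ1 ^ (m + 1) + 1) * ρ' ^ m ≤ B)
    {L : ℕ} {β : ℝ} {K : ℕ → ℕ → ℝ} (hβ : 0 < β) (hw : WaveEq β K L)
    (hpp : ∀ k : ℕ, 1 ≤ k → k ≤ L + 1 → |pp K k| * ρ ^ k ≤ A)
    (hL : ((L : ℝ) + 2) ^ 4 * B ≤ (1 - ρ ^ 2) * (ρ' ^ (L + 2) * β)) {m : ℕ} (hm : m ≤ L)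
    (ih : ∀ a b : ℕ, a + b < m → |K a b| * ρ' ^ (a + b) ≤ B) (a b : ℕ) (hab : a + b = m) : |K a b| * ρ' ^ (a + b) ≤ B := by
  have hρ'1 : ρ' < 1 := by linarith
  have hρ0 : 0 < ρ := by linarith
  have hρ1 : 0 < ρ1 := by linarith
  have hLr : (0 : ℝ) ≤ L := Nat.cast_nonneg L
  set κ : ℝ := B / (ρ' ^ L * β) with hκ
  have hP : 0 < ρ' ^ L * β := by positivity
  have hκ0 : 0 < κ := by positivity
  have hδ : 0 < 1 - ρ ^ 2 := by nlinarith
  have hκL : ((L : ℝ) + 2) ^ 4 * κ ≤ 1 - ρ ^ 2 := by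
    rw [hκ, ← mul_div_assoc, div_le_iff₀ hP]
    refine hL.trans (mul_le_mul_of_nonneg_left ?_ hδ.le)
    refine mul_le_mul_of_nonneg_right ?_ hβ.le
    exact pow_le_pow_of_le_one h0.le hρ'1.le (by omega)
  set c : ℝ := ((L : ℝ) + 2) ^ 3 * κ with hc
  have hc0 : 0 < c := by positivity
  have hcL : ((L : ℝ) + 2) * c ≤ 1 - ρ ^ 2 := by
    have : ((L : ℝ) + 2) * c = ((L : ℝ) + 2) ^ 4 * κ := by rw [hc]; ring
    rw [this]
    exact hκL
  have hcδ : c ≤ 1 - ρ ^ 2 := by nlinarith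
  have hc1 : c ≤ 1 := by nlinarith [sq_nonneg ρ]
  -- bounds for `K` below the level `m`
  have hK : ∀ a b : ℕ, a + b < m → |K a b| ≤ κ * β := by
    intro a b hab
    have e1 : κ * β = B / ρ' ^ L := by rw [hκ]; field_simp
    rw [e1, le_div_iff₀ (by positivity)]
    refine le_trans (mul_le_mul_of_nonneg_left ?_ (abs_nonneg _)) (ih a b hab)
    exact pow_le_pow_of_le_one h0.le hρ'1.le (by omega)
  have hpp0 : pp K 0 = 0 := by simp [pp]
  have hppm : ∀ k : ℕ, k ≤ m → |pp K k| ≤ k * (κ * β) := by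
    intro k hk
    rw [pp]
    refine (abs_sum_le_sum_abs _ _).trans ?_
    calc ∑ b ∈ range k, |(-1) ^ b * K (k - 1 - b) b| ≤ ∑ b ∈ range k, κ * β := by
          refine sum_le_sum fun b hb => ?_
          rw [mem_range] at hb
          rw [abs_mul, abs_pow, abs_neg, abs_one, one_pow, one_mul]
          exact hK _ _ (by omega)
      _ = k * (κ * β) := by rw [sum_const, card_range, nsmul_eq_mul]
  have hsg : ∀ x y : ℕ, x + y ≤ m + 1 → |sg β K x y| ≤ ((L : ℝ) + 1) * κ := by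
    intro x y hxy
    rw [sg]
    split_ifs with h
    · rw [abs_zero]; positivity
    · push Not at h
      have h3 := hK (x - 1) (y - 1) (by omega)
      have h4 : |((x : ℝ) + (y : ℝ) - 1) / β| ≤ ((L : ℝ) + 1) / β := by
        rw [abs_div, abs_of_pos hβ]
        refine div_le_div_of_nonneg_right ?_ hβ.le
        have h5 : (1 : ℝ) ≤ (x : ℝ) + y := by
          have : 1 ≤ x + y := by omega
          exact_mod_cast this
        rw [abs_of_nonneg (by linarith)]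
        have h6 : (x : ℝ) + y ≤ (L : ℝ) + 1 := by
          have : x + y ≤ L + 1 := by omega
          exact_mod_cast this
        linarith
      rw [abs_mul]
      calc |((x : ℝ) + (y : ℝ) - 1) / β| * |K (x - 1) (y - 1)| ≤ ((L : ℝ) + 1) / β * (κ * β) :=
            mul_le_mul h4 h3 (abs_nonneg _) (by positivity)
        _ = ((L : ℝ) + 1) * κ := by field_simp
  -- the sequences
  set s : ℕ → ℝ := fun d => if d = 0 then 0 else -(((d : ℝ) - 1) / β * pp K (d - 1)) with hs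
  set s' : ℕ → ℝ := fun d => ∑ b ∈ range (d + 1), (-1) ^ b * (b : ℝ) * sg β K (d - b) b with hs'
  have hsb : ∀ d ≤ m + 1, |s d| ≤ ((L : ℝ) + 2) ^ 2 * κ := by
    intro d hd
    simp only [hs]
    split_ifs with h
    · rw [abs_zero]; positivity
    · rw [abs_neg, abs_mul, abs_div, abs_of_pos hβ]
      have h3 := hppm (d - 1) (by omega)
      have h4 : ((d - 1 : ℕ) : ℝ) = (d : ℝ) - 1 := by
        rw [Nat.cast_sub (by omega), Nat.cast_one]
      rw [h4] at h3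
      have h5 : (0 : ℝ) ≤ (d : ℝ) - 1 := by
        rw [← h4]; exact Nat.cast_nonneg _
      have h6 : (d : ℝ) - 1 ≤ L := by
        rw [← h4]
        have : d - 1 ≤ L := by omega
        exact_mod_cast this
      rw [abs_of_nonneg h5]
      calc ((d : ℝ) - 1) / β * |pp K (d - 1)| ≤ ((d : ℝ) - 1) / β * (((d : ℝ) - 1) * (κ * β)) :=
            mul_le_mul_of_nonneg_left h3 (div_nonneg h5 hβ.le)
        _ = ((d : ℝ) - 1) ^ 2 * κ := by field_simp
        _ ≤ ((L : ℝ) + 2) ^ 2 * κ := by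
            refine mul_le_mul_of_nonneg_right (pow_le_pow_left₀ h5 (by linarith) 2) hκ0.le
  have hs'b : ∀ d ≤ m + 1, |s' d| ≤ c := by
    intro d hd
    simp only [hs']
    refine (abs_sum_le_sum_abs _ _).trans ?_
    have hdL : (d : ℝ) ≤ (L : ℝ) + 1 := by
      have : d ≤ L + 1 := by omega
      exact_mod_cast this
    calc ∑ b ∈ range (d + 1), |(-1) ^ b * (b : ℝ) * sg β K (d - b) b| ≤
          ∑ b ∈ range (d + 1), ((L : ℝ) + 1) * (((L : ℝ) + 1) * κ) := by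
          refine sum_le_sum fun b hb => ?_
          rw [mem_range] at hb
          rw [abs_mul, abs_mul, abs_pow, abs_neg, abs_one, one_pow, one_mul]
          refine mul_le_mul ?_ (hsg _ _ (by omega)) (abs_nonneg _) (by positivity)
          rw [abs_of_nonneg (Nat.cast_nonneg b)]
          have : (b : ℝ) ≤ d := by
            have : b ≤ d := by omega
            exact_mod_cast this
          linarith
      _ = ((d : ℝ) + 1) * (((L : ℝ) + 1) * (((L : ℝ) + 1) * κ)) := by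
          rw [sum_const, card_range, nsmul_eq_mul]
          push_cast
          ring
      _ ≤ ((L : ℝ) + 2) * (((L : ℝ) + 2) * (((L : ℝ) + 2) * κ)) := by
          have hd0 : (0 : ℝ) ≤ d := Nat.cast_nonneg d
          refine mul_le_mul (by linarith) (mul_le_mul (by linarith) (mul_le_mul_of_nonneg_right (by linarith) hκ0.le)
            (by positivity) (by positivity)) (by positivity) (by positivity)
      _ = c := by rw [hc]; ring
  have hρd : ∀ d : ℕ, ρ ^ d ≤ 1 := fun d => pow_le_one₀ hρ0.le h2.le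
  have hρd0 : ∀ d : ℕ, 0 ≤ ρ ^ d := fun d => pow_nonneg hρ0.le d
  have hsum : ∑ d ∈ range (m + 1 + 1), |s d| * ρ ^ d ≤ 1 - ρ ^ 2 := by
    calc ∑ d ∈ range (m + 1 + 1), |s d| * ρ ^ d ≤ ∑ d ∈ range (m + 1 + 1), ((L : ℝ) + 2) ^ 2 * κ := by
          refine sum_le_sum fun d hd => ?_
          rw [mem_range] at hd
          exact (mul_le_of_le_one_right (abs_nonneg _) (hρd d)).trans (hsb d (by omega))
      _ = ((m : ℝ) + 2) * (((L : ℝ) + 2) ^ 2 * κ) := by
          rw [sum_const, card_range, nsmul_eq_mul]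
          push_cast
          ring
      _ ≤ ((L : ℝ) + 2) * (((L : ℝ) + 2) ^ 2 * κ) := by
          have : (m : ℝ) ≤ L := by exact_mod_cast hm
          have hp : 0 ≤ ((L : ℝ) + 2) ^ 2 * κ := by positivity
          nlinarith
      _ = c := by rw [hc]; ring
      _ ≤ 1 - ρ ^ 2 := hcδ
  have hppd : ∀ d ≤ m + 1, |pp K d| * ρ ^ d ≤ A := by
    intro d hd
    rcases Nat.eq_zero_or_pos d with h | h
    · subst h
      rw [hpp0, abs_zero, zero_mul]
      linarith
    · exact hpp d h (by omega)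
  have hppd2 : ∀ d ≤ m + 1, |pp K (d - 2)| * ρ ^ d ≤ A := by
    intro d hd
    refine le_trans (mul_le_mul_of_nonneg_left ?_ (abs_nonneg _)) (hppd (d - 2) (by omega))
    exact pow_le_pow_of_le_one hρ0.le h2.le (by omega)
  have hind : ∀ d : ℕ, |(if d = 2 then (1 : ℝ) else 0)| * ρ ^ d ≤ 1 := by
    intro d
    split_ifs
    · rw [abs_one, one_mul]; exact hρd d
    · rw [abs_zero, zero_mul]; exact zero_le_one
  have hhh0 : hh K 0 = 1 := by simp [hh]
  have hee0 : ee K 0 = 1 := by simp [ee]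
  -- (1)
  have hee : ∀ b ≤ m + 1, |ee K b| * ρ1 ^ b ≤ B0 := by
    have h := hN (m + 1) (hh K) (fun b => (-1) ^ b * ee K b) s
      (fun d => -pp K d + pp K (d - 2) - (if d = 2 then 1 else 0) + s' d) hhh0 (by simp [hee0]) (by simp [hs])
      (fun d hd => conv1 hw d (by omega)) (fun d hd => conv2 hw d (by omega)) hsum (fun d hd => ?_)
    · intro b hb
      have h3 : |(-1) ^ b * ee K b| * ρ1 ^ b ≤ B0 := h b hb
      rwa [abs_mul, abs_pow, abs_neg, abs_one, one_pow, one_mul] at h3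
    · have e : |-pp K d + pp K (d - 2) - (if d = 2 then 1 else 0) + s' d| ≤
          |pp K d| + |pp K (d - 2)| + |(if d = 2 then (1 : ℝ) else 0)| + |s' d| := by
        have a1 := abs_add_le (-pp K d + pp K (d - 2) - (if d = 2 then (1 : ℝ) else 0)) (s' d)
        have a2 := abs_sub (-pp K d + pp K (d - 2)) (if d = 2 then (1 : ℝ) else 0)
        have a3 := abs_add_le (-pp K d) (pp K (d - 2))
        rw [abs_neg] at a3
        linarith
      have h3 := mul_le_mul_of_nonneg_right e (hρd0 d)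
      have h4 := hppd d hd
      have h5 := hppd2 d hd
      have h6 := hind d
      have h7 : |s' d| * ρ ^ d ≤ 1 := (mul_le_of_le_one_right (abs_nonneg _) (hρd d)).trans ((hs'b d hd).trans hc1)
      linarith
  -- (2)
  have hhh : ∀ a ≤ m + 1, |hh K a| * ρ1 ^ a ≤ B0 := by
    have h := hN (m + 1) (fun b => (-1) ^ b * ee K b) (hh K) s
      (fun d => pp K d - pp K (d - 2) - (if d = 2 then 1 else 0) + (d * s d - s' d)) (by simp [hee0]) hhh0 (by simp [hs])
      (fun d hd => ?_) (fun d hd => ?_) hsum (fun d hd => ?_)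
    · exact h
    · have h3 := conv1 hw d (by omega)
      rw [← sum_flip] at h3
      rw [← h3]
      refine sum_congr rfl fun b hb => ?_
      rw [mem_range] at hb
      have : d - (d - b) = b := by omega
      rw [this]
      ring
    · have h3 := conv1 hw d (by omega)
      have h4 := conv2 hw d (by omega)
      rw [← sum_flip] at h3 h4
      have h5 : ∑ b ∈ range (d + 1), (b : ℝ) * ((-1) ^ (d - b) * ee K (d - b) * hh K b) =
          (d : ℝ) * ∑ b ∈ range (d + 1), hh K (d - (d - b)) * ((-1) ^ (d - b) * ee K (d - b)) -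
          ∑ b ∈ range (d + 1), ((d - b : ℕ) : ℝ) * (hh K (d - (d - b)) * ((-1) ^ (d - b) * ee K (d - b))) := by
        rw [mul_sum, ← sum_sub_distrib]
        refine sum_congr rfl fun b hb => ?_
        rw [mem_range] at hb
        have e1 : d - (d - b) = b := by omega
        have e2 : ((d - b : ℕ) : ℝ) = (d : ℝ) - b := by
          rw [Nat.cast_sub (by omega)]
        rw [e1, e2]
        ring
      rw [h5, h3, h4]
      have e3 : (if d = 0 then (0 : ℝ) else -(((d : ℝ) - 1) / β * pp K (d - 1))) = s d := rfl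
      rw [e3]
      have e4 : ∑ b ∈ range (d + 1), (-1) ^ b * (b : ℝ) * sg β K (d - b) b = s' d := rfl
      rw [e4]
      by_cases hd0 : d = 0
      · subst hd0
        simp
      · by_cases hd2 : d = 2
        · subst hd2
          simp
          ring
        · simp only [if_neg hd0, if_neg hd2]
          ring
    · have e : |pp K d - pp K (d - 2) - (if d = 2 then 1 else 0) + (d * s d - s' d)| ≤
          |pp K d| + |pp K (d - 2)| + |(if d = 2 then (1 : ℝ) else 0)| + (|d * s d| + |s' d|) := by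
        have a1 := abs_add_le (pp K d - pp K (d - 2) - (if d = 2 then (1 : ℝ) else 0)) (d * s d - s' d)
        have a2 := abs_sub (pp K d - pp K (d - 2)) (if d = 2 then (1 : ℝ) else 0)
        have a3 := abs_sub (pp K d) (pp K (d - 2))
        have a4 := abs_sub (d * s d) (s' d)
        linarith
      have h3 := mul_le_mul_of_nonneg_right e (hρd0 d)
      have h4 := hppd d hd
      have h5 := hppd2 d hd
      have h6 := hind d
      have h7 : |s' d| * ρ ^ d ≤ 1 := (mul_le_of_le_one_right (abs_nonneg _) (hρd d)).trans ((hs'b d hd).trans hc1)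
      have h8 : |(d : ℝ) * s d| ≤ c := by
        rw [abs_mul, abs_of_nonneg (Nat.cast_nonneg d)]
        have h9 : (d : ℝ) ≤ (L : ℝ) + 2 := by
          have : d ≤ L + 2 := by omega
          exact_mod_cast this
        calc (d : ℝ) * |s d| ≤ ((L : ℝ) + 2) * (((L : ℝ) + 2) ^ 2 * κ) :=
              mul_le_mul h9 (hsb d hd) (abs_nonneg _) (by positivity)
          _ = c := by rw [hc]; ring
      have h9 : |(d : ℝ) * s d| * ρ ^ d ≤ 1 := (mul_le_of_le_one_right (abs_nonneg _) (hρd d)).trans (h8.trans hc1)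
      linarith
  -- `Om`
  have hOm : ∀ x y : ℕ, x + y = m + 1 → |Om K x y| ≤ ((m : ℝ) + 2) * (B0 ^ 2 / ρ1 ^ (m + 1) + 1) := by
    intro x y hxy
    rw [Om_eq hw x y (by omega)]
    refine (abs_sum_le_sum_abs _ _).trans ?_
    have hterm : ∀ i ∈ range (min x y + 1), |(-1) ^ i * (hh K (x - i) * ee K (y - i) - sg β K (x - i) (y - i))| ≤
        B0 ^ 2 / ρ1 ^ (m + 1) + 1 := by
      intro i hi
      rw [mem_range] at hi
      rw [abs_mul, abs_pow, abs_neg, abs_one, one_pow, one_mul]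
      refine (abs_sub _ _).trans (add_le_add ?_ ?_)
      · have h3 := hhh (x - i) (by omega)
        have h4 := hee (y - i) (by omega)
        rw [le_div_iff₀ (by positivity), abs_mul]
        have h5 : ρ1 ^ (m + 1) ≤ ρ1 ^ (x - i) * ρ1 ^ (y - i) := by
          rw [← pow_add]
          exact pow_le_pow_of_le_one hρ1.le (by linarith) (by omega)
        calc |hh K (x - i)| * |ee K (y - i)| * ρ1 ^ (m + 1) ≤ |hh K (x - i)| * |ee K (y - i)| * (ρ1 ^ (x - i) * ρ1 ^ (y - i)) :=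
              mul_le_mul_of_nonneg_left h5 (by positivity)
          _ = (|hh K (x - i)| * ρ1 ^ (x - i)) * (|ee K (y - i)| * ρ1 ^ (y - i)) := by ring
          _ ≤ B0 * B0 := mul_le_mul h3 h4 (by positivity) (by linarith)
          _ = B0 ^ 2 := by ring
      · refine (hsg _ _ (by omega)).trans (le_trans ?_ hc1)
        rw [hc]
        refine mul_le_mul_of_nonneg_right ?_ hκ0.le
        have h6 : (L : ℝ) + 2 ≤ ((L : ℝ) + 2) ^ 3 := le_self_pow₀ (by linarith) (by norm_num)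
        linarith
    calc ∑ i ∈ range (min x y + 1), |(-1) ^ i * (hh K (x - i) * ee K (y - i) - sg β K (x - i) (y - i))| ≤
          ∑ i ∈ range (min x y + 1), (B0 ^ 2 / ρ1 ^ (m + 1) + 1) := sum_le_sum hterm
      _ = ((min x y + 1 : ℕ) : ℝ) * (B0 ^ 2 / ρ1 ^ (m + 1) + 1) := by rw [sum_const, card_range, nsmul_eq_mul]
      _ ≤ ((m : ℝ) + 2) * (B0 ^ 2 / ρ1 ^ (m + 1) + 1) := by
          refine mul_le_mul_of_nonneg_right ?_ (by positivity)
          have : min x y + 1 ≤ m + 2 := by omega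
          exact_mod_cast this
  -- `K`
  have hKab : |K a b| ≤ ((m : ℝ) + 2) ^ 2 * (B0 ^ 2 / ρ1 ^ (m + 1) + 1) := by
    rw [K_eq K a b]
    refine (abs_sum_le_sum_abs _ _).trans ?_
    calc ∑ j ∈ range (b + 1), |(-1) ^ j * Om K (a + 1 + j) (b - j)| ≤
          ∑ j ∈ range (b + 1), ((m : ℝ) + 2) * (B0 ^ 2 / ρ1 ^ (m + 1) + 1) := by
          refine sum_le_sum fun j hj => ?_
          rw [mem_range] at hj
          rw [abs_mul, abs_pow, abs_neg, abs_one, one_pow, one_mul]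
          exact hOm _ _ (by omega)
      _ = ((b : ℝ) + 1) * (((m : ℝ) + 2) * (B0 ^ 2 / ρ1 ^ (m + 1) + 1)) := by
          rw [sum_const, card_range, nsmul_eq_mul]
          push_cast
          ring
      _ ≤ ((m : ℝ) + 2) * (((m : ℝ) + 2) * (B0 ^ 2 / ρ1 ^ (m + 1) + 1)) := by
          refine mul_le_mul_of_nonneg_right ?_ (by positivity)
          have : b + 1 ≤ m + 2 := by omega
          exact_mod_cast this
      _ = _ := by ring
  rw [hab]
  exact (mul_le_mul_of_nonneg_right hKab (by positivity)).trans (hB' m)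

theorem seq_lemma {ρ' ρ : ℝ} (h0 : 0 < ρ') (h1 : ρ' < ρ) (h2 : ρ < 1) (A : ℝ) (hA : 1 ≤ A) :
    ∃ B : ℝ, 1 ≤ B ∧ ∃ δ : ℝ, 0 < δ ∧ ∀ (L : ℕ) (β : ℝ) (K : ℕ → ℕ → ℝ), 0 < β → WaveEq β K L →
      (∀ k : ℕ, 1 ≤ k → k ≤ L + 1 → |pp K k| * ρ ^ k ≤ A) →
      ((L : ℝ) + 2) ^ 4 * B ≤ δ * (ρ' ^ (L + 2) * β) →
      ∀ a b : ℕ, a + b ≤ L → |K a b| * ρ' ^ (a + b) ≤ B := by
  obtain ⟨ρ1, h01, h11⟩ := exists_between h1
  have hρ1 : 0 < ρ1 := h0.trans h01
  obtain ⟨B0, hB0, hN⟩ := newton hρ1 h11 h2 (2 * A + 3) (by linarith)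
  obtain ⟨C1, hC10, hC1⟩ := poly_geom (r := ρ' / ρ1) (by positivity) (by rw [div_lt_one hρ1]; exact h01)
  obtain ⟨C2, hC20, hC2⟩ := poly_geom (r := ρ') h0.le (by linarith)
  set B : ℝ := B0 ^ 2 / ρ1 * C1 + C2 + 1 with hB
  have hB1 : 1 ≤ B := by
    have : 0 ≤ B0 ^ 2 / ρ1 * C1 := by positivity
    linarith
  have hB' : ∀ m : ℕ, ((m : ℝ) + 2) ^ 2 * (B0 ^ 2 / ρ1 ^ (m + 1) + 1) * ρ' ^ m ≤ B := by
    intro m
    have e : ((m : ℝ) + 2) ^ 2 * (B0 ^ 2 / ρ1 ^ (m + 1) + 1) * ρ' ^ m =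
        B0 ^ 2 / ρ1 * (((m : ℝ) + 2) ^ 2 * (ρ' / ρ1) ^ m) + ((m : ℝ) + 2) ^ 2 * ρ' ^ m := by
      rw [div_pow]
      field_simp
      ring
    rw [e]
    have h3 := mul_le_mul_of_nonneg_left (hC1 m) (show 0 ≤ B0 ^ 2 / ρ1 by positivity)
    have h4 := hC2 m
    linarith
  refine ⟨B, hB1, 1 - ρ ^ 2, by nlinarith [h0.trans h1], fun L β K hβ hw hpp hL => ?_⟩
  have key : ∀ m : ℕ, m ≤ L → ∀ a b : ℕ, a + b = m → |K a b| * ρ' ^ (a + b) ≤ B := by
    intro m
    induction m using Nat.strong_induction_on with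
    | _ m ih =>
      intro hm a b hab
      exact seq_step h0 h01 h11 h2 hA hB0 hN hB1 hB' hβ hw hpp hL hm
        (fun a' b' h' => ih (a' + b') h' (by omega) a' b' rfl) a b hab
  exact fun a b hab => key (a + b) hab a b rfl

end Pool.Agent.Helper97.TF6
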