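import Pool.Agent.Helper97.TF6.Lag

/-!
BLOCK TF6-WAVE (about 150 lines). The wave equation of the hook functions. ONLY MATHLIB (and GB.lean: `gB_rec`, Lag.lean: `Bm_det`).

`x : Fin N → ℕ` is injective, `r_y = (gB β y (x j))_j ∈ ℝ^N`, `R(y, i) = Rm β x y i`, `D = diag(x j)`.

Proofs.
* `Rm_lt`: `r_y` is the row `y` of `Bm`. `Rm_row`: `r_y = R(y,·) Bm` (`Bm` invertible, `Bm_det`). `Rm_unique`: if `r_y = ∑_i c_i r_i` then `c = r_y Bm⁻¹`.
* `wave`: `gB_rec` says `r_y D = y r_y + β (r_{y+1} + r_{y-1}) + e_y r_0`, `e_y = (-β)^(y+2)/(y+1)!` (`r_{-1} = 0`). Insert `r_y = ∑_{i<N} R(y,i) r_i` on the left and use the recursion for every `i` (with `r_N = ∑_l R(N,l) r_l` for `i = N - 1`), compare the coefficients of `r_l` (unique because `Bm` is invertible), `l = N - 1 - b ≥ 1`, `y = N + a`: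
  `(N+a) R(y,l) + β (R(y+1,l) + R(y-1,l)) = l R(y,l) + β (R(y,l-1) + [l+1<N] R(y,l+1)) + β R(y,N-1) R(N,l)`, where `R(N-1,l) = δ_{l,N-1}`. Divide by `β`, multiply by `(-1)^b`.
-/

set_option autoImplicit false

open Finset

namespace Pool.Agent.Helper97.TF6

variable {N : ℕ}

private theorem Bm_unit {β : ℝ} (hβ : 0 < β) {x : Fin N → ℕ} (hx : Function.Injective x) : IsUnit (Bm β x).det :=
  isUnit_iff_ne_zero.2 (Bm_det hβ hx)

private theorem vec_row {β : ℝ} (x : Fin N → ℕ) (c : Fin N → ℝ) (j : Fin N) :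
    Matrix.vecMul c (Bm β x) j = ∑ i, c i * gB β i (x j) := rfl

theorem Rm_row {β : ℝ} (hβ : 0 < β) {x : Fin N → ℕ} (hx : Function.Injective x) (y : ℕ) (j : Fin N) :
    gB β y (x j) = ∑ i, Rm β x y i * gB β i (x j) := by
  rw [← vec_row, Rm, Matrix.vecMul_vecMul, Matrix.nonsing_inv_mul _ (Bm_unit hβ hx), Matrix.vecMul_one]

theorem Rm_unique {β : ℝ} (hβ : 0 < β) {x : Fin N → ℕ} (hx : Function.Injective x) (c d : Fin N → ℝ)
    (h : ∀ j, ∑ i, c i * gB β i (x j) = ∑ i, d i * gB β i (x j)) : c = d := by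
  have h1 : Matrix.vecMul c (Bm β x) = Matrix.vecMul d (Bm β x) := funext h
  have h2 := congrArg (fun v => Matrix.vecMul v (Bm β x)⁻¹) h1
  simp only [Matrix.vecMul_vecMul, Matrix.mul_nonsing_inv _ (Bm_unit hβ hx), Matrix.vecMul_one] at h2
  exact h2

theorem Rm_lt {β : ℝ} (hβ : 0 < β) {x : Fin N → ℕ} (hx : Function.Injective x) (y i : Fin N) :
    Rm β x y i = if i = y then 1 else 0 := by
  have h1 : Rm β x y = fun i => if i = y then 1 else 0 := by
    refine Rm_unique hβ hx _ _ fun j => ?_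
    rw [← Rm_row hβ hx]
    simp
  rw [h1]

/-- the functional `φ l` applied to `D r_y` -/
private theorem phi_D {β : ℝ} (hβ : 0 < β) {x : Fin N → ℕ} (hx : Function.Injective x) (y : ℕ) (l : Fin N) (hl : 1 ≤ (l : ℕ)) :
    Matrix.vecMul (fun j => (x j : ℝ) * gB β y (x j)) (Bm β x)⁻¹ l =
      y * Rm β x y l + β * (Rm β x (y + 1) l + if y = 0 then 0 else Rm β x (y - 1) l) := by
  have h1 : (fun j => (x j : ℝ) * gB β y (x j)) = (y : ℝ) • (fun j => gB β y (x j)) +
      β • ((fun j => gB β (y + 1) (x j)) + fun j => if y = 0 then 0 else gB β (y - 1) (x j)) +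
      ((-β) ^ (y + 2) / ((y + 1).factorial : ℝ)) • fun j => gB β 0 (x j) := by
    funext j
    have := gB_rec β y (x j)
    simp only [Pi.add_apply, Pi.smul_apply, smul_eq_mul]
    linarith
  have h2 : Matrix.vecMul (fun j => gB β 0 (x j)) (Bm β x)⁻¹ l = 0 := by
    have h3 : (0 : ℕ) < N := by have := l.2; omega
    have h4 := Rm_lt hβ hx ⟨0, h3⟩ l
    rw [if_neg (fun h => by rw [h] at hl; simp at hl)] at h4
    exact h4
  have h5 : Matrix.vecMul (fun j => if y = 0 then 0 else gB β (y - 1) (x j)) (Bm β x)⁻¹ l =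
      if y = 0 then 0 else Rm β x (y - 1) l := by
    split_ifs with h
    · have : (fun _ : Fin N => (0 : ℝ)) = 0 := rfl
      rw [this, Matrix.zero_vecMul]
      rfl
    · rfl
  rw [h1, Matrix.add_vecMul, Matrix.add_vecMul, Matrix.smul_vecMul, Matrix.smul_vecMul, Matrix.smul_vecMul, Matrix.add_vecMul]
  simp only [Pi.add_apply, Pi.smul_apply, smul_eq_mul]
  rw [h2, h5, mul_zero, add_zero]
  rfl

/-- the wave equation for `Rm` -/
private theorem wave_Rm {β : ℝ} (hβ : 0 < β) {x : Fin N → ℕ} (hx : Function.Injective x) (y : ℕ) (l : Fin N) (hl : 1 ≤ (l : ℕ)) :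
    (y : ℝ) * Rm β x y l + β * (Rm β x (y + 1) l + if y = 0 then 0 else Rm β x (y - 1) l) =
      (l : ℝ) * Rm β x y l + β * (Rm β x y ⟨l - 1, by omega⟩ + (if h : (l : ℕ) + 1 < N then Rm β x y ⟨l + 1, h⟩ else 0) +
        Rm β x y ⟨N - 1, by have := l.2; omega⟩ * Rm β x N l) := by
  rw [← phi_D hβ hx y l hl]
  have h1 : (fun j => (x j : ℝ) * gB β y (x j)) = ∑ i : Fin N, Rm β x y i • fun j => (x j : ℝ) * gB β i (x j) := by
    funext j
    rw [Rm_row hβ hx y j, Finset.mul_sum, Finset.sum_apply]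
    refine Finset.sum_congr rfl fun i _ => ?_
    simp only [Pi.smul_apply, smul_eq_mul]
    ring
  have h2 : Matrix.vecMul (∑ i : Fin N, Rm β x y i • fun j => (x j : ℝ) * gB β i (x j)) (Bm β x)⁻¹ l =
      ∑ i : Fin N, Rm β x y i * Matrix.vecMul (fun j => (x j : ℝ) * gB β i (x j)) (Bm β x)⁻¹ l := by
    rw [Matrix.sum_vecMul, Finset.sum_apply]
    refine Finset.sum_congr rfl fun i _ => ?_
    rw [Matrix.smul_vecMul]
    rfl
  rw [h1, h2]
  have h3 : ∀ i : Fin N, Rm β x y i * Matrix.vecMul (fun j => (x j : ℝ) * gB β i (x j)) (Bm β x)⁻¹ l =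
      (if i = l then (l : ℝ) * Rm β x y l else 0) +
      β * ((if (i : ℕ) + 1 = l then Rm β x y i else 0) + (if (i : ℕ) = l + 1 then Rm β x y i else 0) +
        if (i : ℕ) + 1 = N then Rm β x y i * Rm β x N l else 0) := by
    intro i
    rw [phi_D hβ hx i l hl]
    have e1 : Rm β x i l = if l = i then 1 else 0 := Rm_lt hβ hx i l
    have e2 : Rm β x ((i : ℕ) + 1) l = (if (i : ℕ) + 1 = l then 1 else 0) + if (i : ℕ) + 1 = N then Rm β x N l else 0 := by
      by_cases h : (i : ℕ) + 1 < N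
      · have := Rm_lt hβ hx ⟨(i : ℕ) + 1, h⟩ l
        simp only [Fin.ext_iff] at this
        rw [this, if_neg (show ¬ ((i : ℕ) + 1 = N) by omega), add_zero]
        by_cases h' : (l : ℕ) = i + 1
        · rw [if_pos h', if_pos h'.symm]
        · rw [if_neg h', if_neg (fun h'' => h' h''.symm)]
      · have h4 : (i : ℕ) + 1 = N := by have := i.2; omega
        rw [if_pos h4, if_neg (by have := l.2; omega), zero_add, h4]
    have e3 : (if (i : ℕ) = 0 then 0 else Rm β x ((i : ℕ) - 1) l) = if (i : ℕ) = l + 1 then 1 else 0 := by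
      by_cases h : (i : ℕ) = 0
      · rw [if_pos h, if_neg (by omega)]
      · rw [if_neg h]
        have := Rm_lt hβ hx ⟨(i : ℕ) - 1, by have := i.2; omega⟩ l
        simp only [Fin.ext_iff] at this
        rw [this]
        by_cases h' : (l : ℕ) = i - 1
        · rw [if_pos h', if_pos (by omega)]
        · rw [if_neg h', if_neg (by omega)]
    rw [e1, e2, e3]
    by_cases h1 : i = l
    · subst h1
      simp only [if_true]
      split_ifs <;> ring
    · rw [if_neg h1, if_neg (fun h => h1 h.symm)]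
      split_ifs <;> ring
  rw [Finset.sum_congr rfl fun i _ => h3 i, Finset.sum_add_distrib, ← Finset.mul_sum, Finset.sum_add_distrib,
    Finset.sum_add_distrib]
  have s1 : ∑ i : Fin N, (if i = l then (l : ℝ) * Rm β x y l else 0) = (l : ℝ) * Rm β x y l := by simp
  have s2 : ∑ i : Fin N, (if (i : ℕ) + 1 = l then Rm β x y i else 0) = Rm β x y ⟨l - 1, by omega⟩ := by
    rw [Finset.sum_eq_single (⟨l - 1, by omega⟩ : Fin N)]
    · rw [if_pos (by simp only; omega)]
    · intro i _ hi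
      rw [if_neg]
      intro h
      exact hi (Fin.ext (by simp only; omega))
    · intro h
      exact absurd (Finset.mem_univ _) h
  have s3 : ∑ i : Fin N, (if (i : ℕ) = l + 1 then Rm β x y i else 0) =
      if h : (l : ℕ) + 1 < N then Rm β x y ⟨l + 1, h⟩ else 0 := by
    by_cases h : (l : ℕ) + 1 < N
    · rw [dif_pos h, Finset.sum_eq_single (⟨l + 1, h⟩ : Fin N)]
      · rw [if_pos rfl]
      · intro i _ hi
        rw [if_neg]
        intro h'
        exact hi (Fin.ext h')
      · intro h'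
        exact absurd (Finset.mem_univ _) h'
    · rw [dif_neg h]
      refine Finset.sum_eq_zero fun i _ => ?_
      rw [if_neg]
      have := i.2
      omega
  have s4 : ∑ i : Fin N, (if (i : ℕ) + 1 = N then Rm β x y i * Rm β x N l else 0) =
      Rm β x y ⟨N - 1, by have := l.2; omega⟩ * Rm β x N l := by
    have hN := l.2
    rw [Finset.sum_eq_single (⟨N - 1, by omega⟩ : Fin N)]
    · rw [if_pos (by simp only; omega)]
    · intro i _ hi
      rw [if_neg]
      intro h
      exact hi (Fin.ext (by simp only; omega))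
    · intro h
      exact absurd (Finset.mem_univ _) h
  rw [s1, s2, s3, s4]

/-- the wave equation -/
theorem wave {β : ℝ} (hβ : 0 < β) {x : Fin N → ℕ} (hx : Function.Injective x) (a b : ℕ) (hb : b + 1 < N) :
    KK β x (a + 1) b + KK β x a (b + 1) + (if a = 0 then (if b = 0 then 1 else 0) else KK β x (a - 1) b) +
      (if b = 0 then 0 else KK β x a (b - 1)) - KK β x a 0 * KK β x 0 b =
      -(((a : ℝ) + (b : ℝ) + 1) / β * KK β x a b) := by
  have hb' : b < N := by omega
  set l : Fin N := ⟨N - 1 - b, by omega⟩ with hl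
  have hl1 : 1 ≤ (l : ℕ) := by simp only [hl]; omega
  have hw := wave_Rm hβ hx (N + a) l hl1
  have k1 : KK β x (a + 1) b = (-1) ^ b * Rm β x (N + a + 1) l := by rw [KK, dif_pos hb']; rfl
  have k2 : KK β x a (b + 1) = -((-1) ^ b * Rm β x (N + a) ⟨l - 1, by omega⟩) := by
    rw [KK, dif_pos hb, pow_succ]
    have : (⟨N - 1 - (b + 1), by omega⟩ : Fin N) = ⟨l - 1, by omega⟩ := Fin.ext (by simp only [hl]; omega)
    rw [this]
    ring
  have k3 : KK β x a b = (-1) ^ b * Rm β x (N + a) l := by rw [KK, dif_pos hb']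
  have k4 : (if b = 0 then 0 else KK β x a (b - 1)) =
      -((-1) ^ b * if h : (l : ℕ) + 1 < N then Rm β x (N + a) ⟨l + 1, h⟩ else 0) := by
    by_cases h : b = 0
    · rw [if_pos h, dif_neg (by simp only [hl]; omega)]
      simp
    · rw [if_neg h, dif_pos (show (l : ℕ) + 1 < N by simp only [hl]; omega), KK, dif_pos (by omega)]
      have e1 : (⟨N - 1 - (b - 1), by omega⟩ : Fin N) = ⟨l + 1, by simp only [hl]; omega⟩ := Fin.ext (by simp only [hl]; omega)
      have e2 : (-1 : ℝ) ^ b = -((-1) ^ (b - 1)) := by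
        obtain ⟨c, rfl⟩ : ∃ c, b = c + 1 := ⟨b - 1, by omega⟩
        rw [pow_succ]
        simp
      rw [e1, e2]
      ring
  have k5 : KK β x a 0 * KK β x 0 b = (-1) ^ b * (Rm β x (N + a) ⟨N - 1, by omega⟩ * Rm β x N l) := by
    rw [KK, dif_pos (by omega), KK, dif_pos hb']
    simp only [pow_zero, one_mul, add_zero, Nat.sub_zero]
    ring
  have k6 : (if a = 0 then (if b = 0 then 1 else 0) else KK β x (a - 1) b) =
      (-1) ^ b * if N + a = 0 then 0 else Rm β x (N + a - 1) l := by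
    rw [if_neg (show ¬ (N + a = 0) by omega)]
    by_cases h : a = 0
    · subst h
      rw [if_pos rfl, add_zero]
      have := Rm_lt hβ hx ⟨N - 1, by omega⟩ l
      simp only [Fin.ext_iff] at this
      rw [this]
      by_cases h' : b = 0
      · subst h'
        rw [if_pos rfl, if_pos (by simp only [hl]; omega)]
        simp
      · rw [if_neg h', if_neg (by simp only [hl]; omega)]
        simp
    · rw [if_neg h, KK, dif_pos hb']
      have : N + (a - 1) = N + a - 1 := by omega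
      rw [this]
  rw [k1, k2, k3, k4, k5, k6]
  have hlN : (l : ℝ) = (N : ℝ) - 1 - b := by
    have h1 : ((l : ℕ) : ℝ) + 1 + b = N := by
      have : (l : ℕ) + 1 + b = N := by simp only [hl]; omega
      exact_mod_cast this
    linarith
  rw [hlN] at hw
  push_cast at hw
  have hβ' : β ≠ 0 := hβ.ne'
  generalize Rm β x (N + a) l = A at *
  generalize Rm β x (N + a + 1) l = A1 at *
  generalize (if N + a = 0 then (0 : ℝ) else Rm β x (N + a - 1) l) = A2 at *
  generalize (Rm β x (N + a) ⟨l - 1, _⟩) = A3 at *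
  generalize (if h : (l : ℕ) + 1 < N then Rm β x (N + a) ⟨l + 1, h⟩ else 0) = A4 at *
  generalize (Rm β x (N + a) ⟨N - 1, _⟩ * Rm β x N l) = A5 at *
  have key : A1 - A3 + A2 - A4 - A5 = -(((a : ℝ) + b + 1) / β * A) := by
    field_simp
    linarith
  have : (-1 : ℝ) ^ b * A1 + -((-1) ^ b * A3) + (-1) ^ b * A2 + -((-1) ^ b * A4) - (-1) ^ b * A5 =
      (-1) ^ b * (A1 - A3 + A2 - A4 - A5) := by ring
  rw [this, key]
  ring

end Pool.Agent.Helper97.TF6
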